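import Pool.Agent.H950.AD.Bad

/-!
The probability of long arms around some defect.
-/

set_option autoImplicit false

namespace Pool.Agent.H950.AD

open H974 Finset H12S Q291.EP Q291.NL H342P H984P H984N Q291.AD

theorem sum_pow (m : ℕ) : ∑ i ∈ Finset.range m, ((i:ℝ) + 1) ^ (-(23/24) : ℝ) ≤
    24 * (m:ℝ) ^ (1/24 : ℝ) := by
  induction m with
  | zero => simp
  | succ m ih =>
    rw [Finset.sum_range_succ]
    have ht : (0:ℝ) < (m:ℝ) + 1 := by positivity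
    have h1 : (m:ℝ) ^ (1/24 : ℝ) ≤ ((m:ℝ) + 1) ^ (1/24 : ℝ) *
        (1 + 1/24 * (-(1 / ((m:ℝ) + 1)))) := by
      have e : (m:ℝ) = ((m:ℝ) + 1) * (1 + -(1 / ((m:ℝ) + 1))) := by field_simp; ring
      conv_lhs => rw [e]
      have h2 : 0 ≤ 1 + -(1 / ((m:ℝ) + 1)) := by
        have : 1 / ((m:ℝ) + 1) ≤ 1 := by
          rw [div_le_one ht]
          linarith [(Nat.cast_nonneg m : (0:ℝ) ≤ m)]
        linarith
      rw [Real.mul_rpow ht.le h2]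
      apply mul_le_mul_of_nonneg_left _ (by positivity)
      exact rpow_one_add_le_one_add_mul_self (by linarith) (by norm_num) (by norm_num)
    have h3 : ((m:ℝ) + 1) ^ (1/24 : ℝ) * (1 / ((m:ℝ) + 1)) = ((m:ℝ) + 1) ^ (-(23/24) : ℝ) := by
      have : (1 / ((m:ℝ) + 1)) = ((m:ℝ) + 1) ^ (-1 : ℝ) := by
        rw [Real.rpow_neg ht.le, Real.rpow_one, one_div]
      rw [this, ← Real.rpow_add ht]
      norm_num
    push_cast
    nlinarith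

theorem card_side (n : ℕ) (aa ss : Bool) (i : ℕ) :
    (((RE 0 (n:ℤ) 0 n).filter (fun e => dS n aa ss e = i)).card : ℝ) ≤ 2 * ((n:ℝ) + 1) := by
  have h1 : ((RE 0 (n:ℤ) 0 n).filter (fun e => dS n aa ss e = i)).card ≤
      ((Finset.Icc (0:ℤ) n) ×ˢ (Finset.univ : Finset Bool)).card := by
    apply Finset.card_le_card_of_injOn (fun e => (if aa then e.2.1 else e.1, e.2.2))
    · intro e he
      rw [Finset.mem_coe, Finset.mem_filter] at he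
      have h := (pb_edge (Finset.Subset.refl (RE 0 (n:ℤ) 0 n)) he.1).1
      unfold inR src at h
      simp only at h
      rw [Finset.mem_coe, Finset.mem_product, Finset.mem_Icc]
      refine ⟨?_, Finset.mem_univ _⟩
      cases aa
      · simp only [Bool.false_eq_true, if_false]; omega
      · simp only [if_true]; omega
    · intro e he f hf hef
      rw [Finset.mem_coe, Finset.mem_filter] at he hf
      have h := (pb_edge (Finset.Subset.refl (RE 0 (n:ℤ) 0 n)) he.1).1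
      have h' := (pb_edge (Finset.Subset.refl (RE 0 (n:ℤ) 0 n)) hf.1).1
      unfold inR src at h h'
      simp only at h h'
      obtain ⟨x, y, b⟩ := e
      obtain ⟨x', y', b'⟩ := f
      have e1 := he.2
      have e2 := hf.2
      unfold dS sX co src at e1 e2
      simp only [Prod.mk.injEq] at hef h h'
      obtain ⟨h3, rfl⟩ := hef
      cases aa <;> cases ss <;>
        simp only [Bool.false_eq_true, if_false, if_true] at e1 e2 h3 <;>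
        (have : x = x' := by omega) <;> (have : y = y' := by omega) <;> subst_vars <;> rfl
  have h2 : ((Finset.Icc (0:ℤ) n) ×ˢ (Finset.univ : Finset Bool)).card = (n + 1) * 2 := by
    rw [Finset.card_product, Int.card_Icc]
    simp
  rw [h2] at h1
  have h3 : (((RE 0 (n:ℤ) 0 n).filter (fun e => dS n aa ss e = i)).card : ℝ) ≤
      (((n + 1) * 2 : ℕ) : ℝ) := by exact_mod_cast h1
  push_cast at h3
  linarith

theorem dS_le {n : ℕ} {e : Edg} (he : e ∈ RE 0 (n:ℤ) 0 n) (aa ss : Bool) :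
    dS n aa ss e < n + 1 := by
  have h := (pb_edge (Finset.Subset.refl (RE 0 (n:ℤ) 0 n)) he).1
  unfold inR src at h
  simp only at h
  unfold dS sX co src
  cases aa <;> cases ss <;> simp only [Bool.false_eq_true, if_false, if_true] <;> omega

theorem sum_side (n : ℕ) (aa ss : Bool) :
    ∑ e ∈ RE 0 (n:ℤ) 0 n, ((dS n aa ss e : ℝ) + 1) ^ (-(23/24) : ℝ) ≤
      48 * ((n:ℝ) + 1) ^ (25/24 : ℝ) := by
  have h1 : ∑ e ∈ RE 0 (n:ℤ) 0 n, ((dS n aa ss e : ℝ) + 1) ^ (-(23/24) : ℝ) =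
      ∑ i ∈ Finset.range (n + 1), ∑ e ∈ (RE 0 (n:ℤ) 0 n).filter (fun e => dS n aa ss e = i),
        ((dS n aa ss e : ℝ) + 1) ^ (-(23/24) : ℝ) := by
    rw [Finset.sum_fiberwise_of_maps_to]
    intro e he
    exact Finset.mem_range.2 (dS_le he aa ss)
  rw [h1]
  have h2 : ∀ i ∈ Finset.range (n + 1),
      ∑ e ∈ (RE 0 (n:ℤ) 0 n).filter (fun e => dS n aa ss e = i),
        ((dS n aa ss e : ℝ) + 1) ^ (-(23/24) : ℝ) ≤
        2 * ((n:ℝ) + 1) * ((i:ℝ) + 1) ^ (-(23/24) : ℝ) := by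
    intro i _
    rw [Finset.sum_congr rfl (g := fun _ => ((i:ℝ) + 1) ^ (-(23/24) : ℝ))
      (fun e he => by rw [(Finset.mem_filter.1 he).2]), Finset.sum_const, nsmul_eq_mul]
    exact mul_le_mul_of_nonneg_right (card_side n aa ss i) (by positivity)
  refine (Finset.sum_le_sum h2).trans ?_
  rw [← Finset.mul_sum]
  have h3 := sum_pow (n + 1)
  push_cast at h3
  have h4 : ((n:ℝ) + 1) * ((n:ℝ) + 1) ^ (1/24 : ℝ) = ((n:ℝ) + 1) ^ (25/24 : ℝ) := by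
    have : ((n:ℝ) + 1) ^ (1:ℝ) * ((n:ℝ) + 1) ^ (1/24 : ℝ) = ((n:ℝ) + 1) ^ (25/24 : ℝ) := by
      rw [← Real.rpow_add (by positivity)]; norm_num
    rwa [Real.rpow_one] at this
  calc 2 * ((n:ℝ) + 1) * ∑ i ∈ Finset.range (n + 1), ((i:ℝ) + 1) ^ (-(23/24) : ℝ)
      ≤ 2 * ((n:ℝ) + 1) * (24 * ((n:ℝ) + 1) ^ (1/24 : ℝ)) :=
        mul_le_mul_of_nonneg_left h3 (by positivity)
    _ = 48 * (((n:ℝ) + 1) * ((n:ℝ) + 1) ^ (1/24 : ℝ)) := by ring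
    _ = _ := by rw [h4]

theorem card_S (n : ℕ) : ((RE 0 (n:ℤ) 0 n).card : ℝ) ≤ 2 * ((n:ℝ) + 1) ^ 2 := by
  have h1 : (RE 0 (n:ℤ) 0 n).card = ∑ i ∈ Finset.range (n + 1),
      ((RE 0 (n:ℤ) 0 n).filter (fun e => dS n true false e = i)).card :=
    Finset.card_eq_sum_card_fiberwise (fun e he =>
      Finset.mem_coe.2 (Finset.mem_range.2 (dS_le (Finset.mem_coe.1 he) true false)))
  rw [h1]
  push_cast
  refine (Finset.sum_le_sum (fun i _ => card_side n true false i)).trans ?_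
  rw [Finset.sum_const, Finset.card_range, nsmul_eq_mul]
  push_cast
  nlinarith

/-- **Long arms around some defect are unlikely.** -/
theorem bad_pr : ∃ C : ℝ, 0 < C ∧ ∀ (n ρ : ℕ), 1 ≤ ρ → ρ ≤ n → ∀ τ : ℝ, 0 ≤ τ → τ ≤ 1 →
    P2 τ (RE 0 (n:ℤ) 0 n) (fun F Q => ¬ NB ρ F Q ∨ ¬ ND ρ F Q) ≤
      C * (τ * ((n:ℝ) ^ 2 * (ρ:ℝ) ^ (-(5/4) : ℝ))) := by
  obtain ⟨C, ε, hC, hε, h⟩ := ev_pr
  refine ⟨6400 * C + 1 / ε, by positivity, ?_⟩
  intro n ρ hρ hρn τ h0 h1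
  have hn0 : (0:ℝ) < n := by
    have : 0 < n := by omega
    exact_mod_cast this
  have hρ0 : (0:ℝ) < ρ := by
    have : 0 < ρ := by omega
    exact_mod_cast this
  have hn1 : (1:ℝ) ≤ n := by
    have : 1 ≤ n := by omega
    exact_mod_cast this
  have hρn' : (ρ:ℝ) ≤ n := by exact_mod_cast hρn
  obtain ⟨Z, hZ⟩ : ∃ Z : ℝ, Z = (n:ℝ) ^ 2 * (ρ:ℝ) ^ (-(5/4) : ℝ) := ⟨_, rfl⟩
  have hZ0 : 0 ≤ Z := by rw [hZ]; positivity
  rw [← hZ]
  by_cases hq : τ ≤ ε * (n:ℝ) ^ (-(3/4) : ℝ)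
  swap
  · push Not at hq
    refine (P2_le_one h0 h1 _ _).trans ?_
    have h2 : (n:ℝ) ^ (3/4 : ℝ) ≤ Z := by
      have h3 : (n:ℝ) ^ (-(5/4) : ℝ) ≤ (ρ:ℝ) ^ (-(5/4) : ℝ) :=
        Real.rpow_le_rpow_of_nonpos hρ0 hρn' (by norm_num)
      have h4 : (n:ℝ) ^ (3/4 : ℝ) = (n:ℝ) ^ 2 * (n:ℝ) ^ (-(5/4) : ℝ) := by
        rw [← Real.rpow_natCast, ← Real.rpow_add hn0]; norm_num
      rw [h4, hZ]
      exact mul_le_mul_of_nonneg_left h3 (by positivity)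
    have h5 : ε * (n:ℝ) ^ (-(3/4) : ℝ) * (n:ℝ) ^ (3/4 : ℝ) = ε := by
      rw [mul_assoc, ← Real.rpow_add hn0]; norm_num
    have h6 : ε ≤ τ * Z := by
      calc ε = ε * (n:ℝ) ^ (-(3/4) : ℝ) * (n:ℝ) ^ (3/4 : ℝ) := h5.symm
        _ ≤ τ * Z := mul_le_mul hq.le h2 (by positivity) h0
    have h7 : 1 ≤ 1 / ε * (τ * Z) := by
      rw [one_div, ← div_eq_inv_mul, le_div_iff₀ hε, one_mul]
      exact h6
    have h8 : 0 ≤ 6400 * C * (τ * Z) := by positivity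
    linarith
  -- the union bound
  have hpt : ∀ e ∈ RE 0 (n:ℤ) 0 n, ∀ κ aa ss : Bool, P2 τ (RE 0 (n:ℤ) 0 n) (Ev n ρ κ aa ss e) ≤
      τ * (4 * C * (((dS n aa ss e : ℝ) + 1) ^ (-(23/24) : ℝ) * ((ρ:ℝ) + 1) ^ (-(7/24) : ℝ) +
        ((ρ:ℝ) + 1) ^ (-(23/24) : ℝ) * ((ρ:ℝ) + 1) ^ (-(7/24) : ℝ))) := by
    intro e he κ aa ss
    refine (h n ρ hρ hρn τ h0 h1 hq e he κ aa ss).trans (mul_le_mul_of_nonneg_left ?_ h0)
    obtain ⟨-, hJ⟩ := scale_facts n ρ aa ss e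
    have two : ∀ {x y s : ℝ}, 0 < y → y ≤ 2 * x → 0 ≤ s → s ≤ 1 → x ^ (-s) ≤ 2 * y ^ (-s) := by
      intro x y s hy hyx hs0 hs1
      have h3 : 0 < y / 2 := by positivity
      have h4 : x ^ (-s) ≤ (y / 2) ^ (-s) :=
        Real.rpow_le_rpow_of_nonpos h3 (by linarith) (by linarith)
      have h5 : (y / 2) ^ (-s) = 2 ^ s * y ^ (-s) := by
        rw [Real.div_rpow hy.le (by norm_num), Real.rpow_neg (by norm_num : (0:ℝ) ≤ 2),
          div_inv_eq_mul, mul_comm]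
      have h6 : (2:ℝ) ^ s ≤ 2 := by
        calc (2:ℝ) ^ s ≤ 2 ^ (1:ℝ) := Real.rpow_le_rpow_of_exponent_le (by norm_num) hs1
          _ = 2 := Real.rpow_one _
      rw [h5] at h4
      have h7 : 0 ≤ y ^ (-s) := by positivity
      exact h4.trans (mul_le_mul_of_nonneg_right h6 h7)
    have i1 : ((2:ℝ) ^ (Js n ρ aa ss e)) ^ (-(23/24) : ℝ) ≤
        2 * (((dS n aa ss e : ℝ) + 1) ^ (-(23/24) : ℝ) + ((ρ:ℝ) + 1) ^ (-(23/24) : ℝ)) := by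
      rcases le_total (dS n aa ss e) ρ with h3 | h3
      · rw [min_eq_left h3] at hJ
        have h4 : (dS n aa ss e : ℝ) + 1 ≤ 2 * (2:ℝ) ^ (Js n ρ aa ss e) := by
          have : dS n aa ss e + 1 ≤ 2 * 2 ^ (Js n ρ aa ss e) := by omega
          exact_mod_cast this
        have h5 := two (s := 23/24) (by positivity) h4 (by norm_num) (by norm_num)
        have h6 : 0 ≤ ((ρ:ℝ) + 1) ^ (-(23/24) : ℝ) := by positivity
        linarith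
      · rw [min_eq_right h3] at hJ
        have h4 : (ρ : ℝ) + 1 ≤ 2 * (2:ℝ) ^ (Js n ρ aa ss e) := by
          have : ρ + 1 ≤ 2 * 2 ^ (Js n ρ aa ss e) := by omega
          exact_mod_cast this
        have h5 := two (s := 23/24) (by positivity) h4 (by norm_num) (by norm_num)
        have h6 : 0 ≤ ((dS n aa ss e : ℝ) + 1) ^ (-(23/24) : ℝ) := by positivity
        linarith
    have i2 : (((ρ / 2 : ℕ) : ℝ) + 1) ^ (-(7/24) : ℝ) ≤ 2 * ((ρ:ℝ) + 1) ^ (-(7/24) : ℝ) := by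
      apply two (by positivity) _ (by norm_num) (by norm_num)
      have : ρ + 1 ≤ 2 * (ρ / 2 + 1) := by omega
      exact_mod_cast this
    have i3 : 0 ≤ ((dS n aa ss e : ℝ) + 1) ^ (-(23/24) : ℝ) := by positivity
    have i4 : 0 ≤ ((ρ:ℝ) + 1) ^ (-(23/24) : ℝ) := by positivity
    calc C * (((2:ℝ) ^ (Js n ρ aa ss e)) ^ (-(23/24) : ℝ) *
          (((ρ / 2 : ℕ) : ℝ) + 1) ^ (-(7/24) : ℝ))
        ≤ C * ((2 * (((dS n aa ss e : ℝ) + 1) ^ (-(23/24) : ℝ) + ((ρ:ℝ) + 1) ^ (-(23/24) : ℝ))) *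
          (2 * ((ρ:ℝ) + 1) ^ (-(7/24) : ℝ))) := by
          apply mul_le_mul_of_nonneg_left _ (by linarith)
          exact mul_le_mul i1 i2 (by positivity) (by positivity)
      _ = _ := by ring
  obtain ⟨W, hW⟩ : ∃ W : ℝ, W = ((n:ℝ) + 1) ^ (2:ℕ) * ((ρ:ℝ) + 1) ^ (-(5/4) : ℝ) := ⟨_, rfl⟩
  have hWZ : W ≤ 4 * Z := by
    rw [hW, hZ]
    have h2 : ((n:ℝ) + 1) ^ (2:ℕ) ≤ 4 * (n:ℝ) ^ 2 := by nlinarith
    have h3 : ((ρ:ℝ) + 1) ^ (-(5/4) : ℝ) ≤ (ρ:ℝ) ^ (-(5/4) : ℝ) :=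
      Real.rpow_le_rpow_of_nonpos hρ0 (by linarith) (by norm_num)
    calc ((n:ℝ) + 1) ^ (2:ℕ) * ((ρ:ℝ) + 1) ^ (-(5/4) : ℝ)
        ≤ (4 * (n:ℝ) ^ 2) * (ρ:ℝ) ^ (-(5/4) : ℝ) :=
          mul_le_mul h2 h3 (by positivity) (by positivity)
      _ = _ := by ring
  have hsum : ∀ κ aa ss : Bool, ∑ e ∈ RE 0 (n:ℤ) 0 n, P2 τ (RE 0 (n:ℤ) 0 n) (Ev n ρ κ aa ss e) ≤
      τ * (200 * C * W) := by
    intro κ aa ss
    refine (Finset.sum_le_sum (fun e he => hpt e he κ aa ss)).trans ?_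
    rw [← Finset.mul_sum, ← Finset.mul_sum, Finset.sum_add_distrib, ← Finset.sum_mul,
      Finset.sum_const, nsmul_eq_mul]
    apply mul_le_mul_of_nonneg_left _ h0
    have e1 : ((ρ:ℝ) + 1) ^ (-(23/24) : ℝ) * ((ρ:ℝ) + 1) ^ (-(7/24) : ℝ) =
        ((ρ:ℝ) + 1) ^ (-(5/4) : ℝ) := by
      rw [← Real.rpow_add (by positivity)]; norm_num
    have e2 : ((n:ℝ) + 1) ^ (25/24 : ℝ) ≤ ((n:ℝ) + 1) ^ (2:ℕ) * ((ρ:ℝ) + 1) ^ (-(23/24) : ℝ) := by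
      have e3 : ((n:ℝ) + 1) ^ (25/24 : ℝ) =
          ((n:ℝ) + 1) ^ (2:ℕ) * ((n:ℝ) + 1) ^ (-(23/24) : ℝ) := by
        rw [← Real.rpow_natCast, ← Real.rpow_add (by positivity)]; norm_num
      rw [e3]
      apply mul_le_mul_of_nonneg_left _ (by positivity)
      exact Real.rpow_le_rpow_of_nonpos (by positivity) (by linarith) (by norm_num)
    have e4 := sum_side n aa ss
    have e5 := card_S n
    have e6 : 0 ≤ ((ρ:ℝ) + 1) ^ (-(7/24) : ℝ) := by positivity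
    have e7 : 0 ≤ ((ρ:ℝ) + 1) ^ (-(5/4) : ℝ) := by positivity
    have e8 : (∑ e ∈ RE 0 (n:ℤ) 0 n, ((dS n aa ss e : ℝ) + 1) ^ (-(23/24) : ℝ)) *
        ((ρ:ℝ) + 1) ^ (-(7/24) : ℝ) ≤ 48 * W := by
      calc (∑ e ∈ RE 0 (n:ℤ) 0 n, ((dS n aa ss e : ℝ) + 1) ^ (-(23/24) : ℝ)) *
            ((ρ:ℝ) + 1) ^ (-(7/24) : ℝ)
          ≤ (48 * (((n:ℝ) + 1) ^ (2:ℕ) * ((ρ:ℝ) + 1) ^ (-(23/24) : ℝ))) *
            ((ρ:ℝ) + 1) ^ (-(7/24) : ℝ) :=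
            mul_le_mul_of_nonneg_right (e4.trans (by linarith)) e6
        _ = 48 * (((n:ℝ) + 1) ^ (2:ℕ) * (((ρ:ℝ) + 1) ^ (-(23/24) : ℝ) *
            ((ρ:ℝ) + 1) ^ (-(7/24) : ℝ))) := by ring
        _ = _ := by rw [e1, hW]
    have e9 : ((RE 0 (n:ℤ) 0 n).card : ℝ) * (((ρ:ℝ) + 1) ^ (-(23/24) : ℝ) *
        ((ρ:ℝ) + 1) ^ (-(7/24) : ℝ)) ≤ 2 * W := by
      rw [e1]
      calc ((RE 0 (n:ℤ) 0 n).card : ℝ) * ((ρ:ℝ) + 1) ^ (-(5/4) : ℝ)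
          ≤ (2 * ((n:ℝ) + 1) ^ 2) * ((ρ:ℝ) + 1) ^ (-(5/4) : ℝ) :=
            mul_le_mul_of_nonneg_right e5 e7
        _ = _ := by rw [hW]; ring
    have e10 : 0 ≤ 4 * C := by linarith
    calc 4 * C * ((∑ e ∈ RE 0 (n:ℤ) 0 n, ((dS n aa ss e : ℝ) + 1) ^ (-(23/24) : ℝ)) *
          ((ρ:ℝ) + 1) ^ (-(7/24) : ℝ) + ((RE 0 (n:ℤ) 0 n).card : ℝ) *
          (((ρ:ℝ) + 1) ^ (-(23/24) : ℝ) * ((ρ:ℝ) + 1) ^ (-(7/24) : ℝ)))
        ≤ 4 * C * (48 * W + 2 * W) := mul_le_mul_of_nonneg_left (add_le_add e8 e9) e10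
      _ = 200 * C * W := by ring
  have hu : P2 τ (RE 0 (n:ℤ) 0 n) (fun F Q => ¬ NB ρ F Q ∨ ¬ ND ρ F Q) ≤
      ∑ t : Bool × Bool × Bool, ∑ e ∈ RE 0 (n:ℤ) 0 n,
        P2 τ (RE 0 (n:ℤ) 0 n) (Ev n ρ t.1 t.2.1 t.2.2 e) := by
    refine (P2_mono h0 h1 (B := fun F Q => ∃ t ∈ (Finset.univ : Finset (Bool × Bool × Bool)),
      ∃ e ∈ RE 0 (n:ℤ) 0 n, Ev n ρ t.1 t.2.1 t.2.2 e F Q) ?_).trans
      ((P2_ex h0 h1 _ _ _).trans (Finset.sum_le_sum (fun t _ => P2_ex h0 h1 _ _ _)))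
    rintro F Q hF hQ (hb | hb)
    · obtain ⟨e, he, aa, ss, hE⟩ := ev_of_primal hF hQ hb
      exact ⟨(true, aa, ss), Finset.mem_univ _, e, he, hE⟩
    · obtain ⟨e, he, aa, ss, hE⟩ := ev_of_dual hF hQ hb
      exact ⟨(false, aa, ss), Finset.mem_univ _, e, he, hE⟩
  refine hu.trans ((Finset.sum_le_sum (fun t _ => hsum t.1 t.2.1 t.2.2)).trans ?_)
  rw [Finset.sum_const, Finset.card_univ, nsmul_eq_mul]
  have hcard : Fintype.card (Bool × Bool × Bool) = 8 := by simp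
  rw [hcard]
  push_cast
  have h9 : 0 ≤ 1 / ε * (τ * Z) := by positivity
  have h10 : τ * (200 * C * W) ≤ τ * (200 * C * (4 * Z)) :=
    mul_le_mul_of_nonneg_left (mul_le_mul_of_nonneg_left hWZ (by linarith)) h0
  calc 8 * (τ * (200 * C * W)) ≤ 8 * (τ * (200 * C * (4 * Z))) := by linarith
    _ = 6400 * C * (τ * Z) := by ring
    _ ≤ _ := by linarith

end Pool.Agent.H950.AD
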