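import Pool.Agent.H950.AD.Id
import Pool.Agent.H950.AD.Sum

/-!
Stability against defects.
-/

set_option autoImplicit false

namespace Pool.Agent.H950.AD

open H974 H12S H389NS H984N H984P H342P H443B Finset Q291.AD
open H342P.Plain (Largest sqDist cluster clusterEdges mem_cluster edges edges_eq prob_eq)
open Pool.Agent.Results.MP_6bd702_pr.DiameterGaps (diam diam_greatest RunnerUp diam_eq
  small_largest largest_le)

theorem Near.refl {n : ℕ} {r : ℝ} (hr : 0 ≤ r) (F : Finset Edg) (v : Vtx) : Near n r F v F v :=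
  ⟨fun c hc => ⟨c, hc, by rw [H342L.cdist_self]; exact hr⟩,
    fun c hc => ⟨c, hc, by rw [H342L.cdist_self]; exact hr⟩⟩

theorem card_E_le {n : ℕ} (hn : 1 ≤ n) : ((RE 0 (n:ℤ) 0 n).card : ℝ) ≤ 8 * (n:ℝ) ^ 2 := by
  have h1 : RE 0 (n:ℤ) 0 n ⊆ (Finset.Icc (0:ℤ) n) ×ˢ ((Finset.Icc (0:ℤ) n) ×ˢ
      (Finset.univ : Finset Bool)) := by
    intro e he
    have h := (pb_edge (Finset.Subset.refl (RE 0 (n:ℤ) 0 n)) he).1
    unfold inR src at h
    simp only at h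
    rw [Finset.mem_product, Finset.mem_product, Finset.mem_Icc, Finset.mem_Icc]
    exact ⟨h.1, h.2, Finset.mem_univ _⟩
  have h2 := Finset.card_le_card h1
  rw [Finset.card_product, Finset.card_product, Int.card_Icc] at h2
  have h3 : ((n:ℤ) + 1 - 0).toNat = n + 1 := by omega
  rw [h3] at h2
  have h4 : (Finset.univ : Finset Bool).card = 2 := rfl
  rw [h4] at h2
  have h5 : ((RE 0 (n:ℤ) 0 n).card : ℝ) ≤ (((n + 1) * ((n + 1) * 2) : ℕ) : ℝ) := by
    exact_mod_cast h2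
  push_cast at h5
  have h6 : (1:ℝ) ≤ n := by exact_mod_cast hn
  nlinarith

/-- **Stability of the outer boundary of the largest cluster against defects.** -/
theorem adv_bound : ∃ C c : ℝ, 0 < C ∧ 0 < c ∧ ∀ (n : ℕ) (τ r : ℝ), 1 ≤ n → 0 ≤ τ → τ ≤ 1 →
    0 < r → P2 τ (RE 0 n 0 n) (fun F Q => ∃ G v w, Adm F Q G ∧ Largest n F v ∧ Largest n G w ∧
      ¬ Near n r F v G w) ≤
      C * (τ * (n:ℝ) ^ (3/4 : ℝ) * r ^ (-(5/4) : ℝ) + (r + 1 / n) ^ c) := by
  obtain ⟨C2, c2, K2, hC2, hc2, hK2, hgap⟩ := Pool.Agent.Results.MP_6bd702_pr.DiameterGaps.result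
  obtain ⟨C3, hC3, hbad⟩ := bad_pr
  obtain ⟨c, hc⟩ : ∃ c, c = min c2 1 := ⟨_, rfl⟩
  have hc0 : 0 < c := by rw [hc]; exact lt_min hc2 one_pos
  have hcc2 : c ≤ c2 := by rw [hc]; exact min_le_left _ _
  have hc1 : c ≤ 1 := by rw [hc]; exact min_le_right _ _
  obtain ⟨B, hB⟩ : ∃ B : ℝ, B = (96:ℝ) ^ (5/4 : ℝ) := ⟨_, rfl⟩
  have hB0 : 0 < B := by rw [hB]; positivity
  refine ⟨C3 * B + 8 * B + C2 + 4, c, by positivity, hc0, ?_⟩
  intro n τ r hn h0 h1 hr
  have hn0 : (0:ℝ) < n := by exact_mod_cast hn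
  have hn1 : (1:ℝ) ≤ n := by exact_mod_cast hn
  obtain ⟨x, hx⟩ : ∃ x : ℝ, x = r + 1 / n := ⟨_, rfl⟩
  rw [← hx]
  have hxr : r ≤ x := by rw [hx]; have : 0 ≤ 1 / (n:ℝ) := by positivity
                         linarith
  have hx0 : 0 < x := by linarith
  obtain ⟨T, hT⟩ : ∃ T : ℝ, T = τ * (n:ℝ) ^ (3/4 : ℝ) * r ^ (-(5/4) : ℝ) := ⟨_, rfl⟩
  rw [← hT]
  have hT0 : 0 ≤ T := by rw [hT]; positivity
  have hP1 := P2_le_one h0 h1 (RE 0 (n:ℤ) 0 n) (fun F Q => ∃ G v w, Adm F Q G ∧ Largest n F v ∧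
    Largest n G w ∧ ¬ Near n r F v G w)
  by_cases hx1 : 1 ≤ x
  · have h2 : 1 ≤ x ^ c := Real.one_le_rpow hx1 hc0.le
    refine hP1.trans ?_
    have h3 : 1 * 1 ≤ (C3 * B + 8 * B + C2 + 4) * (T + x ^ c) := by
      apply mul_le_mul _ _ (by norm_num) (by positivity)
      · have : 0 < C3 * B := by positivity
        linarith
      · linarith
    linarith
  push Not at hx1
  have hxc : x ≤ x ^ c := by
    calc x = x ^ (1:ℝ) := (Real.rpow_one x).symm
      _ ≤ x ^ c := Real.rpow_le_rpow_of_exponent_ge hx0 hx1.le hc1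
  have hxc2 : x ^ c2 ≤ x ^ c := Real.rpow_le_rpow_of_exponent_ge hx0 hx1.le hcc2
  have hxc0 : 0 < x ^ c := by positivity
  have hCB : 0 < C3 * B := by positivity
  by_cases hrn : 48 ≤ r * n
  · -- large scales
    by_cases hr35 : 3/5 < r
    · refine hP1.trans ?_
      have h2 : 3/5 ≤ x ^ c := by linarith
      nlinarith
    push Not at hr35
    obtain ⟨ρ, hρ⟩ : ∃ ρ : ℕ, ρ = ⌊r * n / 48⌋₊ := ⟨_, rfl⟩
    have hρ1 : (ρ : ℝ) ≤ r * n / 48 := by rw [hρ]; exact Nat.floor_le (by positivity)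
    have hρ2 : r * n / 48 < ρ + 1 := by rw [hρ]; exact Nat.lt_floor_add_one _
    have hρ3 : 1 ≤ ρ := by
      rw [hρ]
      apply Nat.le_floor
      rw [Nat.cast_one]
      linarith
    have hρ4 : (1:ℝ) ≤ ρ := by exact_mod_cast hρ3
    have hρ5 : r * n / 96 ≤ ρ := by linarith
    have hρn : ρ ≤ n := by
      have : (ρ:ℝ) ≤ n := by nlinarith
      exact_mod_cast this
    have hr1 : r < 1 := by linarith
    -- the three events
    have e1 := hbad n ρ hρ3 hρn τ h0 h1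
    have e2 : P2 τ (RE 0 (n:ℤ) 0 n) (fun F _ => RunnerUp n (r * n) F) ≤ C2 * x ^ c := by
      rw [P2_open, ← prob_eq]
      refine ((hgap n r hn hr.le).2.2.2.1).trans ?_
      rw [← hx]
      exact mul_le_mul_of_nonneg_left hxc2 hC2.le
    have e3 : P2 τ (RE 0 (n:ℤ) 0 n) (fun F _ => ∃ v, Largest n F v ∧
        diam F v < 7/5 * (r/3 * n)) ≤ 2 * x ^ c := by
      rw [P2_open, ← prob_eq]
      refine (small_largest hn (by positivity) (by linarith) (by linarith)).trans ?_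
      linarith
    have e4 : P2 τ (RE 0 (n:ℤ) 0 n) (fun F Q => ∃ G v w, Adm F Q G ∧ Largest n F v ∧
        Largest n G w ∧ ¬ Near n r F v G w) ≤
        C3 * (τ * ((n:ℝ) ^ 2 * (ρ:ℝ) ^ (-(5/4) : ℝ))) + (C2 * x ^ c + 2 * x ^ c) := by
      refine le_trans ?_ (add_le_add e1 (add_le_add e2 e3))
      refine le_trans ?_ (add_le_add le_rfl (P2_or h0 h1 _ _ _))
      refine le_trans ?_ (P2_or h0 h1 _ _ _)
      apply P2_mono h0 h1
      rintro F Q hF hQ ⟨G, v, w, hG, hv, hw, hnear⟩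
      by_contra hcon
      push Not at hcon
      obtain ⟨⟨hNB, hND⟩, hrun, hsm⟩ := hcon
      apply hnear
      have hbig : 20 * (ρ:ℝ) ≤ diam F v := by
        have := hsm v hv
        nlinarith
      have hrun' : ¬ RunnerUp n (8 * ρ) F := by
        rintro ⟨v', hv', w', hw', h3, h4⟩
        apply hrun
        refine ⟨v', hv', w', hw', h3, ?_⟩
        linarith
      refine (near_largest hF hQ hρ3 hNB hND hG hv hw hrun' hbig).mono ?_
      rw [div_le_iff₀ hn0]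
      linarith
    refine e4.trans ?_
    have e5 : τ * ((n:ℝ) ^ 2 * (ρ:ℝ) ^ (-(5/4) : ℝ)) ≤ B * T := by
      have k1 : (ρ:ℝ) ^ (-(5/4) : ℝ) ≤ (r * n / 96) ^ (-(5/4) : ℝ) :=
        Real.rpow_le_rpow_of_nonpos (by positivity) hρ5 (by norm_num)
      have k2 : (r * n / 96) ^ (-(5/4) : ℝ) = B * (r ^ (-(5/4) : ℝ) * (n:ℝ) ^ (-(5/4) : ℝ)) := by
        rw [Real.div_rpow (by positivity) (by norm_num), Real.mul_rpow hr.le hn0.le, hB,
          Real.rpow_neg (by norm_num : (0:ℝ) ≤ 96), div_inv_eq_mul]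
        ring
      have k3 : (n:ℝ) ^ 2 * (n:ℝ) ^ (-(5/4) : ℝ) = (n:ℝ) ^ (3/4 : ℝ) := by
        rw [← Real.rpow_natCast, ← Real.rpow_add hn0]
        norm_num
      calc τ * ((n:ℝ) ^ 2 * (ρ:ℝ) ^ (-(5/4) : ℝ))
          ≤ τ * ((n:ℝ) ^ 2 * (r * n / 96) ^ (-(5/4) : ℝ)) := by
            apply mul_le_mul_of_nonneg_left _ h0
            exact mul_le_mul_of_nonneg_left k1 (by positivity)
        _ = B * (τ * ((n:ℝ) ^ 2 * (n:ℝ) ^ (-(5/4) : ℝ)) * r ^ (-(5/4) : ℝ)) := by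
            rw [k2]; ring
        _ = B * T := by rw [k3, hT]
    have e6 := mul_le_mul_of_nonneg_left e5 hC3.le
    nlinarith
  · -- small scales
    push Not at hrn
    have e1 : P2 τ (RE 0 (n:ℤ) 0 n) (fun _ Q => ∃ e ∈ RE 0 (n:ℤ) 0 n, e ∈ Q) ≤
        8 * (n:ℝ) ^ 2 * τ := by
      refine (P2_ex h0 h1 _ _ _).trans ?_
      rw [Finset.sum_congr rfl (fun e he => P2_mem τ he), Finset.sum_const, nsmul_eq_mul]
      exact mul_le_mul_of_nonneg_right (card_E_le hn) h0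
    have e2 : P2 τ (RE 0 (n:ℤ) 0 n) (fun F _ => RunnerUp n (r * n) F) ≤ C2 * x ^ c := by
      rw [P2_open, ← prob_eq]
      refine ((hgap n r hn hr.le).2.2.2.1).trans ?_
      rw [← hx]
      exact mul_le_mul_of_nonneg_left hxc2 hC2.le
    have e3 : P2 τ (RE 0 (n:ℤ) 0 n) (fun F Q => ∃ G v w, Adm F Q G ∧ Largest n F v ∧
        Largest n G w ∧ ¬ Near n r F v G w) ≤ 8 * (n:ℝ) ^ 2 * τ + C2 * x ^ c := by
      refine le_trans ?_ (add_le_add e1 e2)
      refine le_trans ?_ (P2_or h0 h1 _ _ _)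
      apply P2_mono h0 h1
      rintro F Q hF hQ ⟨G, v, w, hG, hv, hw, hnear⟩
      by_contra hcon
      push Not at hcon
      obtain ⟨hQ0, hrun⟩ := hcon
      have hQe : ∀ e, e ∉ Q := fun e he => hQ0 e (hQ he) he
      have hGF : G = F := by
        ext e
        exact hG e (hQe e)
      rw [hGF] at hw hnear
      by_cases hwv : w ∈ cluster F v
      · exact hnear ((Near.refl hr.le F v).base (self_cluster F v) (mem_cluster_comm hwv))
      · apply hrun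
        refine ⟨v, hv, w, hw.1, hwv, ?_⟩
        have h2 := largest_le (by rw [edges_eq]; exact hF) hw hv.1
        have h3 : 0 < r * n := by positivity
        linarith
    refine e3.trans ?_
    have e5 : 8 * (n:ℝ) ^ 2 * τ ≤ 8 * B * T := by
      have k1 : (96:ℝ) ^ (-(5/4) : ℝ) ≤ (r * n) ^ (-(5/4) : ℝ) :=
        Real.rpow_le_rpow_of_nonpos (by positivity) (by linarith) (by norm_num)
      have k2 : 1 ≤ B * (r * n) ^ (-(5/4) : ℝ) := by
        have : (1:ℝ) = B * (96:ℝ) ^ (-(5/4) : ℝ) := by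
          rw [hB, ← Real.rpow_add (by norm_num)]
          norm_num
        rw [this]
        exact mul_le_mul_of_nonneg_left k1 hB0.le
      have k3 : (n:ℝ) ^ 2 * (n:ℝ) ^ (-(5/4) : ℝ) = (n:ℝ) ^ (3/4 : ℝ) := by
        rw [← Real.rpow_natCast, ← Real.rpow_add hn0]
        norm_num
      rw [Real.mul_rpow hr.le hn0.le] at k2
      have k4 : 8 * (n:ℝ) ^ 2 * τ * 1 ≤
          8 * (n:ℝ) ^ 2 * τ * (B * (r ^ (-(5/4) : ℝ) * (n:ℝ) ^ (-(5/4) : ℝ))) :=
        mul_le_mul_of_nonneg_left k2 (by positivity)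
      have k5 : 8 * (n:ℝ) ^ 2 * τ * (B * (r ^ (-(5/4) : ℝ) * (n:ℝ) ^ (-(5/4) : ℝ))) =
          8 * B * T := by
        rw [hT, ← k3]; ring
      linarith
    nlinarith

end Pool.Agent.H950.AD
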