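import Pool.Agent.H950.AD.Det

/-!
The probability that a given edge of the box is a defect with four arms for some states of the
defects.
-/

set_option autoImplicit false

namespace Pool.Agent.H950.AD

open H974 Finset H12S Q291.EP Q291.NL H342P H984P H984N Q291.AD

/-- The box as a domain. -/
def DB (n : ℕ) : Dm := ⟨0, n, n, 0⟩

theorem DB_edges (n : ℕ) : (DB n).edges = RE 0 n 0 n := rfl

/-- The coordinate of a side. -/
def sX (n : ℕ) (ss : Bool) : ℤ := if ss then n else 0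

/-- The distance to a side. -/
def dS (n : ℕ) (aa ss : Bool) (e : Edg) : ℕ := (co aa (src e) - sX n ss).natAbs

/-- The scale. -/
def Js (n ρ : ℕ) (aa ss : Bool) (e : Edg) : ℕ := Nat.log 2 (min (dS n aa ss e) ρ + 4)

/-- The edge `e` is a defect with arms. -/
def Ev (n ρ : ℕ) (κ aa ss : Bool) (e : Edg) (F Q : Finset Edg) : Prop :=
  e ∈ Q ∧ ∃ G, Adm F Q G ∧
    (4 ≤ Js n ρ aa ss e → Ins (DB n) e (2 ^ (Js n ρ aa ss e - 2)) ∧
      A4e (2 ^ (Js n ρ aa ss e - 2)) (ce κ e) (↑(cf κ (DB n).edges G) : Set Edg)) ∧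
    (8 * 2 ^ (Js n ρ aa ss e) < ρ / 2 →
      Cr (zl aa (sX n ss) e) (8 * 2 ^ (Js n ρ aa ss e)) (ρ / 2)
        (↑(cf κ (DB n).edges G ∩ cS κ (Th (DB n) aa ss (sX n ss))) : Set Edg))

/-- The bound for one edge. -/
theorem ev_pr : ∃ C ε : ℝ, 1 ≤ C ∧ 0 < ε ∧ ∀ (n ρ : ℕ), 1 ≤ ρ → ρ ≤ n → ∀ τ : ℝ, 0 ≤ τ → τ ≤ 1 →
    τ ≤ ε * (n:ℝ) ^ (-(3/4) : ℝ) → ∀ e ∈ RE 0 (n:ℤ) 0 n, ∀ κ aa ss : Bool,
      P2 τ (RE 0 (n:ℤ) 0 n) (Ev n ρ κ aa ss e) ≤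
        τ * (C * (((2:ℝ) ^ (Js n ρ aa ss e)) ^ (-(23/24) : ℝ) *
          (((ρ / 2 : ℕ) : ℝ) + 1) ^ (-(7/24) : ℝ))) := by
  obtain ⟨C, ε1, hC, hε1, hhp⟩ := hp_all
  obtain ⟨C0, c0, hC0, hc0, hst⟩ := fourD
  refine ⟨(64 * C0) * (16 * C), min ε1 (c0 * (8:ℝ) ^ (-(3/4) : ℝ)), ?_,
    lt_min hε1 (by positivity), ?_⟩
  · nlinarith
  intro n ρ hρ hρn τ h0 h1 hη e he κ aa ss
  rw [← DB_edges] at he ⊢
  obtain ⟨J, hJ⟩ : ∃ J, J = Js n ρ aa ss e := ⟨_, rfl⟩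
  obtain ⟨R, hR⟩ : ∃ R, R = ρ / 2 := ⟨_, rfl⟩
  have hn1 : 1 ≤ n := hρ.trans hρn
  have hn0 : (0:ℝ) < n := by exact_mod_cast hn1
  have hC00 : (0:ℝ) < C0 := by linarith
  have hx : (0:ℝ) < 2 ^ J := by positivity
  have hR1 : (0:ℝ) < (R : ℝ) + 1 := by positivity
  have hJ1 : 2 ^ J ≤ min (dS n aa ss e) ρ + 4 := by
    rw [hJ]; exact Nat.pow_log_le_self 2 (by omega)
  have hJ2 : min (dS n aa ss e) ρ + 4 < 2 ^ (J + 1) := by
    rw [hJ]; exact Nat.lt_pow_succ_log_self (by norm_num) _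
  have hJ3 : 2 ^ (J + 1) = 2 * 2 ^ J := by rw [pow_succ]; ring
  have hJn : 2 ^ J ≤ 8 * n := by omega
  have hRn : R ≤ n := by omega
  have hid : ((2:ℝ) ^ J) ^ (-(5/4) : ℝ) * ((2:ℝ) ^ J / ((R : ℝ) + 1)) ^ (7/24 : ℝ) =
      ((2:ℝ) ^ J) ^ (-(23/24) : ℝ) * ((R : ℝ) + 1) ^ (-(7/24) : ℝ) := by
    have hinv : ((R : ℝ) + 1) ^ (-(7/24) : ℝ) = (((R : ℝ) + 1) ^ (7/24 : ℝ))⁻¹ :=
      Real.rpow_neg hR1.le _
    have hx2 : ((2:ℝ) ^ J) ^ (-(5/4) : ℝ) * ((2:ℝ) ^ J) ^ (7/24 : ℝ) =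
        ((2:ℝ) ^ J) ^ (-(23/24) : ℝ) := by
      rw [← Real.rpow_add hx]; norm_num
    rw [Real.div_rpow hx.le hR1.le, hinv, ← hx2]
    ring
  have hnp : 0 ≤ (n:ℝ) ^ (-(3/4) : ℝ) := by positivity
  have hη1 : τ ≤ ε1 * (n:ℝ) ^ (-(3/4) : ℝ) :=
    hη.trans (mul_le_mul_of_nonneg_right (min_le_left _ _) hnp)
  have hη2 : τ ≤ c0 * ((8 * n : ℕ) : ℝ) ^ (-(3/4) : ℝ) := by
    refine (hη.trans (mul_le_mul_of_nonneg_right (min_le_right _ _) hnp)).trans (le_of_eq ?_)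
    push_cast
    rw [Real.mul_rpow (by norm_num) hn0.le]
    ring
  have hA4 := hst τ h0 h1 (8 * n) (by omega) hη2
  have hl3 := mem_loc e (DB n).edges
  have hmem : P2 τ (DB n).edges (fun _ Q => e ∈ Q) = τ := P2_mem τ he
  have hne : 8 * 2 ^ J < R → |co aa (src e) - sX n ss| ≤ 2 ^ (J + 1) := by
    intro h
    have h2 : dS n aa ss e ≤ 2 ^ (J + 1) := by
      rcases Nat.lt_or_ge (dS n aa ss e) ρ with h3 | h3
      · rw [min_eq_left h3.le] at hJ2; omega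
      · rw [min_eq_right h3] at hJ2; omega
    unfold dS at h2
    rw [Int.abs_eq_natAbs]
    exact_mod_cast h2
  -- the defect and the crossing
  have hone : 8 * 2 ^ J < R → P2 τ (DB n).edges (fun F Q => e ∈ Q ∧
      CrD (DB n) aa ss κ (sX n ss) (zl aa (sX n ss) e) (8 * 2 ^ J) R F Q) ≤
      τ * (C * (((8 * 2 ^ J : ℕ) : ℝ) / (R : ℕ)) ^ (7/24 : ℝ)) := by
    intro hR'
    have hJp : 1 ≤ 2 ^ J := Nat.one_le_two_pow
    have h2 := crD_pr (κ := κ) (ss := ss) hhp h0 h1 (D := DB n) (co_zl aa (sX n ss) e) hη1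
      (r0 := 8 * 2 ^ J) (by omega) hR'.le hRn
    have hd : Disjoint ({e} : Finset Edg) (ics κ (bx (zl aa (sX n ss) e) R) \
        ics κ (bx (zl aa (sX n ss) e) (8 * 2 ^ J))) := by
      rw [Finset.disjoint_singleton_left, Finset.mem_sdiff]
      exact fun h => h.2 (e_in_box (hne hR'))
    exact (P2_two h0 h1 hd hl3 (crD_loc hR'.le) hmem.le).trans (mul_le_mul_of_nonneg_left h2 h0)
  have hkJ : 4 ≤ J → 2 ^ (J - 2) + 4 ≤ 2 ^ (J + 1) ∧ 1 ≤ 2 ^ (J - 2) ∧ 2 ^ (J - 2) ≤ 8 * n := by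
    intro h
    have h1 : J + 1 = (J - 2) + 3 := by omega
    have h2 : 1 ≤ 2 ^ (J - 2) := Nat.one_le_two_pow
    have h3 : J = (J - 2) + 2 := by omega
    have h4 : 2 ^ J = 4 * 2 ^ (J - 2) := by
      conv_lhs => rw [h3, pow_add]
      ring
    refine ⟨?_, h2, by omega⟩
    rw [h1, pow_add]
    omega
  have key : ∃ α β : ℝ, 0 ≤ α ∧ P2 τ (DB n).edges (Ev n ρ κ aa ss e) ≤
      τ * (α * β) ∧ ((4 ≤ J ∧ α ≤ C0 * (((2 ^ (J - 2) : ℕ) : ℝ) + 1) ^ (-(5/4) : ℝ)) ∨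
        (J < 4 ∧ α ≤ 1)) ∧ ((8 * 2 ^ J < R ∧
          β ≤ C * (((8 * 2 ^ J : ℕ) : ℝ) / (R : ℕ)) ^ (7/24 : ℝ)) ∨
      (R ≤ 8 * 2 ^ J ∧ β ≤ 1)) := by
    unfold Ev
    rw [← hJ, ← hR]
    rcases Nat.lt_or_ge J 4 with hJ4 | hJ4
    · rcases Nat.lt_or_ge (8 * 2 ^ J) R with hR' | hR'
      · refine ⟨1, _, by norm_num, ?_, Or.inr ⟨hJ4, le_rfl⟩, Or.inl ⟨hR', le_rfl⟩⟩
        rw [one_mul]
        refine (P2_mono h0 h1 ?_).trans (hone hR')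
        rintro F Q hF hQ ⟨heQ, G, hG, -, hA⟩
        exact ⟨heQ, crD_of hF hQ hG (hA hR')⟩
      · refine ⟨1, 1, by norm_num, ?_, Or.inr ⟨hJ4, le_rfl⟩, Or.inr ⟨hR', le_rfl⟩⟩
        rw [one_mul, mul_one]
        exact (P2_mono h0 h1 (fun F Q _ _ h => h.1)).trans hmem.le
    · obtain ⟨k1, k2, k3⟩ := hkJ hJ4
      have hQFJ := hA4 (2 ^ (J - 2)) k3
      obtain ⟨α, hα⟩ : ∃ α : ℝ, α = C0 * (((2 ^ (J - 2) : ℕ) : ℝ) + 1) ^ (-(5/4) : ℝ) := ⟨_, rfl⟩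
      have hα0 : 0 ≤ α := by rw [hα]; positivity
      by_cases hins : Ins (DB n) e (2 ^ (J - 2))
      swap
      · refine ⟨0, 0, le_rfl, ?_, Or.inl ⟨hJ4, by positivity⟩, ?_⟩
        · rw [P2_false _ (fun F Q _ _ h => by
            obtain ⟨-, G, -, hA, -⟩ := h
            exact hins (hA hJ4).1)]
          simp
        · rcases Nat.lt_or_ge (8 * 2 ^ J) R with hR' | hR'
          · exact Or.inl ⟨hR', by positivity⟩
          · exact Or.inr ⟨hR', by norm_num⟩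
      have ha := a4C_pr (D := DB n) (κ := κ) hQFJ hins
      rw [← hα] at ha
      have hla := a4C_loc (DB n) κ (2 ^ (J - 2)) e
      rcases Nat.lt_or_ge (8 * 2 ^ J) R with hR' | hR'
      · refine ⟨α, _, hα0, ?_, Or.inl ⟨hJ4, hα.le⟩, Or.inl ⟨hR', le_rfl⟩⟩
        have hd : Disjoint ((ics κ (ebx (ce κ e) (2 ^ (J - 2)))).erase e)
            ({e} ∪ (ics κ (bx (zl aa (sX n ss) e) R) \
              ics κ (bx (zl aa (sX n ss) e) (8 * 2 ^ J)))) := by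
          rw [Finset.disjoint_union_right]
          refine ⟨Finset.disjoint_singleton_right.mpr (Finset.notMem_erase _ _), ?_⟩
          rw [Finset.disjoint_left]
          intro g hg hg'
          exact (Finset.mem_sdiff.mp hg').2 (in_box (hne hR') k1 (Finset.mem_erase.mp hg).2)
        have h2 : P2 τ (DB n).edges (fun F Q => e ∈ Q ∧ ∃ G, Adm F Q G ∧
            (4 ≤ J → Ins (DB n) e (2 ^ (J - 2)) ∧
              A4e (2 ^ (J - 2)) (ce κ e) (↑(cf κ (DB n).edges G) : Set Edg)) ∧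
            (8 * 2 ^ J < R → Cr (zl aa (sX n ss) e) (8 * 2 ^ J) R
              (↑(cf κ (DB n).edges G ∩ cS κ (Th (DB n) aa ss (sX n ss))) : Set Edg))) ≤
            P2 τ (DB n).edges (fun F Q => A4C (DB n) κ (2 ^ (J - 2)) e F Q ∧ (e ∈ Q ∧
              CrD (DB n) aa ss κ (sX n ss) (zl aa (sX n ss) e) (8 * 2 ^ J) R F Q)) := by
          apply P2_mono h0 h1
          rintro F Q hF hQ ⟨heQ, G, hG, hA, hB⟩
          exact ⟨a4C_of hF hQ hG (hA hJ4).2, heQ, crD_of hF hQ hG (hB hR')⟩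
        have h3 := P2_two h0 h1 hd hla (hl3.and (crD_loc (D := DB n) (aa := aa) (ss := ss)
          (κ := κ) (X := sX n ss) (z := zl aa (sX n ss) e) hR'.le)) ha
        refine h2.trans (h3.trans ((mul_le_mul_of_nonneg_left (hone hR') hα0).trans
          (le_of_eq ?_)))
        ring
      · refine ⟨α, 1, hα0, ?_, Or.inl ⟨hJ4, hα.le⟩, Or.inr ⟨hR', le_rfl⟩⟩
        have hd : Disjoint ((ics κ (ebx (ce κ e) (2 ^ (J - 2)))).erase e) {e} :=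
          Finset.disjoint_singleton_right.mpr (Finset.notMem_erase _ _)
        have h2 : P2 τ (DB n).edges (fun F Q => e ∈ Q ∧ ∃ G, Adm F Q G ∧
            (4 ≤ J → Ins (DB n) e (2 ^ (J - 2)) ∧
              A4e (2 ^ (J - 2)) (ce κ e) (↑(cf κ (DB n).edges G) : Set Edg)) ∧
            (8 * 2 ^ J < R → Cr (zl aa (sX n ss) e) (8 * 2 ^ J) R
              (↑(cf κ (DB n).edges G ∩ cS κ (Th (DB n) aa ss (sX n ss))) : Set Edg))) ≤
            P2 τ (DB n).edges (fun F Q => A4C (DB n) κ (2 ^ (J - 2)) e F Q ∧ e ∈ Q) := by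
          apply P2_mono h0 h1
          rintro F Q hF hQ ⟨heQ, G, hG, hA, hB⟩
          exact ⟨a4C_of hF hQ hG (hA hJ4).2, heQ⟩
        have h3 := P2_two h0 h1 hd hla hl3 ha
        rw [hmem] at h3
        refine h2.trans (h3.trans (le_of_eq ?_))
        ring
  obtain ⟨α, β, hα0, hP, hα, hβ⟩ := key
  have h2 := alpha_le hC0 hα
  have h3 := beta_le hC hβ
  rw [← hJ, ← hR]
  refine hP.trans (mul_le_mul_of_nonneg_left ?_ h0)
  have h4 : 0 ≤ 16 * C * ((2:ℝ) ^ J / ((R : ℝ) + 1)) ^ (7/24 : ℝ) := by positivity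
  calc α * β ≤ α * (16 * C * ((2:ℝ) ^ J / ((R : ℝ) + 1)) ^ (7/24 : ℝ)) :=
        mul_le_mul_of_nonneg_left h3 hα0
    _ ≤ (64 * C0 * ((2:ℝ) ^ J) ^ (-(5/4) : ℝ)) *
        (16 * C * ((2:ℝ) ^ J / ((R : ℝ) + 1)) ^ (7/24 : ℝ)) :=
        mul_le_mul_of_nonneg_right h2 h4
    _ = (64 * C0) * (16 * C) * (((2:ℝ) ^ J) ^ (-(5/4) : ℝ) *
        ((2:ℝ) ^ J / ((R : ℝ) + 1)) ^ (7/24 : ℝ)) := by ring
    _ = _ := by rw [hid]

end Pool.Agent.H950.AD
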