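import Pool.Agent.H950.AD.Arm

/-!
Long arms around a defect imply the events of `Arm.lean`.
-/

set_option autoImplicit false

namespace Pool.Agent.H950.AD

open H974 Finset H12S Q291.EP Q291.NL H342P H984P H984N Q291.AD
open Pool.Agent.N116.EW (sd_comm' sd_tri)

variable {n ρ : ℕ}

/-! ### Faces outside of the box -/

theorem face_col {x : ℤ} (hx : x < 0 ∨ (n:ℤ) ≤ x) (y y' : ℤ) :
    DReach (↑(RE 0 (n:ℤ) 0 n) : Set Edg)ᶜ (x, y) (x, y') := by
  have key : ∀ y y' : ℤ, y ≤ y' → DReach (↑(RE 0 (n:ℤ) 0 n) : Set Edg)ᶜ (x, y') (x, y) := by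
    intro y y' h
    obtain ⟨k, hk⟩ := Int.eq_ofNat_of_zero_le (sub_nonneg.mpr h)
    have e : y' = y + k := by omega
    rw [e]
    refine P17.dcol _ x y k ?_
    intro i _ _ h3
    have h4 : ((x, i, true) : Edg) ∈ RE 0 (n:ℤ) 0 n := by exact_mod_cast h3
    rw [mem_RE_true] at h4
    omega
  rcases le_total y y' with h | h
  · exact (key y y' h).symm
  · exact key y' y h

theorem face_row {y : ℤ} (hy : y < 0 ∨ (n:ℤ) ≤ y) (x x' : ℤ) :
    DReach (↑(RE 0 (n:ℤ) 0 n) : Set Edg)ᶜ (x, y) (x', y) := by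
  have key : ∀ x x' : ℤ, x ≤ x' → DReach (↑(RE 0 (n:ℤ) 0 n) : Set Edg)ᶜ (x', y) (x, y) := by
    intro x x' h
    obtain ⟨k, hk⟩ := Int.eq_ofNat_of_zero_le (sub_nonneg.mpr h)
    have e : x' = x + k := by omega
    rw [e]
    refine P17.drow _ y x k ?_
    intro i _ _ h3
    have h4 : ((i, y, false) : Edg) ∈ RE 0 (n:ℤ) 0 n := by exact_mod_cast h3
    rw [mem_RE_false] at h4
    omega
  rcases le_total x x' with h | h
  · exact (key x x' h).symm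
  · exact key x' x h

theorem face_out {x y : ℤ} (h : (x < 0 ∨ (n:ℤ) ≤ x) ∨ (y < 0 ∨ (n:ℤ) ≤ y)) :
    DReach (↑(RE 0 (n:ℤ) 0 n) : Set Edg)ᶜ (x, y) (-1, -1) := by
  rcases h with h | h
  · exact (face_col h y (-1)).trans (face_row (Or.inl (by norm_num)) x (-1))
  · exact (face_row h x (-1)).trans (face_col (Or.inl (by norm_num)) y (-1))

theorem edge_out {g : Edg} (hg : g ∉ RE 0 (n:ℤ) 0 n) :
    DReach (↑(RE 0 (n:ℤ) 0 n) : Set Edg)ᶜ (dsrc g) (-1, -1) ∧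
      DReach (↑(RE 0 (n:ℤ) 0 n) : Set Edg)ᶜ (dtgt g) (-1, -1) := by
  obtain ⟨x, y, _ | _⟩ := g
  · rw [mem_RE_false] at hg
    rw [dsrc_false]
    exact ⟨face_out (by omega), face_out (x := x) (y := y) (by omega)⟩
  · rw [mem_RE_true] at hg
    rw [dsrc_true]
    exact ⟨face_out (by omega), face_out (x := x) (y := y) (by omega)⟩

/-- A dual path which is not connected to the outside uses edges of the box only. -/
theorem dual_in {H : Finset Edg} (hH : H ⊆ RE 0 (n:ℤ) 0 n) {f a : Vtx}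
    (hf : ¬ DReach (↑H : Set Edg)ᶜ f (-1, -1)) (h : DReach (↑H : Set Edg)ᶜ f a) :
    DReach (↑(RE 0 (n:ℤ) 0 n \ H) : Set Edg) f a := by
  have hsub : (↑(RE 0 (n:ℤ) 0 n) : Set Edg)ᶜ ⊆ (↑H : Set Edg)ᶜ :=
    Set.compl_subset_compl.2 (by exact_mod_cast hH)
  have key : ∀ z, DReach (↑H : Set Edg)ᶜ f z → DReach (↑H : Set Edg)ᶜ f z ∧
      DReach (↑(RE 0 (n:ℤ) 0 n \ H) : Set Edg) f z := by
    intro z hz
    induction hz with
    | refl => exact ⟨DReach.refl _ _, DReach.refl _ _⟩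
    | @tail w z _ hs ih =>
      obtain ⟨g, hg, hc⟩ := hs
      have hadj : DAdj (↑H : Set Edg)ᶜ w z := ⟨g, hg, hc⟩
      have hgS : g ∈ RE 0 (n:ℤ) 0 n := by
        by_contra hgS
        obtain ⟨h1, h2⟩ := edge_out hgS
        apply hf
        rcases hc with ⟨h3, -⟩ | ⟨-, h3⟩
        · rw [h3] at h1
          exact ih.1.trans (h1.mono hsub)
        · rw [h3] at h2
          exact ih.1.trans (h2.mono hsub)
      have hgH : g ∉ H := fun h => hg (by exact_mod_cast h)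
      refine ⟨ih.1.trans hadj.reach, ih.2.trans (DAdj.reach ⟨g, ?_, hc⟩)⟩
      exact_mod_cast Finset.mem_sdiff.2 ⟨hgS, hgH⟩
  exact (key a h).2

/-! ### Four arms in a box -/

theorem A4e_of {X : Set Edg} {e : Edg} {k : ℕ} (hk : 1 ≤ k) (he : e ∉ X)
    (hn : ¬ Reach X (src e) (tgt e)) {a b : Vtx} (ha : Reach X (src e) a) (hb : Reach X (tgt e) b)
    (ha' : (k:ℤ) + 1 ≤ sd (src e) a) (hb' : (k:ℤ) + 1 ≤ sd (tgt e) b) : A4e k e X := by
  rw [A4e_def]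
  have hsub : X ∩ ↑(RE (e.1 - k) (e.1 + k) (e.2.1 - k) (e.2.1 + k)) ⊆ cfe e k X := by
    rintro g ⟨h1, h2⟩
    refine ⟨⟨h1, h2⟩, ?_⟩
    rintro rfl
    exact he h1
  have hsub2 : cfe e k X ⊆ X := fun g hg => hg.1.1
  have hs : inR (e.1 - k) (e.1 + k) (e.2.1 - k) (e.2.1 + k) (src e) := by
    unfold inR src; simp only; omega
  have ht : inR (e.1 - k) (e.1 + k) (e.2.1 - k) (e.2.1 + k) (tgt e) := by
    obtain ⟨x, y, _ | _⟩ := e
    · rw [tgt_false]; unfold inR; simp only; omega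
    · rw [tgt_true]; unfold inR; simp only; omega
  refine ⟨?_, ?_, fun h => hn (h.mono hsub2)⟩
  · have hout : a.1 ≤ e.1 - k ∨ e.1 + k ≤ a.1 ∨ a.2 ≤ e.2.1 - k ∨ e.2.1 + k ≤ a.2 := by
      unfold sd src at ha'
      rw [le_max_iff, le_abs, le_abs] at ha'
      simp only at ha'
      omega
    obtain ⟨w, h1, h2, h3⟩ := first_exit hs ha hout
    exact ⟨w, ⟨h1, h2⟩, h3.mono hsub⟩
  · have hout : b.1 ≤ e.1 - k ∨ e.1 + k ≤ b.1 ∨ b.2 ≤ e.2.1 - k ∨ e.2.1 + k ≤ b.2 := by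
      unfold sd at hb'
      rw [le_max_iff, le_abs, le_abs] at hb'
      obtain ⟨x, y, _ | _⟩ := e
      · rw [tgt_false] at hb'; simp only at hb' ⊢; omega
      · rw [tgt_true] at hb'; simp only at hb' ⊢; omega
    obtain ⟨w, h1, h2, h3⟩ := first_exit ht hb hout
    exact ⟨w, ⟨h1, h2⟩, h3.mono hsub⟩

/-! ### The side -/

theorem hpl_box {v : Vtx} (hv : inR 0 (n:ℤ) 0 n v) (aa ss : Bool) : hpl aa ss (sX n ss) v := by
  unfold inR at hv
  cases aa <;> cases ss <;> simp only [hpl, sX, Bool.false_eq_true, if_false, if_true] <;> omega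

theorem Th_box (aa ss : Bool) : Th (DB n) aa ss (sX n ss) = RE 0 (n:ℤ) 0 n := by
  ext g
  rw [mem_Th, DB_edges]
  constructor
  · exact fun h => h.1
  · intro h
    have h2 := pb_edge (Finset.Subset.refl (RE 0 (n:ℤ) 0 n)) h
    exact ⟨h, hpl_box h2.1 aa ss, hpl_box h2.2 aa ss⟩

/-- The nearest side. -/
theorem near_side {e : Edg} (he : e ∈ RE 0 (n:ℤ) 0 n) : ∃ aa ss : Bool, ∀ d : ℕ,
    d ≤ dS n aa ss e → (d:ℤ) ≤ e.1 ∧ (d:ℤ) ≤ n - e.1 ∧ (d:ℤ) ≤ e.2.1 ∧ (d:ℤ) ≤ n - e.2.1 := by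
  have h := (pb_edge (Finset.Subset.refl (RE 0 (n:ℤ) 0 n)) he).1
  unfold inR at h
  have hs : src e = (e.1, e.2.1) := rfl
  rw [hs] at h
  simp only at h
  obtain ⟨m, hm⟩ : ∃ m, m = min (min e.1 (n - e.1)) (min e.2.1 (n - e.2.1)) := ⟨_, rfl⟩
  have h1 : m = e.1 ∨ m = n - e.1 ∨ m = e.2.1 ∨ m = n - e.2.1 := by omega
  have hd : ∀ aa ss : Bool, (dS n aa ss e : ℤ) = |co aa (src e) - sX n ss| := by
    intro aa ss
    unfold dS
    rw [Int.abs_eq_natAbs]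
  rcases h1 with h1 | h1 | h1 | h1
  · refine ⟨true, false, fun d hd' => ?_⟩
    have h2 := hd true false
    simp only [co, sX, hs, if_true, Bool.false_eq_true, if_false] at h2
    rw [abs_of_nonneg (by omega)] at h2
    omega
  · refine ⟨true, true, fun d hd' => ?_⟩
    have h2 := hd true true
    simp only [co, sX, hs, if_true] at h2
    rw [abs_of_nonpos (by omega)] at h2
    omega
  · refine ⟨false, false, fun d hd' => ?_⟩
    have h2 := hd false false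
    simp only [co, sX, hs, Bool.false_eq_true, if_false] at h2
    rw [abs_of_nonneg (by omega)] at h2
    omega
  · refine ⟨false, true, fun d hd' => ?_⟩
    have h2 := hd false true
    simp only [co, sX, hs, Bool.false_eq_true, if_false, if_true] at h2
    rw [abs_of_nonpos (by omega)] at h2
    omega

theorem scale_facts (n ρ : ℕ) (aa ss : Bool) (e : Edg) :
    2 ^ (Js n ρ aa ss e) ≤ min (dS n aa ss e) ρ + 4 ∧
      min (dS n aa ss e) ρ + 4 < 2 * 2 ^ (Js n ρ aa ss e) := by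
  refine ⟨Nat.pow_log_le_self 2 (by omega), ?_⟩
  have := Nat.lt_pow_succ_log_self (b := 2) (by norm_num) (min (dS n aa ss e) ρ + 4)
  rw [pow_succ] at this
  unfold Js
  omega

theorem pow_sub {J : ℕ} (hJ : 4 ≤ J) : 2 ^ J = 4 * 2 ^ (J - 2) := by
  have h3 : J = (J - 2) + 2 := by omega
  conv_lhs => rw [h3, pow_add]
  ring

theorem ins_side {e : Edg} {aa ss : Bool} (h : ∀ d : ℕ,
    d ≤ dS n aa ss e → (d:ℤ) ≤ e.1 ∧ (d:ℤ) ≤ n - e.1 ∧ (d:ℤ) ≤ e.2.1 ∧ (d:ℤ) ≤ n - e.2.1)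
    (hJ : 4 ≤ Js n ρ aa ss e) : Ins (DB n) e (2 ^ (Js n ρ aa ss e - 2)) := by
  obtain ⟨h1, -⟩ := scale_facts n ρ aa ss e
  have h2 := pow_sub hJ
  have h3 : 2 ^ 4 ≤ 2 ^ (Js n ρ aa ss e) := Nat.pow_le_pow_right (by norm_num) hJ
  have h4 := h (dS n aa ss e) le_rfl
  obtain ⟨K, hK⟩ : ∃ K, K = 2 ^ (Js n ρ aa ss e - 2) := ⟨_, rfl⟩
  rw [← hK] at h2 ⊢
  have h5 : K + 2 ≤ dS n aa ss e := by
    have := min_le_left (dS n aa ss e) ρ
    omega
  show (0:ℤ) + 1 < e.1 - K ∧ e.1 + K + 1 < n ∧ 1 < e.2.1 - K ∧ e.2.1 + K + 1 < n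
  omega

theorem sd_zl {e : Edg} (aa ss : Bool) :
    sd (src e) (zl aa (sX n ss) e) ≤ dS n aa ss e := by
  have hs : src e = (e.1, e.2.1) := rfl
  have h2 : (dS n aa ss e : ℤ) = |co aa (src e) - sX n ss| := by
    unfold dS
    rw [Int.abs_eq_natAbs]
  rw [h2]
  unfold sd zl co
  cases aa
  · simp only [hs, Bool.false_eq_true, if_false, sub_self, abs_zero]
    exact max_le (abs_nonneg _) le_rfl
  · simp only [hs, if_true, sub_self, abs_zero]
    exact max_le le_rfl (abs_nonneg _)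

/-- The crossing. -/
theorem cr_side {e : Edg} {aa ss : Bool} {X : Set Edg} {f a : Vtx} (hf : sd f (src e) ≤ 1)
    (ha : (ρ:ℤ) ≤ sd f a) (hr : Reach X f a) (hs : 8 * 2 ^ (Js n ρ aa ss e) < ρ / 2) :
    Cr (zl aa (sX n ss) e) (8 * 2 ^ (Js n ρ aa ss e)) (ρ / 2) X := by
  rw [cr_iff]
  obtain ⟨h1, h2⟩ := scale_facts n ρ aa ss e
  have h3 := sd_zl (n := n) (e := e) aa ss
  have h4 := sd_tri f (src e) (zl aa (sX n ss) e)
  have h5 := sd_tri f (zl aa (sX n ss) e) a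
  rw [sd_comm' (zl aa (sX n ss) e) a] at h5
  have h6 : dS n aa ss e < 2 * 2 ^ (Js n ρ aa ss e) := by
    rcases Nat.lt_or_ge (dS n aa ss e) ρ with h | h
    · rw [min_eq_left h.le] at h2; omega
    · rw [min_eq_right h] at h2; omega
  obtain ⟨P, hP⟩ : ∃ P, P = 2 ^ (Js n ρ aa ss e) := ⟨_, rfl⟩
  rw [← hP] at hs h6 ⊢
  have hP1 : 1 ≤ P := by rw [hP]; exact Nat.one_le_two_pow
  exact ⟨f, a, by push_cast; omega, by omega, hr⟩

/-- **Primal arms.** -/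
theorem ev_of_primal {F Q : Finset Edg} (hF : F ⊆ RE 0 (n:ℤ) 0 n) (hQ : Q ⊆ RE 0 (n:ℤ) 0 n)
    (h : ¬ NB ρ F Q) : ∃ e ∈ RE 0 (n:ℤ) 0 n, ∃ aa ss, Ev n ρ true aa ss e F Q := by
  unfold NB at h
  push Not at h
  obtain ⟨e, heQ, H, hH, heH, hn, a, b, ha, hb, ha', hb'⟩ := h
  have heS := hQ heQ
  have hHS : H ⊆ RE 0 (n:ℤ) 0 n := hH.sub hF hQ
  obtain ⟨aa, ss, hside⟩ := near_side heS
  refine ⟨e, heS, aa, ss, heQ, H, hH, ?_, ?_⟩
  · intro hJ
    refine ⟨ins_side hside hJ, ?_⟩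
    obtain ⟨h1, -⟩ := scale_facts n ρ aa ss e
    have h2 := pow_sub hJ
    have h3 : 2 ^ 4 ≤ 2 ^ (Js n ρ aa ss e) := Nat.pow_le_pow_right (by norm_num) hJ
    have h4 := min_le_right (dS n aa ss e) ρ
    have h5 : 1 ≤ 2 ^ (Js n ρ aa ss e - 2) := Nat.one_le_two_pow
    have hk : ((2 ^ (Js n ρ aa ss e - 2) : ℕ) : ℤ) + 1 ≤ ρ := by
      have : 2 ^ (Js n ρ aa ss e - 2) + 1 ≤ ρ := by omega
      exact_mod_cast this
    simp only [ce, cf, if_true]
    exact A4e_of h5 (by exact_mod_cast heH) hn ha hb (by omega) (by omega)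
  · intro hs
    simp only [cf, cS, if_true]
    rw [Th_box, Finset.inter_eq_left.2 hHS]
    refine cr_side ?_ ha' ha hs
    unfold sd; simp

/-- **Dual arms.** -/
theorem ev_of_dual {F Q : Finset Edg} (hF : F ⊆ RE 0 (n:ℤ) 0 n) (hQ : Q ⊆ RE 0 (n:ℤ) 0 n)
    (h : ¬ ND ρ F Q) : ∃ e ∈ RE 0 (n:ℤ) 0 n, ∃ aa ss, Ev n ρ false aa ss e F Q := by
  unfold ND at h
  push Not at h
  obtain ⟨e, heQ, H, hH, heH, hn, a, b, ha, hb, ha', hb'⟩ := h
  have heS := hQ heQ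
  have hHS : H ⊆ RE 0 (n:ℤ) 0 n := hH.sub hF hQ
  obtain ⟨aa, ss, hside⟩ := near_side heS
  refine ⟨e, heS, aa, ss, heQ, H, hH, ?_, ?_⟩
  · intro hJ
    have hins := ins_side hside hJ
    refine ⟨hins, ?_⟩
    obtain ⟨h1, -⟩ := scale_facts n ρ aa ss e
    have h2 := pow_sub hJ
    have h3 : 2 ^ 4 ≤ 2 ^ (Js n ρ aa ss e) := Nat.pow_le_pow_right (by norm_num) hJ
    have h4 := min_le_right (dS n aa ss e) ρ
    have h5 : 1 ≤ 2 ^ (Js n ρ aa ss e - 2) := Nat.one_le_two_pow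
    have hk : ((2 ^ (Js n ρ aa ss e - 2) : ℕ) : ℤ) + 1 ≤ ρ := by
      have : 2 ^ (Js n ρ aa ss e - 2) + 1 ≤ ρ := by omega
      exact_mod_cast this
    have hloc : (↑(cf false (DB n).edges H) : Set Edg) ∩
        ↑(ebx (ce false e) (2 ^ (Js n ρ aa ss e - 2))) = (dl '' (↑H : Set Edg)ᶜ) ∩
        ↑(ebx (ce false e) (2 ^ (Js n ρ aa ss e - 2))) := by
      ext g
      simp only [Set.mem_inter_iff, Finset.mem_coe, cf, Bool.false_eq_true, if_false]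
      rw [mem_dmp, Finset.mem_sdiff]
      constructor
      · rintro ⟨⟨-, h6⟩, h7⟩
        refine ⟨⟨dl.symm g, fun h8 => h6 (by exact_mod_cast h8), Equiv.apply_symm_apply _ _⟩, h7⟩
      · rintro ⟨⟨g', h6, rfl⟩, h7⟩
        rw [Equiv.symm_apply_apply]
        refine ⟨⟨?_, fun h8 => h6 (by exact_mod_cast h8)⟩, h7⟩
        apply ics_sub (κ := false) hins
        rw [mem_ics]
        exact h7
    rw [A4e_local hloc]
    simp only [ce, Bool.false_eq_true, if_false]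
    refine A4e_of h5 ?_ ?_ (a := a) (b := b) ?_ ?_ ?_ ?_
    · rintro ⟨g, hg, hge⟩
      rw [dl.injective hge] at hg
      exact hg (by exact_mod_cast heH)
    · rw [reach_dl, src_dl, tgt_dl]; exact hn
    · rw [reach_dl, src_dl]; exact ha
    · rw [reach_dl, tgt_dl]; exact hb
    · rw [src_dl]; omega
    · rw [tgt_dl]; omega
  · intro hs
    simp only [cf, cS, Bool.false_eq_true, if_false]
    rw [Th_box, DB_edges]
    have hsub : (dl '' (↑(RE 0 (n:ℤ) 0 n \ H) : Set Edg)) ⊆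
        (↑(dmp (RE 0 (n:ℤ) 0 n \ H) ∩ dmp (RE 0 (n:ℤ) 0 n)) : Set Edg) := by
      rintro _ ⟨g, hg, rfl⟩
      have hg' : g ∈ RE 0 (n:ℤ) 0 n \ H := by exact_mod_cast hg
      rw [Finset.mem_coe, Finset.mem_inter, mem_dmp, mem_dmp, Equiv.symm_apply_apply]
      exact ⟨hg', (Finset.mem_sdiff.1 hg').1⟩
    have hsd : sd (dsrc e) (src e) ≤ 1 ∧ sd (dtgt e) (src e) ≤ 1 := by
      obtain ⟨x, y, _ | _⟩ := e <;> simp [sd, src, dsrc, dtgt]
    by_cases hout : DReach (↑H : Set Edg)ᶜ (dsrc e) (-1, -1)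
    · have hout2 : ¬ DReach (↑H : Set Edg)ᶜ (dtgt e) (-1, -1) := fun h2 => hn (hout.trans h2.symm)
      have h3 := dual_in hHS hout2 hb
      exact cr_side hsd.2 hb' ((reach_dl.2 h3).mono hsub) hs
    · have h3 := dual_in hHS hout ha
      exact cr_side hsd.1 ha' ((reach_dl.2 h3).mono hsub) hs

end Pool.Agent.H950.AD
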