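import Mathlib
import Pool.Graph.R_pool_sql_team_seeded_63374d34.N116.EW.Ord

/-!
Closed orbits of two injective maps which differ by a switch visit their common points in the same
cyclic order, and matched pieces of two sequences.
-/

set_option autoImplicit false

namespace Pool.Agent.H950.AD

open Function

variable {α : Type*}

open Classical in
/-- The map `f`, its orbits being cut before the point `a`. -/
noncomputable def ct (f : α → α) (a : α) : Option α → Option α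
  | none => some a
  | some x => if f x = a then none else some (f x)

theorem ct_inj {f : α → α} (hf : Injective f) (a : α) : Injective (ct f a) := by
  classical
  rintro (_ | x) (_ | y) h
  · rfl
  · exfalso
    simp only [ct] at h
    split_ifs at h with h1
    · exact h1 (Option.some.inj h).symm
  · exfalso
    simp only [ct] at h
    split_ifs at h with h1
    · exact h1 (Option.some.inj h)
  · simp only [ct] at h
    split_ifs at h with h1 h2 h3
    · rw [hf (h1.trans h2.symm)]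
    · rw [hf (Option.some.inj h)]

/-- `N` is the period of `a`. -/
def Per (f : α → α) (a : α) (N : ℕ) : Prop :=
  0 < N ∧ f^[N] a = a ∧ ∀ j, 0 < j → j < N → f^[j] a ≠ a

variable {f g : α → α} {a : α} {N N' : ℕ}

theorem Per.inj (hf : Injective f) (h : Per f a N) {i j : ℕ} (hi : i < N) (hj : j < N)
    (e : f^[i] a = f^[j] a) : i = j := by
  have key : ∀ i j, i < j → j < N → f^[i] a ≠ f^[j] a := by
    intro i j hij hj e
    obtain ⟨t, rfl⟩ : ∃ t, j = i + t := ⟨j - i, by omega⟩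
    rw [iterate_add_apply] at e
    exact h.2.2 t (by omega) (by omega) ((hf.iterate i) e).symm
  rcases lt_trichotomy i j with h1 | h1 | h1
  · exact absurd e (key i j h1 hj)
  · exact h1
  · exact absurd e.symm (key j i h1 hi)

theorem ct_iter (h : Per f a N) : ∀ i, i < N → (ct f a)^[i] (some a) = some (f^[i] a) := by
  classical
  intro i
  induction i with
  | zero => intro _; rfl
  | succ i ih =>
    intro hi
    rw [iterate_succ_apply', ih (by omega), iterate_succ_apply']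
    simp only [ct]
    rw [if_neg]
    rw [← iterate_succ_apply' f]
    exact h.2.2 (i + 1) (by omega) hi

theorem ct_last (h : Per f a N) : (ct f a)^[N] (some a) = none := by
  classical
  obtain ⟨n, rfl⟩ : ∃ n, N = n + 1 := ⟨N - 1, by have := h.1; omega⟩
  rw [iterate_succ_apply', ct_iter h n (by omega)]
  simp only [ct]
  rw [if_pos]
  rw [← iterate_succ_apply' f]
  exact h.2.1

theorem ct_inj' (hf : Injective f) (h : Per f a N) (i j : ℕ) (hi : i ≤ N) (hj : j ≤ N)
    (e : (ct f a)^[i] (some a) = (ct f a)^[j] (some a)) : i = j := by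
  rcases Nat.eq_or_lt_of_le hi with rfl | hi <;> rcases Nat.eq_or_lt_of_le hj with rfl | hj
  · rfl
  · rw [ct_last h, ct_iter h j hj] at e
    exact absurd e (by simp)
  · rw [ct_last h, ct_iter h i hi] at e
    exact absurd e (by simp)
  · rw [ct_iter h i hi, ct_iter h j hj] at e
    exact h.inj hf hi hj (Option.some.inj e)

/-- Closed orbits which differ by a switch visit their common points in the same order. -/
theorem ord_cyc (hf : Injective f) (hg : Injective g)
    {s1 s2 : α} (hne : s1 ≠ s2) (h1 : g s1 = f s2) (h2 : g s2 = f s1)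
    (h : ∀ s, s ≠ s1 → s ≠ s2 → g s = f s) (hN : Per f a N) (hN' : Per g a N')
    {i j i' j' : ℕ} (hi : i < N) (hj : j < N) (hi' : i' < N') (hj' : j' < N')
    (hσ : f^[i] a = g^[i'] a) (hτ : f^[j] a = g^[j'] a) : i < j ↔ i' < j' := by
  classical
  refine Pool.Agent.N116.EW.ord_one (f := ct f a) (g := ct g a) (ct_inj hf a)
    (s1 := some s1) (s2 := some s2) (fun e => hne (Option.some.inj e)) ?_ ?_ ?_
    (ct_last hN) (ct_last hN') (ct_inj' hf hN) (ct_inj' hg hN') hi.le hj.le hi'.le hj'.le ?_ ?_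
  · simp only [ct, h1]
  · simp only [ct, h2]
  · rintro (_ | s) h3 h4
    · rfl
    · simp only [ct]
      rw [h s (fun e => h3 (by rw [e])) (fun e => h4 (by rw [e]))]
  · rw [ct_iter hN i hi, ct_iter hN' i' hi', hσ]
  · rw [ct_iter hN j hj, ct_iter hN' j' hj', hτ]

/-- The data of a matching of two sequences. -/
structure Mt {β : Type*} (M : Set β) (P Q : ℕ → β) (N N' m : ℕ) (a b : ℕ → ℕ) : Prop where
  a0 : a 0 = 0
  b0 : b 0 = 0
  am : a m = N
  bm : b m = N'
  ai : ∀ i < m, a i < a (i + 1)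
  bi : ∀ i < m, b i < b (i + 1)
  eq : ∀ i ≤ m, P (a i) = Q (b i)
  mem : ∀ i ≤ m, P (a i) ∈ M
  ga : ∀ i < m, ∀ k, a i < k → k < a (i + 1) → P k ∉ M
  gb : ∀ i < m, ∀ k, b i < k → k < b (i + 1) → Q k ∉ M

/-- **Matched pieces.** -/
theorem abs_match {β : Type*} (M : Set β) (P Q : ℕ → β) {N N' : ℕ}
    (iQ : ∀ i j, i ≤ N' → j ≤ N' → Q i = Q j → i = j)
    (h0 : P 0 = Q 0) (hN : P N = Q N') (m0 : P 0 ∈ M) (mN : P N ∈ M)
    (hPQ : ∀ k ≤ N, P k ∈ M → ∃ k', k' ≤ N' ∧ Q k' = P k)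
    (hQP : ∀ k ≤ N', Q k ∈ M → ∃ k', k' ≤ N ∧ P k' = Q k)
    (ord : ∀ i j i' j' : ℕ, i ≤ N → j ≤ N → i' ≤ N' → j' ≤ N' → P i ∈ M → P j ∈ M →
      P i = Q i' → P j = Q j' → (i < j ↔ i' < j')) :
    ∃ (m : ℕ) (a b : ℕ → ℕ), Mt M P Q N N' m a b := by
  classical
  obtain ⟨A, hA⟩ : ∃ A : Finset ℕ, ∀ k, k ∈ A ↔ k ≤ N ∧ P k ∈ M :=
    ⟨(Finset.range (N + 1)).filter (fun k => P k ∈ M), fun k => by
      rw [Finset.mem_filter, Finset.mem_range, Nat.lt_succ_iff]⟩
  have h0A : 0 ∈ A := (hA 0).2 ⟨Nat.zero_le _, m0⟩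
  have hLA : N ∈ A := (hA _).2 ⟨le_rfl, mN⟩
  obtain ⟨m, hm⟩ : ∃ m, A.card = m + 1 := ⟨A.card - 1, by
    have := Finset.card_pos.2 ⟨0, h0A⟩; omega⟩
  obtain ⟨f, hf⟩ : ∃ f, f = A.orderEmbOfFin hm := ⟨_, rfl⟩
  have hfm : ∀ i, f i ∈ A := fun i => by rw [hf]; exact Finset.orderEmbOfFin_mem _ _ _
  have hfs : ∀ k ∈ A, ∃ i, f i = k := by
    intro k hk
    have := Finset.range_orderEmbOfFin A hm
    rw [← hf] at this
    have h3 : k ∈ Set.range f := by rw [this]; exact Finset.mem_coe.2 hk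
    exact h3
  have hfi : ∀ i j, f i < f j ↔ i < j := fun i j => f.lt_iff_lt
  obtain ⟨a, ha⟩ : ∃ a : ℕ → ℕ, ∀ i (h : i < m + 1), a i = f ⟨i, h⟩ :=
    ⟨fun i => if h : i < m + 1 then f ⟨i, h⟩ else 0, fun i h => by simp [h]⟩
  have haA : ∀ i ≤ m, a i ∈ A := fun i hi => by rw [ha i (by omega)]; exact hfm _
  have hex : ∀ i, ∃ k, i ≤ m → k ≤ N' ∧ Q k = P (a i) := by
    intro i
    by_cases hi : i ≤ m
    · have h3 := (hA _).1 (haA i hi)
      obtain ⟨k, hk, hk'⟩ := hPQ _ h3.1 h3.2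
      exact ⟨k, fun _ => ⟨hk, hk'⟩⟩
    · exact ⟨0, fun h => absurd h hi⟩
  choose b hb using hex
  have hamono : ∀ i < m, a i < a (i + 1) := by
    intro i hi
    rw [ha i (by omega), ha (i + 1) (by omega), hfi]
    exact Fin.mk_lt_mk.2 (by omega)
  have hgapF : ∀ i < m, ∀ k, a i < k → k < a (i + 1) → P k ∉ M := by
    intro i hi k hk1 hk2 hmem
    have hkA : k ∈ A := (hA k).2 ⟨by
      have := ((hA _).1 (haA (i + 1) (by omega))).1
      omega, hmem⟩
    obtain ⟨⟨j, hj⟩, rfl⟩ := hfs k hkA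
    rw [ha i (by omega), hfi] at hk1
    rw [ha (i + 1) (by omega), hfi] at hk2
    have h3 := Fin.mk_lt_mk.1 hk1
    have h4 := Fin.mk_lt_mk.1 hk2
    omega
  have hbmono : ∀ i < m, b i < b (i + 1) := by
    intro i hi
    have e1 := hb i (by omega)
    have e2 := hb (i + 1) (by omega)
    have p1 := (hA _).1 (haA i (by omega))
    have p2 := (hA _).1 (haA (i + 1) (by omega))
    exact (ord _ _ _ _ p1.1 p2.1 e1.1 e2.1 p1.2 p2.2 e1.2.symm e2.2.symm).1 (hamono i hi)
  have hgapG : ∀ i < m, ∀ k, b i < k → k < b (i + 1) → Q k ∉ M := by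
    intro i hi k hk1 hk2 hmem
    have e1 := hb i (by omega)
    have e2 := hb (i + 1) (by omega)
    have p1 := (hA _).1 (haA i (by omega))
    have p2 := (hA _).1 (haA (i + 1) (by omega))
    obtain ⟨k', hk', hk''⟩ := hQP k (by omega) hmem
    have q1 := (ord _ _ _ _ p1.1 hk' e1.1 (by omega) p1.2 (by rw [hk'']; exact hmem)
      e1.2.symm hk'').2 hk1
    have q2 := (ord _ _ _ _ hk' p2.1 (by omega) e2.1 (by rw [hk'']; exact hmem) p2.2
      hk'' e2.2.symm).2 hk2
    exact hgapF i hi k' q1 q2 (by rw [hk'']; exact hmem)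
  have ha0 : a 0 = 0 := by
    obtain ⟨⟨i, hi⟩, h3⟩ := hfs 0 h0A
    rw [ha 0 (by omega)]
    have h4 : f ⟨0, by omega⟩ ≤ f ⟨i, hi⟩ := f.monotone (Fin.mk_le_mk.2 (Nat.zero_le _))
    rw [h3] at h4
    exact Nat.le_zero.1 h4
  have ham : a m = N := by
    obtain ⟨⟨i, hi⟩, h3⟩ := hfs _ hLA
    rw [ha m (by omega)]
    have h4 : f ⟨i, hi⟩ ≤ f ⟨m, by omega⟩ := f.monotone (Fin.mk_le_mk.2 (by omega))
    rw [h3] at h4
    exact le_antisymm ((hA _).1 (hfm _)).1 h4
  refine ⟨m, a, b, ha0, ?_, ham, ?_, hamono, hbmono, fun i hi => (hb i hi).2.symm,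
    fun i hi => ((hA _).1 (haA i hi)).2, hgapF, hgapG⟩
  · have e1 := hb 0 (Nat.zero_le _)
    rw [ha0, h0] at e1
    exact iQ _ _ e1.1 (Nat.zero_le _) e1.2
  · have e1 := hb m le_rfl
    rw [ham, hN] at e1
    exact iQ _ _ e1.1 le_rfl e1.2

end Pool.Agent.H950.AD
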