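import Pool.Agent.H950.AD.Exc
import Pool.Graph.R_pool_sql_team_seeded_3997aac3.Q291.AD.Arm
import Pool.Graph.R_seed8.H342R3.Tig.EXI

/-!
Deterministic consequences of the absence of defects with four long arms.
-/

set_option autoImplicit false

namespace Pool.Agent.H950.AD

open H974 H12S H389NS H984N H984P H342P H443B Finset Q291.AD
open Pool.Agent.N116.EW (s1 s2 ae_s1 s1_ne_s2 nxt_insert sd_comm' sd_tri sd_self' sd_nxt sd_mv
  sd_face sd_face_rt En)

variable {F G Q L : Finset Edg} {u : Vtx}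

/-! ### Reachability -/

theorem En_adj {e : Edg} {x v : Vtx} (h : En e x v) {H : Set Edg} (he : e ∈ H) : Adj H x v := by
  rcases h with ⟨h1, h2⟩ | ⟨h1, h2⟩
  · exact ⟨e, he, Or.inl ⟨h1.symm, h2.symm⟩⟩
  · exact ⟨e, he, Or.inr ⟨h2.symm, h1.symm⟩⟩

theorem adj_En {H : Set Edg} {x v : Vtx} (h : Adj H x v) : ∃ e ∈ H, En e x v := by
  obtain ⟨e, he, h | h⟩ := h
  · exact ⟨e, he, Or.inl ⟨h.1.symm, h.2.symm⟩⟩
  · exact ⟨e, he, Or.inr ⟨h.2.symm, h.1.symm⟩⟩

theorem sd_En {e : Edg} {x v : Vtx} (h : En e x v) : sd x v ≤ 1 := by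
  obtain ⟨x0, y0, _ | _⟩ := e <;>
  · rcases h with ⟨rfl, rfl⟩ | ⟨rfl, rfl⟩ <;> simp [sd]

/-- The last exit from a set. -/
theorem last_exit' {H : Set Edg} {A : Set Vtx} {x y : Vtx} (h : Reach H x y) (hx : x ∈ A) :
    y ∉ A → ∃ e ∈ H, ∃ x' v', En e x' v' ∧ x' ∈ A ∧ v' ∉ A ∧
      Reach {g | g ∈ H ∧ src g ∉ A ∧ tgt g ∉ A} v' y := by
  induction h with
  | refl => intro hy; exact absurd hx hy
  | @tail z y _ hs ih =>
    intro hy
    obtain ⟨e, he, hE⟩ := adj_En hs
    by_cases hz : z ∈ A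
    · exact ⟨e, he, z, y, hE, hz, hy, Reach.refl _ _⟩
    · obtain ⟨e', he', x', v', h1, h2, h3, h4⟩ := ih hz
      have hmem : e ∈ {g | g ∈ H ∧ src g ∉ A ∧ tgt g ∉ A} := by
        refine ⟨he, ?_⟩
        rcases hE with ⟨h5, h6⟩ | ⟨h5, h6⟩
        · rw [← h5, ← h6]; exact ⟨hz, hy⟩
        · rw [← h5, ← h6]; exact ⟨hy, hz⟩
      exact ⟨e', he', x', v', h1, h2, h3, h4.trans (En_adj hE hmem).reach⟩

/-- A connection by one more edge. -/
theorem reach_insert {H : Set Edg} {e : Edg} {x y : Vtx} (h : Reach (insert e H) x y)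
    (hn : ¬ Reach H x y) : ∃ a b, En e a b ∧ Reach H x a ∧ Reach H b y := by
  have key : ∀ z, Reach (insert e H) x z → Reach H x z ∨ ∃ a b, En e a b ∧ Reach H x a ∧
      Reach H b z := by
    intro z hz
    induction hz with
    | refl => exact Or.inl (Reach.refl _ _)
    | @tail w z _ hs ih =>
      obtain ⟨g, hg, hE⟩ := adj_En hs
      rcases hg with rfl | hg
      · rcases ih with h1 | ⟨a, b, h1, h2, h3⟩
        · exact Or.inr ⟨w, z, hE, h1, Reach.refl _ _⟩
        · -- the second use of the edge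
          rcases h1 with ⟨rfl, rfl⟩ | ⟨rfl, rfl⟩ <;> rcases hE with ⟨rfl, rfl⟩ | ⟨rfl, rfl⟩
          · exact Or.inr ⟨_, _, Or.inl ⟨rfl, rfl⟩, h2, Reach.refl _ _⟩
          · exact Or.inl h2
          · exact Or.inl h2
          · exact Or.inr ⟨_, _, Or.inr ⟨rfl, rfl⟩, h2, Reach.refl _ _⟩
      · have hadj := (En_adj hE hg).reach
        rcases ih with h1 | ⟨a, b, h1, h2, h3⟩
        · exact Or.inl (h1.trans hadj)
        · exact Or.inr ⟨a, b, h1, h2, h3.trans hadj⟩
  rcases key y h with h1 | h1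
  · exact absurd h1 hn
  · exact h1

/-! ### Defects without long arms -/

/-- No defect separates two long clusters of an admissible configuration. -/
def NB (ρ : ℕ) (F Q : Finset Edg) : Prop :=
  ∀ e ∈ Q, ∀ H : Finset Edg, Adm F Q H → e ∉ H → ¬ Reach (↑H : Set Edg) (src e) (tgt e) →
    ∀ a b, Reach (↑H : Set Edg) (src e) a → Reach (↑H : Set Edg) (tgt e) b →
      sd (src e) a < ρ ∨ sd (tgt e) b < ρ

/-- No defect separates two long dual clusters of an admissible configuration. -/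
def ND (ρ : ℕ) (F Q : Finset Edg) : Prop :=
  ∀ e ∈ Q, ∀ H : Finset Edg, Adm F Q H → e ∈ H →
    ¬ DReach (↑H : Set Edg)ᶜ (dsrc e) (dtgt e) →
    ∀ a b, DReach (↑H : Set Edg)ᶜ (dsrc e) a → DReach (↑H : Set Edg)ᶜ (dtgt e) b →
      sd (dsrc e) a < ρ ∨ sd (dtgt e) b < ρ

theorem NB.En {ρ : ℕ} (h : NB ρ F Q) {e : Edg} (he : e ∈ Q) {H : Finset Edg} (hH : Adm F Q H)
    (heH : e ∉ H) {x v a b : Vtx} (hE : En e x v) (hn : ¬ Reach (↑H : Set Edg) x v)
    (ha : Reach (↑H : Set Edg) x a) (hb : Reach (↑H : Set Edg) v b) :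
    sd x a < ρ ∨ sd v b < ρ := by
  rcases hE with ⟨rfl, rfl⟩ | ⟨rfl, rfl⟩
  · exact h e he H hH heH hn a b ha hb
  · rcases h e he H hH heH (fun h => hn h.symm) b a hb ha with h1 | h1
    · exact Or.inr h1
    · exact Or.inl h1

theorem adm_low (hL : L = F \ Q) (hG : Adm F Q G) : L ⊆ G := by
  intro e he
  rw [hL, Finset.mem_sdiff] at he
  exact (hG e he.2).2 he.1

theorem adm_flip (hL : L = F \ Q) (hG : Adm F Q G) {e : Edg} (he : e ∈ G) (hne : e ∉ L) :
    e ∈ Q := by
  by_contra hc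
  apply hne
  rw [hL, Finset.mem_sdiff]
  exact ⟨(hG e hc).1 he, hc⟩

/-- **Large clusters contain large clusters of the lower configuration.** -/
theorem ident {ρ : ℕ} (h : NB ρ F Q) (hL : L = F \ Q) (hG : Adm F Q G) {x y : Vtx}
    (hxy : Reach (↑G : Set Edg) x y) : ∃ x' y', sd x x' ≤ ρ ∧ sd y y' ≤ ρ ∧
      Reach (↑L : Set Edg) x' y' ∧ Reach (↑G : Set Edg) x x' := by
  classical
  -- a minimal set of defects
  obtain ⟨T, hT, hTmin⟩ : ∃ T : Finset Edg, (T ⊆ G ∩ Q ∧ Reach (↑(L ∪ T) : Set Edg) x y) ∧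
      ∀ T' : Finset Edg, T' ⊆ G ∩ Q → Reach (↑(L ∪ T') : Set Edg) x y → T.card ≤ T'.card := by
    have hex : ∃ k, ∃ T : Finset Edg, T ⊆ G ∩ Q ∧ Reach (↑(L ∪ T) : Set Edg) x y ∧ T.card = k := by
      refine ⟨_, G ∩ Q, Finset.Subset.refl _, hxy.mono ?_, rfl⟩
      intro e he
      have he' : e ∈ G := by exact_mod_cast he
      by_cases h1 : e ∈ L
      · exact_mod_cast Finset.mem_union_left _ h1
      · exact_mod_cast Finset.mem_union_right _ (Finset.mem_inter.2 ⟨he', adm_flip hL hG he' h1⟩)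
    obtain ⟨T, h1, h2, h3⟩ := Nat.find_spec hex
    refine ⟨T, ⟨h1, h2⟩, fun T' h4 h5 => ?_⟩
    rw [h3]
    exact Nat.find_min' hex ⟨T', h4, h5, rfl⟩
  have hTQ : ∀ e ∈ T, e ∈ Q := fun e he => (Finset.mem_inter.1 (hT.1 he)).2
  -- the defects are close to one of the two points
  have hnear : ∀ e ∈ T, ∀ v w, En e v w → (sd x v ≤ ρ ∧ sd x w ≤ ρ) ∨ (sd y v ≤ ρ ∧ sd y w ≤ ρ) := by
    intro e he
    have hne : ¬ Reach (↑(L ∪ T.erase e) : Set Edg) x y := by
      intro hcon
      have := hTmin (T.erase e) ((Finset.erase_subset _ _).trans hT.1) hcon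
      rw [Finset.card_erase_of_mem he] at this
      have := Finset.card_pos.2 ⟨e, he⟩
      omega
    have hins : (↑(L ∪ T) : Set Edg) ⊆ insert e (↑(L ∪ T.erase e) : Set Edg) := by
      intro g hg
      by_cases hge : g = e
      · exact Or.inl hge
      · right
        have hg' : g ∈ L ∪ T := by exact_mod_cast hg
        rw [Finset.mem_coe, Finset.mem_union, Finset.mem_erase]
        rcases Finset.mem_union.1 hg' with h1 | h1
        · exact Or.inl h1
        · exact Or.inr ⟨hge, h1⟩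
    obtain ⟨a, b, hE, h1, h2⟩ := reach_insert (hT.2.mono hins) hne
    have hadm : Adm F Q (L ∪ T.erase e) := by
      intro g hg
      rw [Finset.mem_union, hL, Finset.mem_sdiff]
      constructor
      · rintro (h3 | h3)
        · exact h3.1
        · exact absurd (hTQ g (Finset.mem_of_mem_erase h3)) hg
      · intro h3
        exact Or.inl ⟨h3, hg⟩
    have heH : e ∉ L ∪ T.erase e := by
      rw [Finset.mem_union, hL, Finset.mem_sdiff]
      rintro (h3 | h3)
      · exact h3.2 (hTQ e he)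
      · exact absurd rfl (Finset.mem_erase.1 h3).1
    have h3 := h.En (hTQ e he) hadm heH hE (fun h4 => hne ((h1.trans h4).trans h2)) h1.symm h2
    have hab := sd_En hE
    have key : (sd x a ≤ ρ ∧ sd x b ≤ ρ) ∨ (sd y a ≤ ρ ∧ sd y b ≤ ρ) := by
      rcases h3 with h3 | h3
      · left
        have h4 := sd_tri x a b
        rw [sd_comm' a x] at h3
        omega
      · right
        have h4 := sd_tri y b a
        rw [sd_comm' b y] at h3
        rw [sd_comm' a b] at hab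
        omega
    intro v w hvw
    rcases hE with ⟨rfl, rfl⟩ | ⟨rfl, rfl⟩ <;> rcases hvw with ⟨rfl, rfl⟩ | ⟨rfl, rfl⟩
    · exact key
    · exact key.imp And.symm And.symm
    · exact key.imp And.symm And.symm
    · exact key
  -- follow the path
  have hLT : (↑(L ∪ T) : Set Edg) ⊆ (↑G : Set Edg) := by
    intro g hg
    have hg' : g ∈ L ∪ T := by exact_mod_cast hg
    rcases Finset.mem_union.1 hg' with h3 | h3
    · exact_mod_cast adm_low hL hG h3
    · exact_mod_cast (Finset.mem_inter.1 (hT.1 h3)).1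
  have key : ∀ z, Reach (↑(L ∪ T) : Set Edg) x z →
      (∃ x', sd x x' ≤ ρ ∧ Reach (↑L : Set Edg) x' z ∧ Reach (↑G : Set Edg) x x') ∨
      ∃ x' y', sd x x' ≤ ρ ∧ sd y y' ≤ ρ ∧ Reach (↑L : Set Edg) x' y' ∧
        Reach (↑G : Set Edg) x x' := by
    intro z hz
    induction hz with
    | refl => exact Or.inl ⟨x, by rw [sd_self']; positivity, Reach.refl _ _, Reach.refl _ _⟩
    | @tail w z hxw hs ih =>
      rcases ih with ⟨x', h1, h2, h2'⟩ | h1
      · obtain ⟨g, hg, hE⟩ := adj_En hs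
        have hg' : g ∈ L ∪ T := by exact_mod_cast hg
        rcases Finset.mem_union.1 hg' with h3 | h3
        · exact Or.inl ⟨x', h1, h2.trans (En_adj hE (by exact_mod_cast h3)).reach, h2'⟩
        · rcases hnear g h3 w z hE with h4 | h4
          · refine Or.inl ⟨z, h4.2, Reach.refl _ _, ?_⟩
            exact Reach.mono hLT (Reach.trans hxw (En_adj hE hg).reach)
          · exact Or.inr ⟨x', w, h1, h4.1, h2, h2'⟩
      · exact Or.inr h1
  rcases key y hT.2 with ⟨x', h1, h2, h3⟩ | h1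
  · exact ⟨x', y, h1, by rw [sd_self']; positivity, h2, h3⟩
  · exact h1

/-- **No long excursion of vertices.** -/
theorem nv_of {ρ : ℕ} (h : NB ρ F Q) (hL : L = F \ Q) (hG : Adm F Q G)
    (hfar : ∀ x ∈ CV L u, ∃ a ∈ CV L u, (ρ : ℤ) ≤ sd x a) : NV ρ L G u := by
  classical
  intro e he heL x v hE hx hv w hw
  by_contra hcon
  push Not at hcon
  obtain ⟨H, hH⟩ : ∃ H : Finset Edg,
      H = L ∪ (G.filter (fun g => src g ∉ CV L u ∧ tgt g ∉ CV L u)) := ⟨_, rfl⟩
  have hmem : ∀ g, g ∈ H ↔ g ∈ L ∨ (g ∈ G ∧ src g ∉ CV L u ∧ tgt g ∉ CV L u) := by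
    intro g
    rw [hH, Finset.mem_union, Finset.mem_filter]
  have hadm : Adm F Q H := by
    intro g hg
    rw [hmem, hL, Finset.mem_sdiff]
    constructor
    · rintro (h1 | h1)
      · exact h1.1
      · exact (hG g hg).1 h1.1
    · intro h1
      exact Or.inl ⟨h1, hg⟩
  have hxe : x = src e ∨ x = tgt e := by
    rcases hE with h1 | h1
    · exact Or.inl h1.1
    · exact Or.inr h1.1
  have heH : e ∉ H := by
    rw [hmem]
    rintro (h1 | h1)
    · exact heL h1
    · rcases hxe with h2 | h2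
      · rw [h2] at hx; exact h1.2.1 hx
      · rw [h2] at hx; exact h1.2.2 hx
  have hcl : ∀ z, Reach (↑H : Set Edg) x z → z ∈ CV L u := by
    intro z hz
    induction hz with
    | refl => exact hx
    | @tail w' z _ hs ih =>
      obtain ⟨g, hg, hE'⟩ := adj_En hs
      have hg' : g ∈ H := by exact_mod_cast hg
      rcases (hmem g).1 hg' with h1 | h1
      · have hr : Reach (↑L : Set Edg) u w' := ih
        exact hr.trans (En_adj hE' (by exact_mod_cast h1)).reach
      · exfalso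
        rcases hE' with ⟨h2, -⟩ | ⟨h2, -⟩
        · rw [h2] at ih; exact h1.2.1 ih
        · rw [h2] at ih; exact h1.2.2 ih
  obtain ⟨a, ha, ha2⟩ := hfar x hx
  have hra : Reach (↑H : Set Edg) x a := by
    have h1 : Reach (↑L : Set Edg) u x := hx
    have h2 : Reach (↑L : Set Edg) u a := ha
    refine (h1.symm.trans h2).mono ?_
    intro g hg
    have hg' : g ∈ L := by exact_mod_cast hg
    exact_mod_cast (hmem g).2 (Or.inl hg')
  have hrw : Reach (↑H : Set Edg) v w := by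
    refine hw.mono ?_
    rintro g ⟨h1, h2, h3⟩
    exact_mod_cast (hmem g).2 (Or.inr ⟨h1, h2, h3⟩)
  rcases h.En (adm_flip hL hG he heL) hadm heH hE (fun h1 => hv (hcl v h1)) hra hrw with h1 | h1
  · omega
  · omega

/-- **No long excursion of faces.** -/
theorem nw_of {ρ : ℕ} (h : ND ρ F Q) (hL : L = F \ Q) (hG : Adm F Q G)
    (hfar : ∀ σ ∈ MM G G u, ∃ f, DReach (↑G : Set Edg)ᶜ (face σ) f ∧ (ρ : ℤ) ≤ sd (face σ) f) :
    NW ρ L G u := by
  classical
  intro e he heL x y z hxe hyz hx hy hz w hw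
  by_contra hcon
  push Not at hcon
  obtain ⟨H, hH⟩ : ∃ H : Finset Edg,
      H = G.filter (fun g => ¬ (g ∈ Q ∧ dsrc g ∉ OF G u ∧ dtgt g ∉ OF G u)) := ⟨_, rfl⟩
  have hmem : ∀ g, g ∈ H ↔ g ∈ G ∧ ¬ (g ∈ Q ∧ dsrc g ∉ OF G u ∧ dtgt g ∉ OF G u) := by
    intro g
    rw [hH, Finset.mem_filter]
  have hadm : Adm F Q H := by
    intro g hg
    rw [hmem]
    constructor
    · intro h1
      exact (hG g hg).1 h1.1
    · intro h1
      exact ⟨(hG g hg).2 h1, fun h2 => hg h2.1⟩
  have heH : e ∈ H := by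
    rw [hmem]
    refine ⟨he, fun h1 => ?_⟩
    rcases hyz with ⟨h2, h3⟩ | ⟨h2, h3⟩
    · rw [h2] at hy; exact h1.2.1 hy
    · rw [h2] at hy; exact h1.2.2 hy
  -- the dual cluster of `y` stays in the unbounded component
  have hcl : ∀ f, DReach (↑H : Set Edg)ᶜ y f → f ∈ OF G u := by
    intro f hf
    induction hf with
    | refl => exact hy
    | @tail w' f _ hs ih =>
      obtain ⟨g, hg, hE'⟩ := hs
      have hg' : g ∉ H := by
        intro h1
        exact hg (by exact_mod_cast h1)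
      rw [hmem, not_and_or] at hg'
      have hgG : g ∉ G := by
        rcases hg' with h1 | h1
        · exact h1
        · exfalso
          rw [not_not] at h1
          rcases hE' with ⟨h2, -⟩ | ⟨-, h2⟩
          · rw [← h2] at ih; exact h1.2.1 ih
          · rw [← h2] at ih; exact h1.2.2 ih
      exact OF_step (fun h1 => hgG (by exact_mod_cast h1.1)) hE' ih
  -- the state
  obtain ⟨σ, hσ1, hσ2⟩ : ∃ σ : St, σ ∈ MM G G u ∧ face σ = y := by
    have hLG := adm_low hL hG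
    have hbase : ∀ σ : St, ae σ = e → σ.1 ∈ CV G u := by
      intro σ hσ
      have hxG : x ∈ CV G u := CV_mono hLG hx
      have hadj : ∀ v, (v = src e ∨ v = tgt e) → v ∈ CV G u := by
        intro v hv
        have h1 : Reach (↑G : Set Edg) u x := hxG
        have h2 : Reach (↑G : Set Edg) x v := by
          rcases hxe with h3 | h3 <;> rcases hv with h4 | h4
          · rw [h3, h4]; exact Reach.refl _ _
          · rw [h3, h4]; exact Adj.reach ⟨e, by exact_mod_cast he, Or.inl ⟨rfl, rfl⟩⟩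
          · rw [h3, h4]; exact Adj.reach ⟨e, by exact_mod_cast he, Or.inr ⟨rfl, rfl⟩⟩
          · rw [h3, h4]; exact Reach.refl _ _
        exact h1.trans h2
      apply hadj
      rcases p2_ends σ with ⟨h1, h2⟩ | ⟨h1, h2⟩
      · left; rw [← hσ]; exact h1.symm
      · right; rw [← hσ]; exact h2.symm
    have hs1 : ae (s1 e) = e := ae_s1 e
    have hs2 : ae (s2 e) = e := Pool.Agent.N116.EW.ae_s2 e
    have hf : face (s1 e) = y ∨ face (s2 e) = y := by
      obtain ⟨x0, y0, _ | _⟩ := e <;> rcases hyz with ⟨h1, -⟩ | ⟨h1, -⟩ <;> rw [h1] <;>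
        simp [s1, s2, dsrc, dtgt]
    rcases hf with hf | hf
    · exact ⟨s1 e, ⟨hbase _ hs1, by rw [hf]; exact hy⟩, hf⟩
    · exact ⟨s2 e, ⟨hbase _ hs2, by rw [hf]; exact hy⟩, hf⟩
  obtain ⟨f, hf1, hf2⟩ := hfar σ hσ1
  rw [hσ2] at hf1 hf2
  have hyf : DReach (↑H : Set Edg)ᶜ y f := by
    refine hf1.mono ?_
    intro g hg hgH
    apply hg
    have hgH' : g ∈ H := by exact_mod_cast hgH
    exact_mod_cast ((hmem g).1 hgH').1
  have hzw : DReach (↑H : Set Edg)ᶜ z w := by
    refine hw.mono ?_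
    rintro g ⟨h1, h2, h3⟩ hgH
    have hgH' : g ∈ H := by exact_mod_cast hgH
    obtain ⟨h4, h5⟩ := (hmem g).1 hgH'
    exact h5 ⟨adm_flip hL hG h4 h1, h2, h3⟩
  have hnot : ¬ DReach (↑H : Set Edg)ᶜ y z := fun h1 => hz (hcl z h1)
  have heQ := adm_flip hL hG he heL
  rcases hyz with ⟨h2, h3⟩ | ⟨h2, h3⟩
  · subst h2 h3
    rcases h e heQ H hadm heH hnot f w hyf hzw with h1 | h1 <;> omega
  · subst h2 h3
    rcases h e heQ H hadm heH (fun h1 => hnot h1.symm) w f hzw hyf with h1 | h1 <;> omega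

end Pool.Agent.H950.AD
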