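import Pool.Agent.H950.AD.Loop

/-!
Excursions of the outer interfaces.
-/

set_option autoImplicit false

namespace Pool.Agent.H950.AD

open H974 H12S H389NS H984N H984P H342P H443B Finset
open Pool.Agent.N116.EW (s1 s2 ae_s1 s1_ne_s2 nxt_insert sd_comm' sd_tri sd_self' sd_nxt sd_mv
  sd_face sd_face_rt En)

variable {F G : Finset Edg} {u : Vtx}

/-- No long excursion of vertices behind a flipped edge. -/
def NV (ρ : ℕ) (F G : Finset Edg) (u : Vtx) : Prop :=
  ∀ e ∈ G, e ∉ F → ∀ x v : Vtx, En e x v → x ∈ CV F u → v ∉ CV F u → ∀ w,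
    Reach {g | g ∈ G ∧ src g ∉ CV F u ∧ tgt g ∉ CV F u} v w → sd v w < ρ

/-- No long excursion of faces behind a flipped edge. -/
def NW (ρ : ℕ) (F G : Finset Edg) (u : Vtx) : Prop :=
  ∀ e ∈ G, e ∉ F → ∀ x y z : Vtx, (x = src e ∨ x = tgt e) →
    ((y = dsrc e ∧ z = dtgt e) ∨ (y = dtgt e ∧ z = dsrc e)) →
    x ∈ CV F u → y ∈ OF G u → z ∉ OF G u → ∀ w,
    DReach {g | g ∉ F ∧ dsrc g ∉ OF G u ∧ dtgt g ∉ OF G u} z w → sd z w < ρ

/-- Excursions of the upper orbit. -/
theorem exc_G {ρ : ℕ} (hρ : 1 ≤ ρ) (hb : NV ρ F G u) {a : St} (haG : a ∈ MM G G u)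
    {k0 k1 : ℕ} (hk : k0 < k1) (h0 : orb (↑G : Set Edg) a k0 ∈ MM F G u)
    (hno : ∀ k, k0 < k → k < k1 → orb (↑G : Set Edg) a k ∉ MM F G u) {k : ℕ}
    (ha : k0 ≤ k) (hb' : k ≤ k1) :
    sd (orb (↑G : Set Edg) a k0).1 (orb (↑G : Set Edg) a k).1 ≤ ρ + 1 := by
  have key : ∀ k, k0 ≤ k → k < k1 →
      sd (orb (↑G : Set Edg) a k0).1 (orb (↑G : Set Edg) a k).1 ≤ ρ := by
    intro k hka hkb
    rcases Nat.eq_or_lt_of_le hka with rfl | hka
    · rw [sd_self']; positivity
    have hoff : ∀ m, k0 < m → m < k1 → (orb (↑G : Set Edg) a m).1 ∉ CV F u := by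
      intro m hm1 hm2 hm3
      exact hno m hm1 hm2 ⟨hm3, (orb_MM haG m).2⟩
    have hv0 := hoff (k0 + 1) (by omega) (by omega)
    rw [orb_succ] at hv0
    have hopen : ae (orb (↑G : Set Edg) a k0) ∈ (↑G : Set Edg) := by
      by_contra hc
      rw [nxt_closed hc, p2_rt_fst] at hv0
      exact hv0 h0.1
    rw [nxt_open hopen] at hv0
    have hnF : ae (orb (↑G : Set Edg) a k0) ∉ F := by
      intro hc
      apply hv0
      have hr : Reach (↑F : Set Edg) u (orb (↑G : Set Edg) a k0).1 := h0.1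
      exact hr.trans (Adj.reach ⟨ae (orb (↑G : Set Edg) a k0), by exact_mod_cast hc, p2_ends _⟩)
    have heG : ae (orb (↑G : Set Edg) a k0) ∈ G := by exact_mod_cast hopen
    have hch : ∀ t, k0 + 1 + t < k1 →
        Reach {g | g ∈ G ∧ src g ∉ CV F u ∧ tgt g ∉ CV F u} (mv (orb (↑G : Set Edg) a k0)).1
          (orb (↑G : Set Edg) a (k0 + 1 + t)).1 := by
      intro t
      induction t with
      | zero =>
        intro _
        rw [add_zero, orb_succ, nxt_open hopen]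
        exact Reach.refl _ _
      | succ t ih =>
        intro ht
        have h1 := ih (by omega)
        have u1 := hoff (k0 + 1 + t) (by omega) (by omega)
        have u2 := hoff (k0 + 1 + (t + 1)) (by omega) (by omega)
        rw [← add_assoc, orb_succ] at u2 ⊢
        by_cases hc : ae (orb (↑G : Set Edg) a (k0 + 1 + t)) ∈ (↑G : Set Edg)
        · rw [nxt_open hc] at u2 ⊢
          refine h1.trans (Adj.reach ⟨ae (orb (↑G : Set Edg) a (k0 + 1 + t)),
            ⟨by exact_mod_cast hc, ?_⟩, p2_ends _⟩)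
          rcases p2_ends (orb (↑G : Set Edg) a (k0 + 1 + t)) with ⟨e1, e2⟩ | ⟨e1, e2⟩
          · rw [e1, e2]; exact ⟨u1, u2⟩
          · rw [e1, e2]; exact ⟨u2, u1⟩
        · rw [nxt_closed hc, p2_rt_fst]
          exact h1
    have h3 := hch (k - k0 - 1) (by omega)
    rw [show k0 + 1 + (k - k0 - 1) = k by omega] at h3
    have h4 : sd (mv (orb (↑G : Set Edg) a k0)).1 (orb (↑G : Set Edg) a k).1 < ρ := by
      refine hb (ae (orb (↑G : Set Edg) a k0)) heG hnF (orb (↑G : Set Edg) a k0).1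
        (mv (orb (↑G : Set Edg) a k0)).1 ?_ h0.1 hv0 _ h3
      rcases p2_ends (orb (↑G : Set Edg) a k0) with ⟨e1, e2⟩ | ⟨e1, e2⟩
      · exact Or.inl ⟨e1.symm, e2.symm⟩
      · exact Or.inr ⟨e2.symm, e1.symm⟩
    have h5 := sd_tri (orb (↑G : Set Edg) a k0).1 (mv (orb (↑G : Set Edg) a k0)).1
      (orb (↑G : Set Edg) a k).1
    have h6 := sd_mv (orb (↑G : Set Edg) a k0)
    omega
  rcases Nat.eq_or_lt_of_le hb' with rfl | hlt
  · obtain ⟨k', rfl⟩ : ∃ k', k = k' + 1 := ⟨k - 1, by omega⟩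
    have h1 := key k' (by omega) (by omega)
    have h2 := sd_tri (orb (↑G : Set Edg) a k0).1 (orb (↑G : Set Edg) a k').1
      (orb (↑G : Set Edg) a (k' + 1)).1
    have h3 := sd_nxt (↑G : Set Edg) (orb (↑G : Set Edg) a k')
    rw [← orb_succ] at h3
    omega
  · have := key k ha hlt
    omega

/-- Excursions of the lower orbit. -/
theorem exc_F {ρ : ℕ} (hρ : 1 ≤ ρ) (hb : NW ρ F G u) {a : St} (haF : a ∈ MM F F u)
    {k0 k1 : ℕ} (hk : k0 < k1) (h0 : orb (↑F : Set Edg) a k0 ∈ MM F G u)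
    (hno : ∀ k, k0 < k → k < k1 → orb (↑F : Set Edg) a k ∉ MM F G u) {k : ℕ}
    (ha : k0 ≤ k) (hb' : k ≤ k1) :
    sd (orb (↑F : Set Edg) a k0).1 (orb (↑F : Set Edg) a k).1 ≤ ρ + 3 := by
  have key : ∀ k, k0 ≤ k → k < k1 →
      sd (orb (↑F : Set Edg) a k0).1 (orb (↑F : Set Edg) a k).1 ≤ ρ + 2 := by
    intro k hka hkb
    rcases Nat.eq_or_lt_of_le hka with rfl | hka
    · rw [sd_self']; positivity
    have hoff : ∀ m, k0 < m → m < k1 → face (orb (↑F : Set Edg) a m) ∉ OF G u := by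
      intro m hm1 hm2 hm3
      exact hno m hm1 hm2 ⟨(orb_MM haF m).1, hm3⟩
    have hv0 := hoff (k0 + 1) (by omega) (by omega)
    rw [orb_succ] at hv0
    have hcl : ae (orb (↑F : Set Edg) a k0) ∉ (↑F : Set Edg) := by
      intro hc
      rw [nxt_open hc, p2_face_mv] at hv0
      exact hv0 h0.2
    rw [nxt_closed hcl] at hv0
    have hcl' : ae (orb (↑F : Set Edg) a k0) ∉ F := by exact_mod_cast hcl
    have heG : ae (orb (↑F : Set Edg) a k0) ∈ G := by
      by_contra hc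
      apply hv0
      refine OF_step (e := ae (orb (↑F : Set Edg) a k0)) (fun h => hc (by exact_mod_cast h.1)) ?_
        h0.2
      exact p2_dends _
    have hch : ∀ t, k0 + 1 + t < k1 →
        DReach {g | g ∉ F ∧ dsrc g ∉ OF G u ∧ dtgt g ∉ OF G u}
          (face (rt (orb (↑F : Set Edg) a k0))) (face (orb (↑F : Set Edg) a (k0 + 1 + t))) := by
      intro t
      induction t with
      | zero =>
        intro _
        rw [add_zero, orb_succ, nxt_closed hcl]
        exact DReach.refl _ _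
      | succ t ih =>
        intro ht
        have h1 := ih (by omega)
        have u1 := hoff (k0 + 1 + t) (by omega) (by omega)
        have u2 := hoff (k0 + 1 + (t + 1)) (by omega) (by omega)
        rw [← add_assoc, orb_succ] at u2 ⊢
        by_cases hc : ae (orb (↑F : Set Edg) a (k0 + 1 + t)) ∈ (↑F : Set Edg)
        · rw [nxt_open hc, p2_face_mv]
          exact h1
        · rw [nxt_closed hc] at u2 ⊢
          refine h1.trans (DAdj.reach ⟨ae (orb (↑F : Set Edg) a (k0 + 1 + t)),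
            ⟨by exact_mod_cast hc, ?_⟩, p2_dends _⟩)
          rcases p2_dends (orb (↑F : Set Edg) a (k0 + 1 + t)) with ⟨e1, e2⟩ | ⟨e1, e2⟩
          · rw [e1, e2]; exact ⟨u1, u2⟩
          · rw [e1, e2]; exact ⟨u2, u1⟩
    have h3 := hch (k - k0 - 1) (by omega)
    rw [show k0 + 1 + (k - k0 - 1) = k by omega] at h3
    have h4 : sd (face (rt (orb (↑F : Set Edg) a k0))) (face (orb (↑F : Set Edg) a k)) < ρ := by
      refine hb (ae (orb (↑F : Set Edg) a k0)) heG hcl' (orb (↑F : Set Edg) a k0).1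
        (face (orb (↑F : Set Edg) a k0)) (face (rt (orb (↑F : Set Edg) a k0))) ?_ ?_ h0.1 h0.2 hv0
        _ h3
      · rcases p2_ends (orb (↑F : Set Edg) a k0) with ⟨e1, e2⟩ | ⟨e1, e2⟩
        · exact Or.inl e1.symm
        · exact Or.inr e2.symm
      · rcases p2_dends (orb (↑F : Set Edg) a k0) with ⟨e1, e2⟩ | ⟨e1, e2⟩
        · exact Or.inl ⟨e1.symm, e2.symm⟩
        · exact Or.inr ⟨e2.symm, e1.symm⟩
    have h5 := sd_tri (orb (↑F : Set Edg) a k0).1 (face (orb (↑F : Set Edg) a k0))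
      (orb (↑F : Set Edg) a k).1
    have h6 := sd_tri (face (orb (↑F : Set Edg) a k0)) (face (rt (orb (↑F : Set Edg) a k0)))
      (orb (↑F : Set Edg) a k).1
    have h7 := sd_tri (face (rt (orb (↑F : Set Edg) a k0))) (face (orb (↑F : Set Edg) a k))
      (orb (↑F : Set Edg) a k).1
    have h8 := sd_face (orb (↑F : Set Edg) a k0)
    have h9 := sd_face_rt (orb (↑F : Set Edg) a k0)
    have h10 := sd_face (orb (↑F : Set Edg) a k)
    rw [sd_comm'] at h10
    omega
  rcases Nat.eq_or_lt_of_le hb' with rfl | hlt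
  · obtain ⟨k', rfl⟩ : ∃ k', k = k' + 1 := ⟨k - 1, by omega⟩
    have h1 := key k' (by omega) (by omega)
    have h2 := sd_tri (orb (↑F : Set Edg) a k0).1 (orb (↑F : Set Edg) a k').1
      (orb (↑F : Set Edg) a (k' + 1)).1
    have h3 := sd_nxt (↑F : Set Edg) (orb (↑F : Set Edg) a k')
    rw [← orb_succ] at h3
    omega
  · have := key k ha hlt
    omega

/-- The pieces of a matching are close to their starting point. -/
theorem pieces {ρ : ℕ} (hρ : 1 ≤ ρ) (hV : NV ρ F G u) (hW : NW ρ F G u) (hFG : F ⊆ G) {a : St}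
    (ha : a ∈ MM F G u) {N N' m : ℕ} {p q : ℕ → ℕ} (h : Lm F G u a N N' m p q) :
    ∀ i < m, (∀ k, p i ≤ k → k ≤ p (i + 1) →
      sd (orb (↑F : Set Edg) a (p i)).1 (orb (↑F : Set Edg) a k).1 ≤ ρ + 3) ∧
      (∀ k, q i ≤ k → k ≤ q (i + 1) →
      sd (orb (↑F : Set Edg) a (p i)).1 (orb (↑G : Set Edg) a k).1 ≤ ρ + 3) := by
  intro i hi
  have haF := MM_sub (Finset.Subset.refl F) hFG ha
  have haG := MM_sub hFG (Finset.Subset.refl G) ha
  refine ⟨?_, ?_⟩
  · intro k h1 h2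
    exact exc_F hρ hW haF (h.ai i hi) (h.mem i hi.le) (h.ga i hi) h1 h2
  · intro k h1 h2
    have h3 := h.eq i hi.le
    have h4 := exc_G hρ hV haG (h.bi i hi) (by rw [← h3]; exact h.mem i hi.le) (h.gb i hi) h1 h2
    rw [h3]
    omega

end Pool.Agent.H950.AD
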