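import Pool.Agent.H950.AD.Det
import Pool.Graph.R_pool_sql_team_seeded_63374d34.N839.EW.PL
import Pool.Graph.R_pool_sql_team_seeded_63374d34.N116.EW.Close

/-!
Far states of a cluster, a common state of two interfaces, and the distance of the closed curves.
-/

set_option autoImplicit false

namespace Pool.Agent.H950.AD

open H974 H12S H389NS H984N H984P H342P H443B Finset Q291.AD
open H342T (IsTrace poly)
open H342L (Curve cdist pt)
open Pool.Agent.N116.EW (s1 s2 ae_s1 s1_ne_s2 nxt_insert sd_comm' sd_tri sd_self' sd_nxt sd_mv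
  sd_face sd_face_rt En)

variable {F G Q L : Finset Edg} {u : Vtx} {n : ℕ}

/-- A leftmost outer state; the outer states have the extent of the cluster. -/
theorem ext_states (hG : G ⊆ RE 0 n 0 n) (hu : inR 0 n 0 n u) :
    ∃ a ∈ MM G G u, ∀ c ∈ CV G u, ∀ d ∈ CV G u, ∃ t1 t2 : ℕ,
      sd c d ≤ sd (orb (↑G : Set Edg) a t1).1 (orb (↑G : Set Edg) a t2).1 := by
  classical
  have hbox : ∀ w, Reach (↑G : Set Edg) u w → inR 0 n 0 n w := fun w hw => by
    by_cases h : u = w
    · rw [← h]; exact hu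
    · exact pb_box hG hw h
  obtain ⟨vL, hvL, hleft⟩ : ∃ vL, Reach (↑G : Set Edg) u vL ∧
      ∀ w, Reach (↑G : Set Edg) u w → vL.1 ≤ w.1 := by
    have hne : ∃ k : ℕ, ∃ w, Reach (↑G : Set Edg) u w ∧ w.1 = k := by
      have h3 := hbox u (Reach.refl _ _)
      unfold inR at h3
      exact ⟨u.1.toNat, u, Reach.refl _ _, by omega⟩
    obtain ⟨w, hw, hwk⟩ := Nat.find_spec hne
    refine ⟨w, hw, fun w' hw' => ?_⟩
    have h3 := hbox w' hw'
    unfold inR at h3
    have h4 : Nat.find hne ≤ w'.1.toNat := Nat.find_min' hne ⟨w', hw', by omega⟩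
    omega
  obtain ⟨a, ha⟩ : ∃ a : St, a = (vL, .nw) := ⟨_, rfl⟩
  have ha1 : a.1 = vL := by rw [ha]
  have hleft' : ∀ w, Reach (↑G : Set Edg) a.1 w → a.1.1 ≤ w.1 := by
    intro w hw
    rw [ha1] at hw ⊢
    exact hleft w (hvL.trans hw)
  have hb := hbox vL hvL
  unfold inR at hb
  have hout := outer_left hG (σ := a) (by rw [ha]) hleft' (by rw [ha1]; omega) (by rw [ha1]; omega)
  have haM : a ∈ MM G G u := by
    refine ⟨by rw [ha1]; exact hvL, ?_⟩
    show H342P.Outer (↑G : Set Edg) u (face a)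
    have hEC : EC (↑G : Set Edg) u = EC (↑G : Set Edg) a.1 := by
      rw [ha1]
      unfold EC
      ext e
      constructor
      · rintro ⟨he, h3⟩
        exact ⟨he, hvL.symm.trans h3⟩
      · rintro ⟨he, h3⟩
        exact ⟨he, hvL.trans h3⟩
    unfold H342P.Outer at hout ⊢
    rw [hEC]
    exact hout
  refine ⟨a, haM, ?_⟩
  intro c hc d hd
  have hra : ∀ w ∈ CV G u, Reach (↑G : Set Edg) a.1 w := by
    intro w hw
    have h1 : Reach (↑G : Set Edg) u w := hw
    rw [ha1]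
    exact hvL.symm.trans h1
  have hrc := hra c hc
  have hrd := hra d hd
  obtain ⟨⟨t1, e1⟩, ⟨t2, e2⟩, ⟨t3, e3⟩⟩ := orb_extent (by rw [ha]) hleft' hrc
  obtain ⟨⟨r1, f1⟩, ⟨r2, f2⟩, ⟨r3, f3⟩⟩ := orb_extent (by rw [ha]) hleft' hrd
  have hc0 := hleft' c hrc
  have hd0 := hleft' d hrd
  have h1 : |c.1 - d.1| ≤ max (sd (orb (↑G : Set Edg) a t1).1 (orb (↑G : Set Edg) a 0).1)
      (sd (orb (↑G : Set Edg) a r1).1 (orb (↑G : Set Edg) a 0).1) := by
    unfold sd
    rw [orb_zero]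
    rcases le_total d.1 c.1 with h | h
    · rw [abs_of_nonneg (by omega)]
      refine le_trans ?_ (le_max_left _ _)
      refine le_trans ?_ (le_max_left _ _)
      refine le_trans ?_ (le_abs_self _)
      omega
    · rw [abs_of_nonpos (by omega)]
      refine le_trans ?_ (le_max_right _ _)
      refine le_trans ?_ (le_max_left _ _)
      refine le_trans ?_ (le_abs_self _)
      omega
  have h2 : |c.2 - d.2| ≤ max (sd (orb (↑G : Set Edg) a t2).1 (orb (↑G : Set Edg) a r3).1)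
      (sd (orb (↑G : Set Edg) a r2).1 (orb (↑G : Set Edg) a t3).1) := by
    unfold sd
    rcases le_total d.2 c.2 with h | h
    · rw [abs_of_nonneg (by omega)]
      refine le_trans ?_ (le_max_left _ _)
      refine le_trans ?_ (le_max_right _ _)
      refine le_trans ?_ (le_abs_self _)
      omega
    · rw [abs_of_nonpos (by omega)]
      refine le_trans ?_ (le_max_right _ _)
      refine le_trans ?_ (le_max_right _ _)
      refine le_trans ?_ (le_abs_self _)
      omega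
  have h3 : sd c d = |c.1 - d.1| ∨ sd c d = |c.2 - d.2| := by
    unfold sd
    exact max_choice _ _
  rcases h3 with h3 | h3
  · rw [h3]
    rcases le_max_iff.1 h1 with h4 | h4
    · exact ⟨t1, 0, h4⟩
    · exact ⟨r1, 0, h4⟩
  · rw [h3]
    rcases le_max_iff.1 h2 with h4 | h4
    · exact ⟨t2, r3, h4⟩
    · exact ⟨r2, t3, h4⟩

/-- Far faces. -/
theorem far_face (hG : G ⊆ RE 0 n 0 n) (hu : inR 0 n 0 n u) {ρ : ℕ} {c d : Vtx} (hc : c ∈ CV G u)
    (hd : d ∈ CV G u) (hcd : 2 * (ρ : ℤ) + 4 ≤ sd c d) :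
    ∀ σ ∈ MM G G u, ∃ f, DReach (↑G : Set Edg)ᶜ (face σ) f ∧ (ρ : ℤ) ≤ sd (face σ) f := by
  intro σ hσ
  obtain ⟨a, ha, hext⟩ := ext_states hG hu
  obtain ⟨t1, t2, h1⟩ := hext c hc d hd
  obtain ⟨N, hN⟩ := exists_per G a
  obtain ⟨s, -, hs⟩ := visited ha hσ hN
  have hr : ∀ t, DReach (↑G : Set Edg)ᶜ (face σ) (face (orb (↑G : Set Edg) a t)) := by
    intro t
    have e1 := pb_dreach (↑G : Set Edg) a s
    have e2 := pb_dreach (↑G : Set Edg) a t
    rw [hs] at e1
    exact e1.symm.trans e2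
  have k1 := sd_face (orb (↑G : Set Edg) a t1)
  have k2 := sd_face (orb (↑G : Set Edg) a t2)
  have k3 := sd_tri (orb (↑G : Set Edg) a t1).1 (face (orb (↑G : Set Edg) a t1))
    (orb (↑G : Set Edg) a t2).1
  have k4 := sd_tri (face (orb (↑G : Set Edg) a t1)) (face σ) (orb (↑G : Set Edg) a t2).1
  have k5 := sd_tri (face σ) (face (orb (↑G : Set Edg) a t2)) (orb (↑G : Set Edg) a t2).1
  rw [sd_comm' (face (orb (↑G : Set Edg) a t2)) (orb (↑G : Set Edg) a t2).1] at k5
  rw [sd_comm' (face (orb (↑G : Set Edg) a t1)) (face σ)] at k4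
  by_cases h2 : (ρ : ℤ) ≤ sd (face σ) (face (orb (↑G : Set Edg) a t1))
  · exact ⟨_, hr t1, h2⟩
  · exact ⟨_, hr t2, by omega⟩

/-- Far vertices. -/
theorem far_vertex {ρ : ℕ} {c d : Vtx} (hc : c ∈ CV L u) (hd : d ∈ CV L u)
    (hcd : 2 * (ρ : ℤ) ≤ sd c d) : ∀ x ∈ CV L u, ∃ a ∈ CV L u, (ρ : ℤ) ≤ sd x a := by
  intro x _
  have k := sd_tri c x d
  rw [sd_comm' c x] at k
  by_cases h2 : (ρ : ℤ) ≤ sd x c
  · exact ⟨c, hc, h2⟩
  · exact ⟨d, hd, by omega⟩

/-- A common state. -/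
theorem exists_MM (hG : G ⊆ RE 0 n 0 n) (hu : inR 0 n 0 n u) {ρ : ℕ}
    (hV : NV ρ F G u) {c d : Vtx} (hc : c ∈ CV G u) (hd : d ∈ CV G u)
    (hcd : 2 * (ρ : ℤ) ≤ sd c d) : ∃ a, a ∈ MM F G u := by
  by_contra hno
  push Not at hno
  obtain ⟨a, ha, hext⟩ := ext_states hG hu
  obtain ⟨t1, t2, h1⟩ := hext c hc d hd
  have hoff : ∀ t, (orb (↑G : Set Edg) a t).1 ∉ CV F u := by
    intro t ht
    exact hno _ ⟨ht, (orb_MM ha t).2⟩
  have hua : Reach (↑G : Set Edg) u a.1 := ha.1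
  obtain ⟨e, he, x, v, hE, hx, hv, hr⟩ := last_exit' (A := CV F u) hua (Reach.refl _ _) (hoff 0)
  have he' : e ∈ G := by exact_mod_cast he
  have heF : e ∉ F := by
    intro h2
    apply hv
    have h3 : Reach (↑F : Set Edg) u x := hx
    exact h3.trans (En_adj hE (by exact_mod_cast h2)).reach
  have hall : ∀ t, Reach {g | g ∈ G ∧ src g ∉ CV F u ∧ tgt g ∉ CV F u} v
      (orb (↑G : Set Edg) a t).1 := by
    intro t
    induction t with
    | zero =>
      rw [orb_zero]
      refine hr.mono ?_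
      rintro g ⟨h2, h3⟩
      exact ⟨by exact_mod_cast h2, h3⟩
    | succ t ih =>
      have u1 := hoff t
      have u2 := hoff (t + 1)
      rw [orb_succ] at u2 ⊢
      by_cases hcl : ae (orb (↑G : Set Edg) a t) ∈ (↑G : Set Edg)
      · rw [nxt_open hcl] at u2 ⊢
        refine ih.trans (Adj.reach ⟨ae (orb (↑G : Set Edg) a t), ⟨by exact_mod_cast hcl, ?_⟩,
          p2_ends _⟩)
        rcases p2_ends (orb (↑G : Set Edg) a t) with ⟨e1, e2⟩ | ⟨e1, e2⟩
        · rw [e1, e2]; exact ⟨u1, u2⟩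
        · rw [e1, e2]; exact ⟨u2, u1⟩
      · rw [nxt_closed hcl, p2_rt_fst]
        exact ih
  have h2 := hV e he' heF x v hE hx hv _ (hall t1)
  have h3 := hV e he' heF x v hE hx hv _ (hall t2)
  have h4 := sd_tri (orb (↑G : Set Edg) a t1).1 v (orb (↑G : Set Edg) a t2).1
  rw [sd_comm' (orb (↑G : Set Edg) a t1).1 v] at h4
  omega

/-- The last common state before a given state. -/
theorem last_common {H : Finset Edg} (hFH : F ⊆ H) (hHG : H ⊆ G) {a0 σ : St} (h0 : a0 ∈ MM F G u)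
    (hσ : σ ∈ MM H H u) : ∃ a ∈ MM F G u, ∃ s, orb (↑H : Set Edg) a s = σ ∧
      ∀ k, 0 < k → k ≤ s → orb (↑H : Set Edg) a k ∉ MM F G u := by
  classical
  obtain ⟨N, hN⟩ := exists_per H a0
  obtain ⟨s0, -, hs0⟩ := visited (MM_sub hFH hHG h0) hσ hN
  have hex : ∃ s, ∃ a ∈ MM F G u, orb (↑H : Set Edg) a s = σ := ⟨s0, a0, h0, hs0⟩
  obtain ⟨a, ha, hs⟩ := Nat.find_spec hex
  refine ⟨a, ha, Nat.find hex, hs, ?_⟩
  intro k hk1 hk2 hmem
  have h1 : Nat.find hex ≤ Nat.find hex - k := by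
    apply Nat.find_min' hex
    refine ⟨orb (↑H : Set Edg) a k, hmem, ?_⟩
    rw [← orb_add, Nat.sub_add_cancel hk2]
    exact hs
  omega

/-! ### Curves -/

theorem poly_eq (f : ℕ → ℂ) (N : ℕ) : poly f N = pl N f := by
  ext t
  show f 0 + ∑ j ∈ Finset.range N, _ = f 0 + ∑ k ∈ Finset.range N, _
  congr 1
  refine Finset.sum_congr rfl fun j _ => ?_
  rw [clamp, mul_comm (N : ℝ) (t : ℝ)]

theorem dist_pt (n : ℕ) (v w : Vtx) : dist (pt n v) (pt n w) ≤ 2 * ((sd v w : ℤ) : ℝ) / n := by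
  have h1 : ∀ z : ℂ, ‖z‖ ≤ |z.re| + |z.im| := Complex.norm_le_abs_re_add_abs_im
  rw [dist_eq_norm]
  refine (h1 _).trans ?_
  have e1 : (pt n v - pt n w).re = ((v.1 - w.1 : ℤ) : ℝ) / n := by
    simp only [pt, Complex.sub_re]
    push_cast
    ring
  have e2 : (pt n v - pt n w).im = ((v.2 - w.2 : ℤ) : ℝ) / n := by
    simp only [pt, Complex.sub_im]
    push_cast
    ring
  rw [e1, e2, abs_div, abs_div, ← Int.cast_abs, ← Int.cast_abs, Nat.abs_cast, ← add_div]
  apply div_le_div_of_nonneg_right _ (Nat.cast_nonneg n)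
  have h2 : |v.1 - w.1| ≤ sd v w := le_max_left _ _
  have h3 : |v.2 - w.2| ≤ sd v w := le_max_right _ _
  have h4 : ((|v.1 - w.1| : ℤ) : ℝ) ≤ ((sd v w : ℤ) : ℝ) := by exact_mod_cast h2
  have h5 : ((|v.2 - w.2| : ℤ) : ℝ) ≤ ((sd v w : ℤ) : ℝ) := by exact_mod_cast h3
  linarith

/-- Curves with matched pieces, one of them with another starting point. -/
theorem wrap {M N m : ℕ} {p q : ℕ → ℕ} (hM : 0 < M) (hN : 0 < N) (q0 : q 0 = 0) (p0 : p 0 = 0)
    (qm : q m = M) (pm : p m = N) (hq : ∀ i < m, q i < q (i + 1)) (hp : ∀ i < m, p i < p (i + 1))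
    {X Y Z : ℕ → ℂ} {r : ℝ} (hr : 0 ≤ r) {s0 : ℕ} (hs : s0 < q 1) (hX : ∀ k, X (M + k) = X k)
    (hX0 : Z 0 = X 0) (hY : Y N = X 0)
    (h1 : ∀ i < m, ∀ k, q i ≤ k → k ≤ q (i + 1) → dist (Z i) (X k) ≤ r)
    (h2 : ∀ i < m, ∀ l, p i ≤ l → l ≤ p (i + 1) → dist (Z i) (Y l) ≤ r) :
    ∃ φ : unitInterval ≃o unitInterval, ∀ s, dist (pl M (fun k => X (s0 + k)) s) (pl N Y (φ s)) ≤
      3 * r := by
  have hm : 0 < m := by
    rcases Nat.eq_zero_or_pos m with h | h
    · rw [h, q0] at qm; omega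
    · exact h
  have qmono : ∀ i t, i + t ≤ m → q i ≤ q (i + t) := by
    intro i t
    induction t with
    | zero => intro _; exact le_rfl
    | succ t ih => intro ht; exact (ih (by omega)).trans (hq (i + t) (by omega)).le
  obtain ⟨a, ha⟩ : ∃ a : ℕ → ℕ, a = fun i => if i = 0 then 0 else if i = m then M else q i - s0 :=
    ⟨_, rfl⟩
  have a0 : a 0 = 0 := by rw [ha]; simp
  have am : a m = M := by rw [ha]; simp [hm.ne']
  have ai : ∀ i, 0 < i → i < m → a i = q i - s0 := by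
    intro i h3 h4
    rw [ha]
    simp only
    rw [if_neg (by omega), if_neg (by omega)]
  have q1 : ∀ i, 0 < i → i ≤ m → s0 < q i := by
    intro i h3 h4
    have := qmono 1 (i - 1) (by omega)
    rw [show 1 + (i - 1) = i by omega] at this
    omega
  refine Pool.Agent.N839.EW.plIso M N m _ Y a p (3 * r) hM hN a0 p0 am pm ?_ hp ?_
  · intro i hi
    rcases Nat.eq_zero_or_pos i with rfl | h3
    · rw [a0]
      rcases Nat.eq_or_lt_of_le (show 0 + 1 ≤ m by omega) with h4 | h4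
      · rw [h4, am]; exact hM
      · rw [ai 1 (by omega) h4]; omega
    · rw [ai i h3 hi]
      rcases Nat.eq_or_lt_of_le (show i + 1 ≤ m by omega) with h4 | h4
      · rw [h4, am]
        have := hq i hi
        rw [h4, qm] at this
        omega
      · rw [ai (i + 1) (by omega) h4]
        have := hq i hi
        have := q1 i h3 hi.le
        omega
  · intro i hi k l hk1 hk2 hl1 hl2
    have hlo : q i ≤ s0 + k := by
      rcases Nat.eq_zero_or_pos i with rfl | h3
      · rw [q0]; omega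
      · rw [ai i h3 hi] at hk1; omega
    have hY2 := h2 i hi l hl1 hl2
    by_cases hc : s0 + k ≤ q (i + 1)
    · have h3 := h1 i hi (s0 + k) hlo hc
      have h4 := dist_triangle_left (X (s0 + k)) (Y l) (Z i)
      linarith
    · -- the last piece, after the end
      have him : i + 1 = m := by
        by_contra hne
        rw [ai (i + 1) (by omega) (by omega)] at hk2
        have := q1 (i + 1) (by omega) (by omega)
        omega
      rw [him, qm] at hc
      rw [him, am] at hk2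
      obtain ⟨k', hk'⟩ : ∃ k', s0 + k = M + k' := ⟨s0 + k - M, by omega⟩
      have e1 : X (s0 + k) = X k' := by rw [hk', hX]
      have h3 := h1 0 hm k' (by rw [q0]; omega) (by
        rw [zero_add]; omega)
      have h4 := h2 i hi (p (i + 1)) (hp i hi).le le_rfl
      rw [him, pm, hY] at h4
      rw [e1]
      have h5 := dist_triangle4 (X k') (X 0) (Z i) (Y l)
      rw [hX0, dist_comm] at h3
      rw [dist_comm] at h4
      linarith

/-- **The outer boundaries of the two clusters of a vertex are close as curves.** -/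
theorem close_loops (hFG : F ⊆ G) {ρ : ℕ} (hρ : 1 ≤ ρ) (hV : NV ρ F G u) (hW : NW ρ F G u)
    {a0 : St} (h0 : a0 ∈ MM F G u) :
    (∀ c, IsTrace n G u c → ∃ c', IsTrace n F u c' ∧
      cdist c.path c'.path ≤ 6 * ((ρ : ℝ) + 3) / n) ∧
    (∀ c, IsTrace n F u c → ∃ c', IsTrace n G u c' ∧
      cdist c.path c'.path ≤ 6 * ((ρ : ℝ) + 3) / n) := by
  have hr : (0 : ℝ) ≤ 2 * ((ρ : ℝ) + 3) / n := by positivity
  have hr3 : 3 * (2 * ((ρ : ℝ) + 3) / n) = 6 * ((ρ : ℝ) + 3) / n := by ring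
  have per_uniq : ∀ (H : Finset Edg) (a : St) (N N' : ℕ), Per (nxt (↑H : Set Edg)) a N →
      Per (nxt (↑H : Set Edg)) a N' → N = N' := by
    intro H a N N' hN hN'
    rcases lt_trichotomy N N' with h | h | h
    · exact absurd hN.2.1 (hN'.2.2 N hN.1 h)
    · exact h
    · exact absurd hN'.2.1 (hN.2.2 N' hN'.1 h)
  -- the period does not depend on the starting point
  have per_shift : ∀ (H : Finset Edg) (a : St) (s N : ℕ), Per (nxt (↑H : Set Edg)) a N →
      Per (nxt (↑H : Set Edg)) (orb (↑H : Set Edg) a s) N := by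
    intro H a s N hN
    have hc : ∀ j, (nxt (↑H : Set Edg))^[j] (orb (↑H : Set Edg) a s) =
        (nxt (↑H : Set Edg))^[s] ((nxt (↑H : Set Edg))^[j] a) := by
      intro j
      show (nxt (↑H : Set Edg))^[j] ((nxt (↑H : Set Edg))^[s] a) = _
      rw [← Function.iterate_add_apply, ← Function.iterate_add_apply, Nat.add_comm]
    refine ⟨hN.1, ?_, ?_⟩
    · rw [hc, hN.2.1]; rfl
    · intro j hj hjN h
      rw [hc] at h
      exact hN.2.2 j hj hjN (((nxt_bij _).1.iterate s) h)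
  have hpt : ∀ (v w : Vtx), sd v w ≤ ρ + 3 → dist (pt n v) (pt n w) ≤ 2 * ((ρ : ℝ) + 3) / n := by
    intro v w h
    refine (dist_pt n v w).trans ?_
    apply div_le_div_of_nonneg_right _ (Nat.cast_nonneg n)
    have h' : ((sd v w : ℤ) : ℝ) ≤ (ρ : ℝ) + 3 := by exact_mod_cast h
    linarith
  constructor
  · rintro c ⟨σ, N1, hN1, hσ1, hσ2, hσ3, hσ4, hc⟩
    have hσ : σ ∈ MM G G u := MM_plain.2 ⟨hσ1, hσ2⟩
    obtain ⟨a, ha, s0, hs, hs0⟩ := last_common hFG (Finset.Subset.refl G) h0 hσ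
    obtain ⟨N, hN⟩ := exists_per F a
    obtain ⟨M, hM⟩ := exists_per G a
    have hNM : N1 = M := by
      have h1 := per_shift G a s0 M hM
      rw [hs] at h1
      exact per_uniq G σ N1 M ⟨hN1, hσ3, hσ4⟩ h1
    obtain ⟨m, p, q, hL⟩ := loops hFG ha hN hM
    have hp := pieces hρ hV hW hFG ha hL
    have haF := MM_sub (Finset.Subset.refl F) hFG ha
    rw [MM_plain] at haF
    have hm : 0 < m := by
      rcases Nat.eq_zero_or_pos m with h | h
      · have h1 := hL.a0
        have h2 := hL.am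
        have h3 := hN.1
        rw [h] at h2
        omega
      · exact h
    refine ⟨⟨poly (fun j => pt n (orb (↑F : Set Edg) a j).1) N⟩,
      ⟨a, N, hN.1, haF.1, haF.2, hN.2.1, hN.2.2, rfl⟩, ?_⟩
    have hsq : s0 < q 1 := by
      by_contra hcon
      push Not at hcon
      have h1 := hL.bi 0 hm
      rw [hL.b0, zero_add] at h1
      have h2 := hL.mem 1 (by omega)
      rw [hL.eq 1 (by omega)] at h2
      exact hs0 _ h1 hcon h2
    obtain ⟨φ, hφ⟩ := wrap (X := fun k => pt n (orb (↑G : Set Edg) a k).1)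
      (Y := fun k => pt n (orb (↑F : Set Edg) a k).1)
      (Z := fun i => pt n (orb (↑F : Set Edg) a (p i)).1) hM.1 hN.1 hL.b0 hL.a0 hL.bm hL.am
      hL.bi hL.ai hr hsq
      (by
        intro k
        show pt n (orb (↑G : Set Edg) a (M + k)).1 = pt n (orb (↑G : Set Edg) a k).1
        rw [Nat.add_comm, orb_add]
        have : orb (↑G : Set Edg) a M = a := hM.2.1
        rw [this])
      (by
        show pt n (orb (↑F : Set Edg) a (p 0)).1 = pt n (orb (↑G : Set Edg) a 0).1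
        rw [hL.a0]; rfl)
      (by
        show pt n (orb (↑F : Set Edg) a N).1 = pt n (orb (↑G : Set Edg) a 0).1
        have : orb (↑F : Set Edg) a N = a := hN.2.1
        rw [this]; rfl)
      (fun i hi k h1 h2 => hpt _ _ ((hp i hi).2 k h1 h2))
      (fun i hi k h1 h2 => hpt _ _ ((hp i hi).1 k h1 h2))
    rw [hr3] at hφ
    refine Pool.Agent.N116.EW.cdist_le_of (by positivity) φ ?_
    intro s
    have e1 : c.path = pl M (fun k => pt n (orb (↑G : Set Edg) a (s0 + k)).1) := by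
      rw [hc, poly_eq, hNM]
      congr 1
      funext k
      rw [Nat.add_comm, orb_add, hs]
    rw [e1]
    show dist _ ((poly (fun j => pt n (orb (↑F : Set Edg) a j).1) N) (φ s)) ≤ _
    rw [poly_eq]
    exact hφ s
  · rintro c ⟨σ, N1, hN1, hσ1, hσ2, hσ3, hσ4, hc⟩
    have hσ : σ ∈ MM F F u := MM_plain.2 ⟨hσ1, hσ2⟩
    obtain ⟨a, ha, s0, hs, hs0⟩ := last_common (Finset.Subset.refl F) hFG h0 hσ
    obtain ⟨N, hN⟩ := exists_per F a
    obtain ⟨M, hM⟩ := exists_per G a
    have hNM : N1 = N := by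
      have h1 := per_shift F a s0 N hN
      rw [hs] at h1
      exact per_uniq F σ N1 N ⟨hN1, hσ3, hσ4⟩ h1
    obtain ⟨m, p, q, hL⟩ := loops hFG ha hN hM
    have hp := pieces hρ hV hW hFG ha hL
    have haG := MM_sub hFG (Finset.Subset.refl G) ha
    rw [MM_plain] at haG
    have hm : 0 < m := by
      rcases Nat.eq_zero_or_pos m with h | h
      · have h1 := hL.a0
        have h2 := hL.am
        have h3 := hN.1
        rw [h] at h2
        omega
      · exact h
    refine ⟨⟨poly (fun j => pt n (orb (↑G : Set Edg) a j).1) M⟩,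
      ⟨a, M, hM.1, haG.1, haG.2, hM.2.1, hM.2.2, rfl⟩, ?_⟩
    have hsq : s0 < p 1 := by
      by_contra hcon
      push Not at hcon
      have h1 := hL.ai 0 hm
      rw [hL.a0, zero_add] at h1
      exact hs0 _ h1 hcon (hL.mem 1 (by omega))
    obtain ⟨φ, hφ⟩ := wrap (X := fun k => pt n (orb (↑F : Set Edg) a k).1)
      (Y := fun k => pt n (orb (↑G : Set Edg) a k).1)
      (Z := fun i => pt n (orb (↑F : Set Edg) a (p i)).1) hN.1 hM.1 hL.a0 hL.b0 hL.am hL.bm
      hL.ai hL.bi hr hsq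
      (by
        intro k
        show pt n (orb (↑F : Set Edg) a (N + k)).1 = pt n (orb (↑F : Set Edg) a k).1
        rw [Nat.add_comm, orb_add]
        have : orb (↑F : Set Edg) a N = a := hN.2.1
        rw [this])
      (by
        show pt n (orb (↑F : Set Edg) a (p 0)).1 = pt n (orb (↑F : Set Edg) a 0).1
        rw [hL.a0])
      (by
        show pt n (orb (↑G : Set Edg) a M).1 = pt n (orb (↑F : Set Edg) a 0).1
        have : orb (↑G : Set Edg) a M = a := hM.2.1
        rw [this]; rfl)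
      (fun i hi k h1 h2 => hpt _ _ ((hp i hi).1 k h1 h2))
      (fun i hi k h1 h2 => hpt _ _ ((hp i hi).2 k h1 h2))
    rw [hr3] at hφ
    refine Pool.Agent.N116.EW.cdist_le_of (by positivity) φ ?_
    intro s
    have e1 : c.path = pl N (fun k => pt n (orb (↑F : Set Edg) a (s0 + k)).1) := by
      rw [hc, poly_eq, hNM]
      congr 1
      funext k
      rw [Nat.add_comm, orb_add, hs]
    rw [e1]
    show dist _ ((poly (fun j => pt n (orb (↑G : Set Edg) a j).1) M) (φ s)) ≤ _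
    rw [poly_eq]
    exact hφ s

end Pool.Agent.H950.AD
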