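import Pool.Agent.H950.AD.Id
import Pool.Agent.H950.AD.Bad
import Pool.Graph.R_pool_sql_team_seeded_63374d34.N717.EW.Det0
import Pool.Graph.R_pool_sql_team_seeded_63374d34.N717.EW.Det2

/-!
Open crossings of all columns and rows: the largest cluster is close to the whole box.
-/

set_option autoImplicit false

namespace Pool.Agent.H950.AD

open H974 H12S H389NS H984N H984P H342P H443B Finset Q291.AD
open H342P.Plain (Largest sqDist cluster clusterEdges mem_cluster edges edges_eq)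
open Pool.Agent.Results.MP_6bd702_pr.DiameterGaps (diam diam_greatest RunnerUp diam_eq)
open Pool.Agent.N116.EW (sd_comm' sd_tri En)
open Pool.Agent.N717.EW (const_path meetK no_both_T grid sd_cases)

variable {F : Finset Edg} {u v w : Vtx} {n s N : ℕ}

/-- Open crossings of all columns and rows. -/
def GU (n s N : ℕ) (F : Finset Edg) : Prop := ∀ i < N, ((i : ℤ) + 1) * s ≤ n →
  TBc ((i : ℤ) * s) (((i : ℤ) + 1) * s) 0 n F ∧ LRc 0 n ((i : ℤ) * s) (((i : ℤ) + 1) * s) F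

/-- No open crossings of columns and rows. -/
def GD (n s N : ℕ) (F : Finset Edg) : Prop := ∀ i < N, ((i : ℤ) + 1) * s ≤ n →
  ¬ LRc ((i : ℤ) * s) (((i : ℤ) + 1) * s) 0 n F ∧ ¬ TBc 0 n ((i : ℤ) * s) (((i : ℤ) + 1) * s) F

/-- The crossings of a row and of a column are connected. -/
theorem row_col {a b c d : ℤ} {n : ℕ} (hab : a < b) (hcd : c < d) (ha : 0 ≤ a) (hb : b ≤ n)
    (hc : 0 ≤ c) (hd : d ≤ n)
    {x x' y y' : ℤ} (hT : Reach ((↑F : Set Edg) ∩ ↑(TBE a b 0 n)) (x, 0) (x', (n:ℤ)))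
    (hL : Reach ((↑F : Set Edg) ∩ ↑(LRE 0 n c d)) (0, y) ((n:ℤ), y')) :
    Reach (↑F : Set Edg) (x, 0) (0, y) := by
  obtain ⟨a1, a2, ha1, ha2, hA, hA2⟩ := sub_LR (G := (↑F : Set Edg) ∩ ↑(LRE 0 (n:ℤ) c d))
    (a := a) (b := b) (c := c) (d := d) (by omega)
    (by intro x y hg _ _; have := hg.2; rw [Finset.mem_coe, mem_LRE_true] at this; omega)
    (by intro x y hg _ _; have := hg.2; rw [Finset.mem_coe, mem_LRE_false] at this; omega) hL
    (by simp only; omega) (by simp only; omega)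
  obtain ⟨b1, b2, hb1, hb2, hB, hB2⟩ := sub_TB (G := (↑F : Set Edg) ∩ ↑(TBE a b 0 (n:ℤ)))
    (a := a) (b := b) (c := c) (d := d) (by omega)
    (by intro x y hg _ _; have := hg.2; rw [Finset.mem_coe, mem_TBE_false] at this; omega)
    (by intro x y hg _ _; have := hg.2; rw [Finset.mem_coe, mem_TBE_true] at this; omega) hT
    (by simp only; omega) (by simp only; omega)
  have hsub : ∀ A B : Set Edg, ((↑F : Set Edg) ∩ A) ∩ B ⊆ (↑F : Set Edg) ∩ B :=
    fun A B e he => ⟨he.1.1, he.2⟩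
  have h := crossings_meet (F := (↑F : Set Edg)) hab hcd.le ha2 hb1 (hA.mono (hsub _ _))
    (hB.mono (hsub _ _))
  have h1 : Reach (↑F : Set Edg) (a, a1) (b1, c) := h.mono Set.inter_subset_left
  have h2 : Reach (↑F : Set Edg) (0, y) (a, a1) := hA2.mono Set.inter_subset_left
  have h3 : Reach (↑F : Set Edg) (x, 0) (b1, c) := hB2.mono Set.inter_subset_left
  exact h3.trans (h1.symm.trans h2.symm)

/-- All crossings belong to one cluster. -/
theorem grid_cluster (hs : 1 ≤ s) (hsn : s ≤ n) (hN : 1 ≤ N) (hF : GU n s N F) :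
    ∃ u : Vtx, ∃ z : ℤ, inR 0 n 0 n u ∧ u.1 = 0 ∧ Reach (↑F : Set Edg) u ((n:ℤ), z) ∧
      ∀ i < N, ((i : ℤ) + 1) * s ≤ n →
      (∃ x x', ((i : ℤ) * s ≤ x ∧ x ≤ ((i : ℤ) + 1) * s) ∧
        ((i : ℤ) * s ≤ x' ∧ x' ≤ ((i : ℤ) + 1) * s) ∧
        Reach ((↑F : Set Edg) ∩ ↑(TBE ((i : ℤ) * s) (((i : ℤ) + 1) * s) 0 n)) (x, 0) (x', n) ∧
        (x, 0) ∈ CV F u) ∧
      (∃ y y', ((i : ℤ) * s ≤ y ∧ y ≤ ((i : ℤ) + 1) * s) ∧
        ((i : ℤ) * s ≤ y' ∧ y' ≤ ((i : ℤ) + 1) * s) ∧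
        Reach ((↑F : Set Edg) ∩ ↑(LRE 0 n ((i : ℤ) * s) (((i : ℤ) + 1) * s))) (0, y) (n, y') ∧
        (0, y) ∈ CV F u) := by
  have hs0 : (0:ℤ) < s := by exact_mod_cast hs
  have hsn' : (s:ℤ) ≤ n := by exact_mod_cast hsn
  have h00 : (((0:ℕ) : ℤ) + 1) * s ≤ n := by push_cast; omega
  obtain ⟨y0, y0', hy0, hy0', hL0⟩ := (hF 0 hN h00).2
  obtain ⟨x0, x0', hx0, hx0', hT0⟩ := (hF 0 hN h00).1
  have e0 : (((0:ℕ) : ℤ)) * (s:ℤ) = 0 := by simp
  have e1 : (((0:ℕ) : ℤ) + 1) * (s:ℤ) = s := by simp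
  rw [e0, e1] at hL0 hT0 hy0 hy0' hx0 hx0'
  have hbase : Reach (↑F : Set Edg) (x0, 0) (0, y0) :=
    row_col (n := n) (by omega) (by omega) le_rfl hsn' le_rfl hsn' hT0 hL0
  refine ⟨(0, y0), y0', ?_, rfl, hL0.mono Set.inter_subset_left, ?_⟩
  · unfold inR
    simp only
    omega
  · intro i hi hin
    have e : ((i : ℤ) + 1) * s = (i : ℤ) * s + s := by ring
    have his : (0 : ℤ) ≤ (i : ℤ) * s := by positivity
    obtain ⟨x, x', hx, hx', hT⟩ := (hF i hi hin).1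
    obtain ⟨y, y', hy, hy', hL⟩ := (hF i hi hin).2
    refine ⟨⟨x, x', hx, hx', hT, ?_⟩, ⟨y, y', hy, hy', hL, ?_⟩⟩
    · have := row_col (n := n) (by omega) hs0 his hin le_rfl hsn' hT hL0
      exact this.symm
    · have h1 := row_col (n := n) hs0 (by omega) le_rfl hsn' his hin hT0 hL
      exact hbase.symm.trans h1

/-- A path in the box which avoids the cluster of the crossings is short. -/
theorem sepV (hs : 1 ≤ s) (hsn : s ≤ n) (hN1 : (n : ℤ) ≤ N * s) {K : Set Vtx}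
    (hK : ∀ e ∈ F, (src e ∈ K ↔ tgt e ∈ K))
    (hF : ∀ i < N, ((i : ℤ) + 1) * s ≤ n →
      (∃ x x', ((i : ℤ) * s ≤ x ∧ x ≤ ((i : ℤ) + 1) * s) ∧
        ((i : ℤ) * s ≤ x' ∧ x' ≤ ((i : ℤ) + 1) * s) ∧
        Reach ((↑F : Set Edg) ∩ ↑(TBE ((i : ℤ) * s) (((i : ℤ) + 1) * s) 0 n)) (x, 0) (x', n) ∧
        (x, 0) ∈ K) ∧
      (∃ y y', ((i : ℤ) * s ≤ y ∧ y ≤ ((i : ℤ) + 1) * s) ∧
        ((i : ℤ) * s ≤ y' ∧ y' ≤ ((i : ℤ) + 1) * s) ∧
        Reach ((↑F : Set Edg) ∩ ↑(LRE 0 n ((i : ℤ) * s) (((i : ℤ) + 1) * s))) (0, y) (n, y') ∧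
        (0, y) ∈ K))
    {G : Set Edg} (hG : ∀ g ∈ G, g ∈ RE 0 n 0 n ∧ src g ∉ K ∧ tgt g ∉ K)
    (hvin : inR 0 n 0 n v) (hwin : inR 0 n 0 n w) (h : Reach G v w) (hv : v ∉ K)
    (hd : v.1 + 2 * s ≤ w.1 ∨ v.2 + 2 * s ≤ w.2) : False := by
  have hs0 : (0:ℤ) < s := by exact_mod_cast hs
  have hGK : ∀ g ∈ G, (src g ∈ K ↔ tgt g ∈ K) := by
    intro g hg
    have := hG g hg
    tauto
  unfold inR at hvin hwin
  rcases hd with hd | hd
  · obtain ⟨i, hi, h1, h2⟩ := grid (l := 0) (r := n) (s := s) (N := N) hs hvin.1.1 hwin.1.2 hd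
      (by omega)
    rw [zero_add] at h1 h2
    have e : ((i : ℤ) + 1) * s = (i : ℤ) * s + s := by ring
    have his : (0 : ℤ) ≤ (i : ℤ) * s := by positivity
    obtain ⟨x, x', hx, hx', hT, hxK⟩ := (hF i hi (by omega)).1
    obtain ⟨y1, y2, hy1, hy2, hL, hL2⟩ := sub_LR (a := (i : ℤ) * s) (b := ((i : ℤ) + 1) * s)
      (c := 0) (d := n) (by omega)
      (by intro x y hg _ _; have := (hG _ hg).1; rw [mem_RE_true] at this; omega)
      (by intro x y hg _ _; have := (hG _ hg).1; rw [mem_RE_false] at this; omega) h h1 h2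
    have hm := meetK (by omega) (by omega) K hy2 hx hL hT hGK (fun g hg => hK g hg)
    have hL3 := const_path hGK hL2
    tauto
  · obtain ⟨i, hi, h1, h2⟩ := grid (l := 0) (r := n) (s := s) (N := N) hs hvin.2.1 hwin.2.2 hd
      (by omega)
    rw [zero_add] at h1 h2
    have e : ((i : ℤ) + 1) * s = (i : ℤ) * s + s := by ring
    have his : (0 : ℤ) ≤ (i : ℤ) * s := by positivity
    obtain ⟨y, y', hy, hy', hT, hyK⟩ := (hF i hi (by omega)).2
    obtain ⟨x1, x2, hx1, hx2, hL, hL2⟩ := sub_TB (a := 0) (b := n) (c := (i : ℤ) * s)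
      (d := ((i : ℤ) + 1) * s) (by omega)
      (by intro x y hg _ _; have := (hG _ hg).1; rw [mem_RE_false] at this; omega)
      (by intro x y hg _ _; have := (hG _ hg).1; rw [mem_RE_true] at this; omega) h h1 h2
    have hm := meetK (by omega) (by omega) K hy' hx1 hT hL (fun g hg => hK g hg) hGK
    have hL3 := const_path hGK hL2
    tauto

/-- A closed dual path in the box is short. -/
theorem sepF (hs : 1 ≤ s) (hsn : s ≤ n) (hN1 : (n : ℤ) ≤ N * s) (hF : GU n s N F)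
    {H : Set Edg} (hH : ∀ g ∈ H, g ∈ RE 0 n 0 n ∧ g ∉ F ∧ dsrc g ∈ Plain.box (n - 1) ∧
      dtgt g ∈ Plain.box (n - 1))
    (hv1 : 0 ≤ v.1) (hv2 : 0 ≤ v.2) (hw1 : w.1 ≤ n) (hw2 : w.2 ≤ n)
    (h : DReach H v w) (hd : v.1 + 2 * s + 1 ≤ w.1 ∨ v.2 + 2 * s + 1 ≤ w.2) : False := by
  have hs0 : (0:ℤ) < s := by exact_mod_cast hs
  have hsn' : (s:ℤ) ≤ n := by exact_mod_cast hsn
  rw [← reach_dl] at h
  have hbx : ∀ x y : ℤ, ((x, y) : Vtx) ∈ Plain.box (n - 1) → 0 ≤ x ∧ x < n ∧ 0 ≤ y ∧ y < n := by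
    intro x y h
    have := inR_of_mem h
    unfold inR at this
    simp only at this
    omega
  have hHt : ∀ x y, ((x, y, true) : Edg) ∈ dl '' H → 0 ≤ y ∧ y < n ∧ 0 ≤ x ∧ x + 1 < n ∧
      ((x + 1, y, false) : Edg) ∈ H := by
    rintro x y ⟨⟨x', y', b'⟩, he, heq⟩
    cases b'
    · rw [dl_f, Prod.mk.injEq, Prod.mk.injEq] at heq
      obtain ⟨e1, e2, -⟩ := heq
      have e3 : x + 1 = x' := by omega
      rw [e3, ← e2]
      have h1 := (hH _ he).2.2
      rw [dsrc_false, dtgt_mk] at h1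
      have h2 := hbx _ _ h1.1
      have h3 := hbx _ _ h1.2
      exact ⟨by omega, by omega, by omega, by omega, he⟩
    · rw [dl_t] at heq
      simp at heq
  have hHf : ∀ x y, ((x, y, false) : Edg) ∈ dl '' H → 0 ≤ y ∧ y + 1 < n ∧ 0 ≤ x ∧ x < n ∧
      ((x, y + 1, true) : Edg) ∈ H := by
    rintro x y ⟨⟨x', y', b'⟩, he, heq⟩
    cases b'
    · rw [dl_f] at heq
      simp at heq
    · rw [dl_t, Prod.mk.injEq, Prod.mk.injEq] at heq
      obtain ⟨e1, e2, -⟩ := heq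
      have e3 : y + 1 = y' := by omega
      rw [e3, ← e1]
      have h1 := (hH _ he).2.2
      rw [dsrc_true, dtgt_mk] at h1
      have h2 := hbx _ _ h1.1
      have h3 := hbx _ _ h1.2
      exact ⟨by omega, by omega, by omega, by omega, he⟩
  rcases hd with hd | hd
  · -- a column
    obtain ⟨i, hi, h1, h2⟩ := grid (l := 0) (r := n) (x0 := v.1 + 1) (x1 := w.1) (s := s)
      (N := N) hs (by omega) hw1 (by omega) (by omega)
    rw [zero_add] at h1 h2
    have e : ((i : ℤ) + 1) * s = (i : ℤ) * s + s := by ring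
    have his : (0 : ℤ) ≤ (i : ℤ) * s := by positivity
    obtain ⟨a, ha⟩ : ∃ a : ℤ, a = i * s := ⟨_, rfl⟩
    obtain ⟨b, hb⟩ : ∃ b : ℤ, b = ((i : ℤ) + 1) * s := ⟨_, rfl⟩
    have hab : a + s = b := by rw [ha, hb, e]
    obtain ⟨x, x', hx, hx', hT⟩ := (hF i hi (by omega)).1
    rw [← ha, ← hb] at hx hx' hT
    rw [← ha] at h1 his
    rw [← hb] at h2
    obtain ⟨y1, y2, hy1, hy2, hL, -⟩ := sub_LR (a := a - 1) (b := b) (c := 0) (d := (n:ℤ) - 1)
      (by omega)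
      (by intro x y hg _ _; have := hHt x y hg; omega)
      (by intro x y hg _ _; have := hHf x y hg; omega) h (by omega) h2
    have hDual : DReach ((↑F : Set Edg)ᶜ ∩ ↑(TBE a b 0 (n:ℤ))) (a - 1, y1) (b, y2) := by
      rw [← reach_dl]
      refine hL.mono ?_
      rintro g ⟨g1, g2⟩
      obtain ⟨g', hg', rfl⟩ := g1
      refine ⟨g', ⟨?_, ?_⟩, rfl⟩
      · intro h3
        exact (hH g' hg').2.1 (by exact_mod_cast h3)
      · have e3 : LRE (a - 1) b 0 ((n:ℤ) - 1) = dmp (TBE a b 0 n) := by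
          rw [dmp_TBE]
        rw [e3, Finset.mem_coe, mem_dmp, Equiv.symm_apply_apply] at g2
        exact g2
    exact no_both_T (by omega) hx' (by omega) hT hDual
  · -- a row
    obtain ⟨i, hi, h1, h2⟩ := grid (l := 0) (r := n) (x0 := v.2 + 1) (x1 := w.2) (s := s)
      (N := N) hs (by omega) hw2 (by omega) (by omega)
    rw [zero_add] at h1 h2
    have e : ((i : ℤ) + 1) * s = (i : ℤ) * s + s := by ring
    have his : (0 : ℤ) ≤ (i : ℤ) * s := by positivity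
    obtain ⟨c, hc⟩ : ∃ c : ℤ, c = i * s := ⟨_, rfl⟩
    obtain ⟨d, hd'⟩ : ∃ d : ℤ, d = ((i : ℤ) + 1) * s := ⟨_, rfl⟩
    have hcd : c + s = d := by rw [hc, hd', e]
    obtain ⟨y, y', hy, hy', hL⟩ := (hF i hi (by omega)).2
    rw [← hc, ← hd'] at hy hy' hL
    rw [← hc] at h1 his
    rw [← hd'] at h2
    obtain ⟨x1, x2, hx1, hx2, hT, -⟩ := sub_TB (a := 0) (b := (n:ℤ) - 1) (c := c - 1) (d := d)
      (by omega)
      (by intro x y hg _ _; have := hHf x y hg; omega)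
      (by intro x y hg _ _; have := hHt x y hg; omega) h (by omega) h2
    have hDual : DReach ((↑F : Set Edg)ᶜ ∩ ↑(LRE 0 (n:ℤ) c d)) (x1, c - 1) (x2, d) := by
      rw [← reach_dl]
      refine hT.mono ?_
      rintro g ⟨g1, g2⟩
      obtain ⟨g', hg', rfl⟩ := g1
      refine ⟨g', ⟨?_, ?_⟩, rfl⟩
      · intro h3
        exact (hH g' hg').2.1 (by exact_mod_cast h3)
      · have e3 : TBE 0 ((n:ℤ) - 1) (c - 1) d = dmp (LRE 0 n c d) := by
          rw [dmp_LRE]
        rw [e3, Finset.mem_coe, mem_dmp, Equiv.symm_apply_apply] at g2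
        exact g2
    exact no_both (by omega) hy' (by omega) hL hDual

/-! ### The full box -/

theorem full_reach (n : ℕ) {a b : Vtx} (ha : inR 0 n 0 n a) (hb : inR 0 n 0 n b) :
    Reach (↑(RE 0 n 0 n) : Set Edg) a b := by
  have key : ∀ a : Vtx, inR 0 n 0 n a → Reach (↑(RE 0 (n:ℤ) 0 n) : Set Edg) (0, 0) a := by
    rintro ⟨x, y⟩ h
    unfold inR at h
    simp only at h
    obtain ⟨k, rfl⟩ := Int.eq_ofNat_of_zero_le h.1.1
    obtain ⟨l, rfl⟩ := Int.eq_ofNat_of_zero_le h.2.1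
    have h1 : ∀ k : ℕ, k ≤ n → Reach (↑(RE 0 (n:ℤ) 0 n) : Set Edg) (0, 0) ((k:ℤ), 0) := by
      intro k
      induction k with
      | zero => intro _; exact Reach.refl _ _
      | succ k ih =>
        intro hk
        refine (ih (by omega)).trans (Adj.reach ⟨((k:ℤ), 0, true), ?_, Or.inl ⟨rfl, ?_⟩⟩)
        · rw [Finset.mem_coe, mem_RE_true]
          omega
        · simp
    have h2 : ∀ l : ℕ, l ≤ n → Reach (↑(RE 0 (n:ℤ) 0 n) : Set Edg) (0, 0) ((k:ℤ), (l:ℤ)) := by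
      intro l
      induction l with
      | zero => intro _; exact h1 k (by omega)
      | succ l ih =>
        intro hl
        refine (ih (by omega)).trans (Adj.reach ⟨((k:ℤ), (l:ℤ), false), ?_, Or.inl ⟨rfl, ?_⟩⟩)
        · rw [Finset.mem_coe, mem_RE_false]
          omega
        · simp
    exact h2 l (by omega)
  exact (key a ha).symm.trans (key b hb)

theorem not_outer_face (n : ℕ) {f : Vtx} (hf : f ∉ OF (RE 0 n 0 n) u) :
    f ∈ Plain.box (n - 1) ∧ 1 ≤ n := by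
  by_contra hcon
  apply hf
  show H342P.Outer (↑(RE 0 (n:ℤ) 0 n) : Set Edg) u f
  have hEC : (↑(RE 0 (n:ℤ) 0 n) : Set Edg)ᶜ ⊆ (EC (↑(RE 0 (n:ℤ) 0 n) : Set Edg) u)ᶜ :=
    Set.compl_subset_compl.2 (fun e he => he.1)
  have hfar : (f.1 < 0 ∨ (n:ℤ) ≤ f.1) ∨ (f.2 < 0 ∨ (n:ℤ) ≤ f.2) := by
    by_contra h
    apply hcon
    have hn : 1 ≤ n := by omega
    refine ⟨mem_of_inR ?_, hn⟩
    unfold inR
    omega
  exact (face_out (n := n) (x := f.1) (y := f.2) hfar).mono hEC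

theorem inR_reach {G : Set Edg} (hG : ∀ g ∈ G, g ∈ RE 0 (n:ℤ) 0 n) (hv : inR 0 n 0 n v)
    (h : Reach G v w) : inR 0 n 0 n w := by
  by_cases e : v = w
  · rw [← e]; exact hv
  · have h1 : Reach (↑(RE 0 (n:ℤ) 0 n) : Set Edg) v w := h.mono (fun g hg => by
      exact_mod_cast hG g hg)
    exact pb_box (Finset.Subset.refl _) h1 e

theorem CV_edge (F : Finset Edg) (u : Vtx) : ∀ e ∈ F, (src e ∈ CV F u ↔ tgt e ∈ CV F u) := by
  intro e he
  have h : Adj (↑F : Set Edg) (src e) (tgt e) := ⟨e, by exact_mod_cast he, Or.inl ⟨rfl, rfl⟩⟩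
  exact ⟨fun h1 => Reach.trans h1 h.reach, fun h1 => Reach.trans h1 h.symm.reach⟩

/-- The extents of a path. -/
theorem sepV' (hs : 1 ≤ s) (hsn : s ≤ n) (hN1 : (n : ℤ) ≤ N * s) {K : Set Vtx}
    (hK : ∀ e ∈ F, (src e ∈ K ↔ tgt e ∈ K))
    (hF : ∀ i < N, ((i : ℤ) + 1) * s ≤ n →
      (∃ x x', ((i : ℤ) * s ≤ x ∧ x ≤ ((i : ℤ) + 1) * s) ∧
        ((i : ℤ) * s ≤ x' ∧ x' ≤ ((i : ℤ) + 1) * s) ∧
        Reach ((↑F : Set Edg) ∩ ↑(TBE ((i : ℤ) * s) (((i : ℤ) + 1) * s) 0 n)) (x, 0) (x', n) ∧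
        (x, 0) ∈ K) ∧
      (∃ y y', ((i : ℤ) * s ≤ y ∧ y ≤ ((i : ℤ) + 1) * s) ∧
        ((i : ℤ) * s ≤ y' ∧ y' ≤ ((i : ℤ) + 1) * s) ∧
        Reach ((↑F : Set Edg) ∩ ↑(LRE 0 n ((i : ℤ) * s) (((i : ℤ) + 1) * s))) (0, y) (n, y') ∧
        (0, y) ∈ K))
    {G : Set Edg} (hG : ∀ g ∈ G, g ∈ RE 0 n 0 n ∧ src g ∉ K ∧ tgt g ∉ K)
    (hvin : inR 0 n 0 n v) (h : Reach G v w) (hv : v ∉ K) : sd v w < 2 * s := by
  by_contra hcon
  push Not at hcon
  have hwin := inR_reach (fun g hg => (hG g hg).1) hvin h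
  have hw : w ∉ K := by
    have := const_path (K := K) (fun g hg => by
      have h1 := (hG g hg).2
      tauto) h
    tauto
  rcases sd_cases (s := 2 * s) (ρ := 2 * s) le_rfl (by exact_mod_cast hcon) with h1 | h1
  · exact sepV hs hsn hN1 hK hF hG hvin hwin h hv (by push_cast at h1; exact h1)
  · exact sepV hs hsn hN1 hK hF hG hwin hvin h.symm hw (by push_cast at h1; exact h1)

/-- **Above the window the largest cluster is close to the full box.** -/
theorem grid_near (hs : 1 ≤ s) (hsn : 6 * s ≤ n) (hN : 1 ≤ N) (hN1 : (n : ℤ) ≤ N * s)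
    (hFE : F ⊆ RE 0 n 0 n) (hF : GU n s N F) (hv : Largest n F v) :
    Near n (6 * (2 * (s:ℝ) + 4) / n) F v (RE 0 n 0 n) v := by
  obtain ⟨u, z, hu, hu0, huz, hcr⟩ := grid_cluster hs (by omega) hN hF
  have hK := CV_edge F u
  -- the largest cluster is the one of the crossings
  have hvu : v ∈ CV F u := by
    by_contra hcon
    obtain ⟨hvb, a, ha, b, hb, hmax⟩ := hv
    rw [mem_cluster] at ha hb
    have hc : ∀ x, Reach (↑F : Set Edg) v x → x ∉ CV F u := by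
      intro x hx h1
      apply hcon
      have h2 : Reach (↑F : Set Edg) u x := h1
      exact h2.trans hx.symm
    have hab : Reach {g | g ∈ F ∧ src g ∉ CV F u ∧ tgt g ∉ CV F u} a b := by
      have key : ∀ y, Reach (↑F : Set Edg) a y →
          Reach {g | g ∈ F ∧ src g ∉ CV F u ∧ tgt g ∉ CV F u} a y := by
        intro y hy
        induction hy with
        | refl => exact Reach.refl _ _
        | @tail w y haw hs ih =>
          obtain ⟨g, hg, hE⟩ := adj_En hs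
          refine ih.trans (En_adj hE (H := {g | g ∈ F ∧ src g ∉ CV F u ∧ tgt g ∉ CV F u})
            ⟨by exact_mod_cast hg, ?_⟩).reach
          have h1 := hc w (ha.trans haw)
          have h2 := hc y (ha.trans (Reach.trans haw (En_adj hE hg).reach))
          rcases hE with ⟨h5, h6⟩ | ⟨h5, h6⟩
          · rw [← h5, ← h6]; exact ⟨h1, h2⟩
          · rw [← h5, ← h6]; exact ⟨h2, h1⟩
      exact key b (ha.symm.trans hb)
    have hain : inR 0 n 0 n a := inR_reach (fun g hg => hFE (by exact_mod_cast hg))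
      (inR_of_mem hvb) ha
    have h1 := sepV' hs (by omega) hN1 hK hcr (G := {g | g ∈ F ∧ src g ∉ CV F u ∧ tgt g ∉ CV F u})
      (fun g hg => ⟨hFE hg.1, hg.2⟩) hain hab (hc a ha)
    have h2 := hmax u (mem_of_inR hu) ((n:ℤ), z) (mem_of_inR (inR_reach
      (fun g hg => hFE (by exact_mod_cast hg)) hu huz)) ((mem_cluster _ _ _).2 huz)
    unfold sqDist at h2
    simp only at h2
    rw [hu0] at h2
    have h3 : |a.1 - b.1| < 2 * s := lt_of_le_of_lt (le_max_left _ _) h1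
    have h4 : |a.2 - b.2| < 2 * s := lt_of_le_of_lt (le_max_right _ _) h1
    have h5 : (a.1 - b.1) ^ 2 ≤ (2 * s) ^ 2 := by
      rw [← sq_abs]
      exact pow_le_pow_left₀ (abs_nonneg _) h3.le 2
    have h6 : (a.2 - b.2) ^ 2 ≤ (2 * s) ^ 2 := by
      rw [← sq_abs]
      exact pow_le_pow_left₀ (abs_nonneg _) h4.le 2
    have h7 : (6 * (s:ℤ)) ≤ n := by exact_mod_cast hsn
    have h8 : (1:ℤ) ≤ s := by exact_mod_cast hs
    have h9 : 0 ≤ (u.2 - z) ^ 2 := sq_nonneg _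
    nlinarith
  -- no long excursions
  have hV : NV (2 * s + 1) F (RE 0 n 0 n) u := by
    intro e he heF x v' hE hx hv' w hw
    have hv'in : inR 0 n 0 n v' := by
      have h1 := pb_edge (Finset.Subset.refl (RE 0 (n:ℤ) 0 n)) he
      rcases hE with ⟨-, h2⟩ | ⟨-, h2⟩
      · rw [h2]; exact h1.2
      · rw [h2]; exact h1.1
    have h1 := sepV' hs (by omega) hN1 hK hcr
      (G := {g | g ∈ RE 0 n 0 n ∧ src g ∉ CV F u ∧ tgt g ∉ CV F u})
      (fun g hg => hg) hv'in hw hv'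
    push_cast
    omega
  have hW : NW (2 * s + 1) F (RE 0 n 0 n) u := by
    intro e he heF x y z' hxe hyz hx hy hz w hw
    by_contra hcon
    push Not at hcon
    have hH : ∀ g ∈ {g : Edg | g ∉ F ∧ dsrc g ∉ OF (RE 0 n 0 n) u ∧ dtgt g ∉ OF (RE 0 n 0 n) u},
        g ∈ RE 0 n 0 n ∧ g ∉ F ∧ dsrc g ∈ Plain.box (n - 1) ∧ dtgt g ∈ Plain.box (n - 1) := by
      rintro g ⟨h1, h2, h3⟩
      have h4 := not_outer_face n h2
      have h5 := not_outer_face n h3
      refine ⟨?_, h1, h4.1, h5.1⟩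
      by_contra h6
      have h7 : ∀ g : Edg, dtgt g ∈ Plain.box (n - 1) → 1 ≤ n → g ∈ RE 0 (n:ℤ) 0 n := by
        rintro ⟨x, y, _ | _⟩ h8 h9
        · have := inR_of_mem h8
          unfold inR at this
          rw [dtgt_mk] at this
          simp only at this
          rw [mem_RE_false]
          omega
        · have := inR_of_mem h8
          unfold inR at this
          rw [dtgt_mk] at this
          simp only at this
          rw [mem_RE_true]
          omega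
      exact h6 (h7 g h5.1 h5.2)
    have hzb := not_outer_face n hz
    have hwb : w ∈ Plain.box (n - 1) := by
      by_cases hzw : z' = w
      · rw [← hzw]; exact hzb.1
      · rcases Relation.ReflTransGen.cases_tail hw with h1 | ⟨w', -, g, hg, hc⟩
        · exact absurd h1.symm hzw
        · have := hH g hg
          rcases hc with ⟨-, h2⟩ | ⟨h2, -⟩
          · rw [← h2]; exact this.2.2.2
          · rw [← h2]; exact this.2.2.1
    have k1 := inR_of_mem hzb.1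
    have k2 := inR_of_mem hwb
    unfold inR at k1 k2
    rcases sd_cases (s := 2 * s + 1) (ρ := 2 * s + 1) le_rfl hcon with h1 | h1
    · exact sepF hs (by omega) hN1 hF hH (by omega) (by omega) (by omega) (by omega) hw
        (by push_cast at h1; omega)
    · exact sepF hs (by omega) hN1 hF hH (by omega) (by omega) (by omega) (by omega) hw.symm
        (by push_cast at h1; omega)
  have hin0 : inR 0 (n:ℤ) 0 n (0, 0) := by unfold inR; simp
  have hinn : inR 0 (n:ℤ) 0 n ((n:ℤ), (n:ℤ)) := by unfold inR; simp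
  obtain ⟨a0, ha0⟩ := exists_MM (F := F) (Finset.Subset.refl (RE 0 (n:ℤ) 0 n)) hu (ρ := 2 * s + 1)
    hV (c := (0, 0)) (d := ((n:ℤ), (n:ℤ))) (full_reach n hu hin0) (full_reach n hu hinn) (by
      unfold sd
      simp only
      refine le_trans ?_ (le_max_left _ _)
      rw [zero_sub, abs_neg, Nat.abs_cast]
      push_cast
      omega)
  obtain ⟨h1, h2⟩ := close_loops (n := n) hFE (by omega) hV hW ha0
  have e1 : 6 * (((2 * s + 1 : ℕ) : ℝ) + 3) / n = 6 * (2 * (s:ℝ) + 4) / n := by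
    push_cast; ring
  rw [e1] at h1 h2
  have hnear : Near n (6 * (2 * (s:ℝ) + 4) / n) F u (RE 0 n 0 n) u := ⟨h2, h1⟩
  refine hnear.base ?_ ?_
  · rw [mem_cluster]
    exact Reach.symm hvu
  · rw [mem_cluster]
    exact full_reach n (inR_of_mem hv.1) hu

/-- **Below the window all clusters are small.** -/
theorem grid_small (hs : 1 ≤ s) (hN1 : (n : ℤ) ≤ N * s) (hFE : F ⊆ RE 0 n 0 n) (hF : GD n s N F)
    (hv : v ∈ Plain.box n) : diam F v ≤ 3 * s := by
  have hs0 : (0:ℤ) < s := by exact_mod_cast hs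
  have key : ∀ a b : Vtx, inR 0 n 0 n a → inR 0 n 0 n b → Reach (↑F : Set Edg) a b →
      ¬ (a.1 + 2 * s ≤ b.1 ∨ a.2 + 2 * s ≤ b.2) := by
    intro a b ha hb hab hd
    unfold inR at ha hb
    rcases hd with hd | hd
    · obtain ⟨i, hi, h1, h2⟩ := grid (l := 0) (r := n) (s := s) (N := N) hs ha.1.1 hb.1.2 hd
        (by omega)
      rw [zero_add] at h1 h2
      have e : ((i : ℤ) + 1) * s = (i : ℤ) * s + s := by ring
      obtain ⟨y1, y2, hy1, hy2, hL, hL2⟩ := sub_LR (a := (i : ℤ) * s) (b := ((i : ℤ) + 1) * s)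
        (c := 0) (d := n) (by omega)
        (by intro x y hg _ _; have := hFE (by exact_mod_cast hg); rw [mem_RE_true] at this; omega)
        (by intro x y hg _ _; have := hFE (by exact_mod_cast hg); rw [mem_RE_false] at this; omega)
        hab h1 h2
      exact (hF i hi (by omega)).1 ⟨y1, y2, hy1, hy2, hL⟩
    · obtain ⟨i, hi, h1, h2⟩ := grid (l := 0) (r := n) (s := s) (N := N) hs ha.2.1 hb.2.2 hd
        (by omega)
      rw [zero_add] at h1 h2
      have e : ((i : ℤ) + 1) * s = (i : ℤ) * s + s := by ring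
      obtain ⟨y1, y2, hy1, hy2, hL, hL2⟩ := sub_TB (a := 0) (b := n) (c := (i : ℤ) * s)
        (d := ((i : ℤ) + 1) * s) (by omega)
        (by intro x y hg _ _; have := hFE (by exact_mod_cast hg); rw [mem_RE_false] at this; omega)
        (by intro x y hg _ _; have := hFE (by exact_mod_cast hg); rw [mem_RE_true] at this; omega)
        hab h1 h2
      exact (hF i hi (by omega)).2 ⟨y1, y2, hy1, hy2, hL⟩
  have hFe : F ⊆ edges n := by rw [edges_eq]; exact hFE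
  obtain ⟨⟨a, ha, b, hb, hab⟩, -⟩ := diam_greatest hFe hv
  rw [← diam_eq hFe hv] at hab
  rw [hab]
  rw [mem_cluster] at ha hb
  have hain : inR 0 n 0 n a := inR_reach (fun g hg => hFE (by exact_mod_cast hg))
    (inR_of_mem hv) ha
  have hbin : inR 0 n 0 n b := inR_reach (fun g hg => hFE (by exact_mod_cast hg))
    (inR_of_mem hv) hb
  have h1 := key a b hain hbin (ha.symm.trans hb)
  have h2 := key b a hbin hain (hb.symm.trans ha)
  have h3 : |a.1 - b.1| ≤ 2 * s := by rw [abs_le]; omega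
  have h4 : |a.2 - b.2| ≤ 2 * s := by rw [abs_le]; omega
  have h5 : (a.1 - b.1) ^ 2 ≤ (2 * s) ^ 2 := by
    rw [← sq_abs]
    exact pow_le_pow_left₀ (abs_nonneg _) h3 2
  have h6 : (a.2 - b.2) ^ 2 ≤ (2 * s) ^ 2 := by
    rw [← sq_abs]
    exact pow_le_pow_left₀ (abs_nonneg _) h4 2
  apply Real.sqrt_le_iff.2
  refine ⟨by positivity, ?_⟩
  have h7 : sqDist a b ≤ 9 * (s:ℤ) ^ 2 := by
    unfold sqDist
    nlinarith
  have h8 : ((sqDist a b : ℤ) : ℝ) ≤ 9 * (s:ℝ) ^ 2 := by exact_mod_cast h7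
  nlinarith

end Pool.Agent.H950.AD
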