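import Pool.Agent.H950.AD.Far
import Pool.Agent.Results.MP_6bd702_pr.DiameterGaps

/-!
The clusters of largest diameter of two admissible configurations, and their outer boundaries.
-/

set_option autoImplicit false

namespace Pool.Agent.H950.AD

open H974 H12S H389NS H984N H984P H342P H443B Finset Q291.AD
open H342T (IsTrace poly)
open H342L (Curve cdist pt cdist_triangle cdist_comm)
open H342P.Plain (Largest sqDist cluster clusterEdges mem_cluster edges edges_eq)
open Pool.Agent.Results.MP_6bd702_pr.DiameterGaps (diam diam_greatest RunnerUp diam_eq)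
open Pool.Agent.N116.EW (sd_comm' sd_tri)

variable {F G Q L : Finset Edg} {u v w : Vtx} {n ρ : ℕ}

/-- Euclidean distance. -/
noncomputable def ed (a b : Vtx) : ℝ := Real.sqrt ((sqDist a b : ℤ) : ℝ)

theorem ed_eq (a b : Vtx) : ed a b = dist (pt 1 a) (pt 1 b) := by
  unfold ed sqDist pt
  rw [Complex.dist_eq_re_im]
  simp

theorem ed_tri (a b c : Vtx) : ed a c ≤ ed a b + ed b c := by
  rw [ed_eq, ed_eq, ed_eq]
  exact dist_triangle _ _ _

theorem ed_comm (a b : Vtx) : ed a b = ed b a := by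
  rw [ed_eq, ed_eq]
  exact dist_comm _ _

theorem ed_le (a b : Vtx) : ed a b ≤ 2 * ((sd a b : ℤ) : ℝ) := by
  rw [ed_eq]
  have := dist_pt 1 a b
  simpa using this

/-- The tracing paths of the cluster of `v` in `F` and of the cluster of `w` in `G` are within `r`
of each other. -/
def Near (n : ℕ) (r : ℝ) (F : Finset Edg) (v : Vtx) (G : Finset Edg) (w : Vtx) : Prop :=
  (∀ c, IsTrace n F v c → ∃ c', IsTrace n G w c' ∧ cdist c.path c'.path ≤ r) ∧
  (∀ c, IsTrace n G w c → ∃ c', IsTrace n F v c' ∧ cdist c.path c'.path ≤ r)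

theorem cluster_eq (h : u ∈ cluster F v) : cluster F u = cluster F v := by
  rw [mem_cluster] at h
  ext x
  rw [mem_cluster, mem_cluster]
  exact ⟨fun h1 => h.trans h1, fun h1 => h.symm.trans h1⟩

theorem trace_cluster (h : u ∈ cluster F v) {c : Curve} (hc : IsTrace n F v c) :
    IsTrace n F u c := by
  have e := cluster_eq h
  obtain ⟨σ, N, h1, h2, h3, h4, h5, h6⟩ := hc
  refine ⟨σ, N, h1, by rw [e]; exact h2, ?_, h4, h5, h6⟩
  unfold Plain.Outer clusterEdges at h3 ⊢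
  rw [e]
  exact h3

theorem self_cluster (F : Finset Edg) (v : Vtx) : v ∈ cluster F v := by
  rw [mem_cluster]
  exact Reach.refl _ _

theorem mem_cluster_comm (h : u ∈ cluster F v) : v ∈ cluster F u := by
  rw [cluster_eq h]
  exact self_cluster F v

theorem inR_of_mem (h : v ∈ Plain.box n) : inR 0 n 0 n v := by
  unfold Plain.box at h
  rw [Finset.mem_product, Finset.mem_Icc, Finset.mem_Icc] at h
  unfold inR
  omega

theorem mem_of_inR (h : inR 0 n 0 n v) : v ∈ Plain.box n := by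
  unfold Plain.box
  rw [Finset.mem_product, Finset.mem_Icc, Finset.mem_Icc]
  unfold inR at h
  omega

/-- The tracing paths of a cluster of the lower configuration and of the cluster which contains
it. -/
theorem near_low (hG : G ⊆ RE 0 n 0 n) (hρ : 1 ≤ ρ) (hB : NB ρ F Q) (hD : ND ρ F Q)
    (hL : L = F \ Q) (hA : Adm F Q G) (hu : inR 0 n 0 n u) {b : Vtx}
    (hb : Reach (↑L : Set Edg) u b) (hub : 2 * (ρ : ℤ) + 4 ≤ sd u b) :
    Near n (6 * ((ρ : ℝ) + 3) / n) G u L u := by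
  have hLG := adm_low hL hA
  have huL : u ∈ CV L u := Reach.refl _ _
  have hbL : b ∈ CV L u := hb
  have hV : NV ρ L G u := nv_of hB hL hA (far_vertex huL hbL (by omega))
  have huG : u ∈ CV G u := Reach.refl _ _
  have hbG : b ∈ CV G u := CV_mono hLG hbL
  have hW : NW ρ L G u := nw_of hD hL hA (far_face hG hu huG hbG hub)
  obtain ⟨a, ha⟩ := exists_MM hG hu hV huG hbG (by omega)
  obtain ⟨h1, h2⟩ := close_loops (n := n) hLG hρ hV hW ha
  exact ⟨h1, h2⟩

theorem Near.symm {r : ℝ} (h : Near n r F v G w) : Near n r G w F v := by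
  refine ⟨fun c hc => ?_, fun c hc => ?_⟩
  · obtain ⟨c', h1, h2⟩ := h.2 c hc
    exact ⟨c', h1, h2⟩
  · obtain ⟨c', h1, h2⟩ := h.1 c hc
    exact ⟨c', h1, h2⟩

theorem Near.trans {r s : ℝ} {H : Finset Edg} {z : Vtx} (h : Near n r F v G w)
    (h' : Near n s G w H z) : Near n (r + s) F v H z := by
  refine ⟨fun c hc => ?_, fun c hc => ?_⟩
  · obtain ⟨c', h1, h2⟩ := h.1 c hc
    obtain ⟨c'', h3, h4⟩ := h'.1 c' h1
    exact ⟨c'', h3, (cdist_triangle _ _ _).trans (add_le_add h2 h4)⟩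
  · obtain ⟨c', h1, h2⟩ := h'.2 c hc
    obtain ⟨c'', h3, h4⟩ := h.2 c' h1
    refine ⟨c'', h3, (cdist_triangle _ c'.path _).trans ?_⟩
    rw [add_comm r s]
    exact add_le_add h2 h4

theorem Near.mono {r s : ℝ} (h : Near n r F v G w) (hrs : r ≤ s) : Near n s F v G w := by
  refine ⟨fun c hc => ?_, fun c hc => ?_⟩
  · obtain ⟨c', h1, h2⟩ := h.1 c hc
    exact ⟨c', h1, h2.trans hrs⟩
  · obtain ⟨c', h1, h2⟩ := h.2 c hc
    exact ⟨c', h1, h2.trans hrs⟩

theorem Near.base {r : ℝ} {v' w' : Vtx} (h : Near n r F v G w) (hv : v ∈ cluster F v')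
    (hw : w ∈ cluster G w') : Near n r F v' G w' := by
  refine ⟨fun c hc => ?_, fun c hc => ?_⟩
  · obtain ⟨c', h1, h2⟩ := h.1 c (trace_cluster hv hc)
    exact ⟨c', trace_cluster (mem_cluster_comm hw) h1, h2⟩
  · obtain ⟨c', h1, h2⟩ := h.2 c (trace_cluster hw hc)
    exact ⟨c', trace_cluster (mem_cluster_comm hv) h1, h2⟩

/-- **The outer boundaries of the largest clusters of two admissible configurations.** -/
theorem near_largest (hF : F ⊆ RE 0 n 0 n) (hQ : Q ⊆ RE 0 n 0 n) (hρ : 1 ≤ ρ) (hB : NB ρ F Q)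
    (hD : ND ρ F Q) (hG : Adm F Q G) (hv : Largest n F v) (hw : Largest n G w)
    (hrun : ¬ RunnerUp n (8 * ρ) F) (hbig : 20 * (ρ : ℝ) ≤ diam F v) :
    Near n (12 * ((ρ : ℝ) + 3) / n) F v G w := by
  obtain ⟨L, hL⟩ : ∃ L, L = F \ Q := ⟨_, rfl⟩
  have hρ' : (1 : ℝ) ≤ ρ := by exact_mod_cast hρ
  have hFe : F ⊆ edges n := by rw [edges_eq]; exact hF
  have hGE : G ⊆ RE 0 n 0 n := hG.sub hF hQ
  have hLF : L ⊆ F := by rw [hL]; exact Finset.sdiff_subset
  -- the diameter of the largest cluster of `G`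
  obtain ⟨⟨a, ha, b, hb, hab⟩, hmax⟩ := diam_greatest hFe hv.1
  rw [← diam_eq hFe hv.1] at hab hmax
  have hab' : Reach (↑F : Set Edg) a b := by
    rw [mem_cluster] at ha hb
    exact ha.symm.trans hb
  obtain ⟨a1, b1, h1, h2, h3, -⟩ := ident hB hL (Adm.self F Q) hab'
  have hed1 : ed a b ≤ ed a1 b1 + 4 * ρ := by
    have k1 := ed_tri a a1 b
    have k2 := ed_tri a1 b1 b
    have k3 := ed_le a a1
    have k4 := ed_le b b1
    rw [ed_comm b1 b] at k2
    have k5 : ((sd a a1 : ℤ) : ℝ) ≤ ρ := by exact_mod_cast h1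
    have k6 : ((sd b b1 : ℤ) : ℝ) ≤ ρ := by exact_mod_cast h2
    linarith
  have hab2 : diam F v = ed a b := hab
  have hbox : ∀ x y : Vtx, Reach (↑G : Set Edg) x y → x ≠ y → x ∈ Plain.box n ∧ y ∈ Plain.box n := by
    intro x y hxy hne
    exact ⟨mem_of_inR (pb_box hGE hxy.symm (Ne.symm hne)), mem_of_inR (pb_box hGE hxy hne)⟩
  have hed0 : ∀ x y : Vtx, 0 < ed x y → x ≠ y := by
    rintro x y h rfl
    rw [ed_eq, dist_self] at h
    exact lt_irrefl _ h
  have hLG := adm_low hL hG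
  have h3G : Reach (↑G : Set Edg) a1 b1 := h3.mono (by exact_mod_cast hLG)
  obtain ⟨hwb, a2, ha2, b2, hb2, hmaxG⟩ := hw
  have hab1 := hbox a1 b1 h3G (hed0 a1 b1 (by linarith))
  have hed2 : ed a1 b1 ≤ ed a2 b2 := by
    apply Real.sqrt_le_sqrt
    have := hmaxG a1 hab1.1 b1 hab1.2 ((mem_cluster _ _ _).2 h3G)
    exact_mod_cast this
  have hab2' : Reach (↑G : Set Edg) a2 b2 := by
    rw [mem_cluster] at ha2 hb2
    exact ha2.symm.trans hb2
  obtain ⟨x, y, h4, h5, h6, h7⟩ := ident hB hL hG hab2'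
  have hed3 : ed a2 b2 ≤ ed x y + 4 * ρ := by
    have k1 := ed_tri a2 x b2
    have k2 := ed_tri x y b2
    have k3 := ed_le a2 x
    have k4 := ed_le b2 y
    rw [ed_comm y b2] at k2
    have k5 : ((sd a2 x : ℤ) : ℝ) ≤ ρ := by exact_mod_cast h4
    have k6 : ((sd b2 y : ℤ) : ℝ) ≤ ρ := by exact_mod_cast h5
    linarith
  have hxy := hbox x y (h6.mono (by exact_mod_cast hLG)) (hed0 x y (by linarith))
  -- the cluster of `x` in `F` is the largest one
  have hxF : x ∈ cluster F v := by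
    by_contra hcon
    apply hrun
    refine ⟨v, hv, x, hxy.1, hcon, ?_⟩
    obtain ⟨-, hmx⟩ := diam_greatest hFe hxy.1
    rw [← diam_eq hFe hxy.1] at hmx
    have k1 : ed x y ≤ diam F x := hmx ⟨x, self_cluster F x, y,
      (mem_cluster _ _ _).2 (h6.mono (by exact_mod_cast hLF)), rfl⟩
    linarith
  have hxG : x ∈ cluster G w := by
    rw [mem_cluster] at ha2 ⊢
    exact ha2.trans h7
  have hsd : 2 * (ρ : ℤ) + 4 ≤ sd x y := by
    have k1 := ed_le x y
    have k2 : 2 * (ρ : ℝ) + 4 ≤ ((sd x y : ℤ) : ℝ) := by linarith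
    exact_mod_cast k2
  have hx := inR_of_mem hxy.1
  have n1 := near_low hF hρ hB hD hL (Adm.self F Q) hx h6 hsd
  have n2 := near_low hGE hρ hB hD hL hG hx h6 hsd
  have n3 := n1.trans n2.symm
  refine (n3.mono ?_).base hxF hxG
  have : 6 * ((ρ : ℝ) + 3) / n + 6 * ((ρ : ℝ) + 3) / n = 12 * ((ρ : ℝ) + 3) / n := by ring
  linarith

end Pool.Agent.H950.AD
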