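import Pool.Agent.H950.AD.Cyc
import Pool.Graph.R_pool_sql_team_seeded_63374d34.N116.EW.Match
import Pool.Graph.R_seed8.H342R3.Tig.ORB

/-!
The outer interfaces of the clusters of a vertex in two configurations `F ⊆ G` visit the states
between the cluster of `F` and the unbounded component of the complement of the cluster of `G` in
the same cyclic order; between two such states they make excursions.
-/

set_option autoImplicit false

namespace Pool.Agent.H950.AD

open H974 H12S H389NS H984N H984P H342P H443B Finset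
open Pool.Agent.N116.EW (s1 s2 ae_s1 s1_ne_s2 nxt_insert sd_comm' sd_tri sd_self' sd_nxt sd_mv
  sd_face sd_face_rt En)

variable {F G : Finset Edg} {u : Vtx}

/-- The vertices of the cluster. -/
def CV (F : Finset Edg) (u : Vtx) : Set Vtx := {v | Reach (↑F : Set Edg) u v}

/-- The faces of the unbounded component. -/
def OF (G : Finset Edg) (u : Vtx) : Set Vtx := {f | H342P.Outer (↑G : Set Edg) u f}

/-- States between the cluster for `F` and the unbounded component for `G`. -/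
def MM (F G : Finset Edg) (u : Vtx) : Set St := {σ | σ.1 ∈ CV F u ∧ face σ ∈ OF G u}

theorem CV_mono (h : F ⊆ G) : CV F u ⊆ CV G u := fun _ hv => Reach.mono (by exact_mod_cast h) hv

theorem EC_mono (h : F ⊆ G) : EC (↑F : Set Edg) u ⊆ EC (↑G : Set Edg) u := by
  rintro e ⟨h1, h2⟩
  exact ⟨by exact_mod_cast h h1, h2.mono (by exact_mod_cast h)⟩

theorem OF_anti (h : F ⊆ G) : OF G u ⊆ OF F u := by
  intro f hf
  have h1 : DReach (EC (↑G : Set Edg) u)ᶜ f (-1, -1) := hf
  exact h1.mono (Set.compl_subset_compl.2 (EC_mono h))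

theorem MM_sub {H : Finset Edg} (h1 : F ⊆ H) (h2 : H ⊆ G) : MM F G u ⊆ MM H H u :=
  fun _ hσ => ⟨CV_mono h1 hσ.1, OF_anti h2 hσ.2⟩

theorem MM_anti {H : Finset Edg} (h2 : H ⊆ G) : MM F G u ⊆ MM F H u :=
  fun _ hσ => ⟨hσ.1, OF_anti h2 hσ.2⟩

/-- Crossing an edge which is not an edge of the cluster. -/
theorem OF_step {f g : Vtx} {e : Edg} (he : e ∉ EC (↑G : Set Edg) u)
    (hfg : (dsrc e = f ∧ dtgt e = g) ∨ (dsrc e = g ∧ dtgt e = f)) (hf : f ∈ OF G u) :
    g ∈ OF G u := by
  have h1 : DReach (EC (↑G : Set Edg) u)ᶜ f (-1, -1) := hf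
  have h2 : DAdj (EC (↑G : Set Edg) u)ᶜ g f := by
    refine ⟨e, he, ?_⟩
    rcases hfg with h | h
    · exact Or.inr h
    · exact Or.inl h
  exact h2.reach.trans h1

theorem OF_reach {f g : Vtx} (h : DReach (↑G : Set Edg)ᶜ f g) (hf : f ∈ OF G u) :
    g ∈ OF G u := by
  have h1 : DReach (EC (↑G : Set Edg) u)ᶜ f (-1, -1) := hf
  have h2 : DReach (EC (↑G : Set Edg) u)ᶜ g f :=
    h.symm.mono (Set.compl_subset_compl.2 (fun _ hx => hx.1))
  exact h2.trans h1

theorem orb_MM {a : St} (ha : a ∈ MM G G u) (k : ℕ) : orb (↑G : Set Edg) a k ∈ MM G G u := by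
  refine ⟨?_, ?_⟩
  · have h1 : Reach (↑G : Set Edg) u a.1 := ha.1
    exact h1.trans (P17.orb_vertex k)
  · exact OF_reach (pb_dreach (↑G : Set Edg) a k) ha.2

theorem exists_per (F : Finset Edg) (a : St) : ∃ N, Per (nxt (↑F : Set Edg)) a N := by
  classical
  have h := P17.periodic F a
  exact ⟨Nat.find h, (Nat.find_spec h).1, (Nat.find_spec h).2,
    fun j hj hjN he => Nat.find_min h hjN ⟨hj, he⟩⟩

theorem MM_plain {σ : St} : σ ∈ MM F F u ↔ σ.1 ∈ Plain.cluster F u ∧ Plain.Outer F u (face σ) := by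
  rw [Plain.mem_cluster, Plain.outer_iff]
  rfl

/-- All outer states are visited. -/
theorem visited {a σ : St} (ha : a ∈ MM F F u) (hσ : σ ∈ MM F F u) {N : ℕ}
    (hN : Per (nxt (↑F : Set Edg)) a N) : ∃ s, s < N ∧ orb (↑F : Set Edg) a s = σ := by
  rw [MM_plain] at ha hσ
  obtain ⟨s, hs⟩ := H342T.t_ORB F u a σ ha.1 hσ.1 ha.2 hσ.2
  refine ⟨s % N, Nat.mod_lt _ hN.1, ?_⟩
  have h1 : ∀ q r : ℕ, orb (↑F : Set Edg) a (r + N * q) = orb (↑F : Set Edg) a r := by
    intro q r
    rw [orb_add, Nat.mul_comm, pb_period_mul hN.2.1]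
  rw [← Nat.mod_add_div s N, h1] at hs
  exact hs

/-- One more open edge. -/
theorem ord_step {e : Edg} {a : St} {N N' : ℕ} (hN : Per (nxt (↑F : Set Edg)) a N)
    (hN' : Per (nxt (↑(insert e F) : Set Edg)) a N') {i j i' j' : ℕ}
    (hi : i < N) (hj : j < N) (hi' : i' < N') (hj' : j' < N')
    (hσ : orb (↑F : Set Edg) a i = orb (↑(insert e F) : Set Edg) a i')
    (hτ : orb (↑F : Set Edg) a j = orb (↑(insert e F) : Set Edg) a j') : i < j ↔ i' < j' := by
  by_cases he : e ∈ F
  · rw [Finset.insert_eq_of_mem he] at hN' hσ hτ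
    have hNN : N = N' := by
      rcases lt_trichotomy N N' with h | h | h
      · exact absurd hN.2.1 (hN'.2.2 N hN.1 h)
      · exact h
      · exact absurd hN'.2.1 (hN.2.2 N' hN'.1 h)
    subst hNN
    rw [hN.inj (nxt_bij _).1 hi hi' hσ, hN.inj (nxt_bij _).1 hj hj' hτ]
  · have he' : e ∉ (↑F : Set Edg) := he
    obtain ⟨h1, h2, h3⟩ := nxt_insert he'
    rw [← Finset.coe_insert] at h1 h2 h3
    exact ord_cyc (nxt_bij _).1 (nxt_bij _).1 (s1_ne_s2 e) h1 h2 h3 hN hN' hi hj hi' hj' hσ hτ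

/-- The same order. -/
theorem ord_all (u : Vtx) (T : Finset Edg) : ∀ (F : Finset Edg) (a σ τ : St), a ∈ MM F (F ∪ T) u →
    σ ∈ MM F (F ∪ T) u → τ ∈ MM F (F ∪ T) u → ∀ N N' : ℕ, Per (nxt (↑F : Set Edg)) a N →
    Per (nxt (↑(F ∪ T) : Set Edg)) a N' → ∀ i j i' j' : ℕ, i < N → j < N → i' < N' → j' < N' →
    orb (↑F : Set Edg) a i = σ → orb (↑(F ∪ T) : Set Edg) a i' = σ → orb (↑F : Set Edg) a j = τ →
    orb (↑(F ∪ T) : Set Edg) a j' = τ → (i < j ↔ i' < j') := by
  induction T using Finset.induction_on with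
  | empty =>
    intro F a σ τ _ _ _ N N' hN hN' i j i' j' hi hj hi' hj' h1 h2 h3 h4
    rw [Finset.union_empty] at hN' h2 h4
    have hNN : N = N' := by
      rcases lt_trichotomy N N' with h | h | h
      · exact absurd hN.2.1 (hN'.2.2 N hN.1 h)
      · exact h
      · exact absurd hN'.2.1 (hN.2.2 N' hN'.1 h)
    subst hNN
    rw [hN.inj (nxt_bij _).1 hi hi' (h1.trans h2.symm), hN.inj (nxt_bij _).1 hj hj' (h3.trans h4.symm)]
  | insert e T _ ih =>
    intro F a σ τ ha hσ hτ N N' hN hN' i j i' j' hi hj hi' hj' h1 h2 h3 h4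
    have hu : F ∪ insert e T = insert e (F ∪ T) := by
      rw [Finset.union_insert]
    rw [hu] at ha hσ hτ hN' h2 h4
    have hsub : F ∪ T ⊆ insert e (F ∪ T) := Finset.subset_insert _ _
    have hFs : F ⊆ F ∪ T := Finset.subset_union_left
    have ha0 : a ∈ MM F (F ∪ T) u := MM_anti hsub ha
    have hσ0 : σ ∈ MM F (F ∪ T) u := MM_anti hsub hσ
    have hτ0 : τ ∈ MM F (F ∪ T) u := MM_anti hsub hτ
    obtain ⟨M, hM⟩ := exists_per (F ∪ T) a
    have ha1 := MM_sub hFs (Finset.Subset.refl _) ha0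
    obtain ⟨i0, hi0, e0⟩ := visited ha1 (MM_sub hFs (Finset.Subset.refl _) hσ0) hM
    obtain ⟨j0, hj0, f0⟩ := visited ha1 (MM_sub hFs (Finset.Subset.refl _) hτ0) hM
    have k1 := ih F a σ τ ha0 hσ0 hτ0 N M hN hM i j i0 j0 hi hj hi0 hj0 h1 e0 h3 f0
    have k2 := ord_step hM hN' hi0 hj0 hi' hj' (e0.trans h2.symm) (f0.trans h4.symm)
    exact k1.trans k2

theorem ord_orb (hFG : F ⊆ G) {a σ τ : St} (ha : a ∈ MM F G u) (hσ : σ ∈ MM F G u)
    (hτ : τ ∈ MM F G u) {N N' : ℕ} (hN : Per (nxt (↑F : Set Edg)) a N)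
    (hN' : Per (nxt (↑G : Set Edg)) a N') {i j i' j' : ℕ} (hi : i < N) (hj : j < N) (hi' : i' < N')
    (hj' : j' < N') (h1 : orb (↑F : Set Edg) a i = σ) (h2 : orb (↑G : Set Edg) a i' = σ)
    (h3 : orb (↑F : Set Edg) a j = τ) (h4 : orb (↑G : Set Edg) a j' = τ) : i < j ↔ i' < j' := by
  have hu : F ∪ G = G := Finset.union_eq_right.2 hFG
  have := ord_all u G F a σ τ
  rw [hu] at this
  exact this ha hσ hτ N N' hN hN' i j i' j' hi hj hi' hj' h1 h2 h3 h4

/-- The data of a matching of two closed orbits. -/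
structure Lm (F G : Finset Edg) (u : Vtx) (a : St) (N N' m : ℕ) (p q : ℕ → ℕ) : Prop where
  a0 : p 0 = 0
  b0 : q 0 = 0
  am : p m = N
  bm : q m = N'
  ai : ∀ i < m, p i < p (i + 1)
  bi : ∀ i < m, q i < q (i + 1)
  eq : ∀ i ≤ m, orb (↑F : Set Edg) a (p i) = orb (↑G : Set Edg) a (q i)
  mem : ∀ i ≤ m, orb (↑F : Set Edg) a (p i) ∈ MM F G u
  ga : ∀ i < m, ∀ k, p i < k → k < p (i + 1) → orb (↑F : Set Edg) a k ∉ MM F G u
  gb : ∀ i < m, ∀ k, q i < k → k < q (i + 1) → orb (↑G : Set Edg) a k ∉ MM F G u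

/-- **Matched pieces.** -/
theorem loops (hFG : F ⊆ G) {a : St} (ha : a ∈ MM F G u) {N N' : ℕ}
    (hN : Per (nxt (↑F : Set Edg)) a N) (hN' : Per (nxt (↑G : Set Edg)) a N') :
    ∃ (m : ℕ) (p q : ℕ → ℕ), Lm F G u a N N' m p q := by
  classical
  obtain ⟨M, hM⟩ : ∃ M : Set (Option St), M = {x | x = none ∨ ∃ σ ∈ MM F G u, x = some σ} :=
    ⟨_, rfl⟩
  have hn : (none : Option St) ∈ M := by rw [hM]; exact Or.inl rfl
  have hs : ∀ σ, some σ ∈ M ↔ σ ∈ MM F G u := by
    intro σ
    rw [hM]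
    constructor
    · rintro (h | ⟨τ, hτ, h⟩)
      · exact absurd h (by simp)
      · rw [Option.some.inj h]; exact hτ
    · intro h
      exact Or.inr ⟨σ, h, rfl⟩
  obtain ⟨P, hP⟩ : ∃ P : ℕ → Option St, P = fun k => (ct (nxt (↑F : Set Edg)) a)^[k] (some a) :=
    ⟨_, rfl⟩
  obtain ⟨Q, hQ⟩ : ∃ Q : ℕ → Option St, Q = fun k => (ct (nxt (↑G : Set Edg)) a)^[k] (some a) :=
    ⟨_, rfl⟩
  have P1 : ∀ k < N, P k = some (orb (↑F : Set Edg) a k) := by
    intro k hk
    rw [hP]
    exact ct_iter hN k hk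
  have P2 : P N = none := by rw [hP]; exact ct_last hN
  have Q1 : ∀ k < N', Q k = some (orb (↑G : Set Edg) a k) := by
    intro k hk
    rw [hQ]
    exact ct_iter hN' k hk
  have Q2 : Q N' = none := by rw [hQ]; exact ct_last hN'
  have iP : ∀ i j, i ≤ N → j ≤ N → P i = P j → i = j := by
    intro i j hi hj h
    rw [hP] at h
    exact ct_inj' (nxt_bij _).1 hN i j hi hj h
  have iQ : ∀ i j, i ≤ N' → j ≤ N' → Q i = Q j → i = j := by
    intro i j hi hj h
    rw [hQ] at h
    exact ct_inj' (nxt_bij _).1 hN' i j hi hj h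
  have PN : ∀ k ≤ N, P k = none → k = N := by
    intro k hk h
    exact iP k N hk le_rfl (h.trans P2.symm)
  have QN : ∀ k ≤ N', Q k = none → k = N' := by
    intro k hk h
    exact iQ k N' hk le_rfl (h.trans Q2.symm)
  have haF := MM_sub (Finset.Subset.refl F) hFG ha
  have haG := MM_sub hFG (Finset.Subset.refl G) ha
  obtain ⟨m, p, q, h⟩ := abs_match M P Q iQ (N := N) (N' := N')
    (by rw [hP, hQ]; rfl) (P2.trans Q2.symm)
    (by rw [P1 0 hN.1, hs]; exact ha) (by rw [P2]; exact hn)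
    (by
      intro k hk hkM
      rcases Nat.eq_or_lt_of_le hk with rfl | hk
      · exact ⟨N', le_rfl, Q2.trans P2.symm⟩
      · rw [P1 k hk, hs] at hkM
        obtain ⟨s, hs1, hs2⟩ := visited haG (MM_sub hFG (Finset.Subset.refl G) hkM) hN'
        exact ⟨s, hs1.le, by rw [Q1 s hs1, P1 k hk, hs2]⟩)
    (by
      intro k hk hkM
      rcases Nat.eq_or_lt_of_le hk with rfl | hk
      · exact ⟨N, le_rfl, P2.trans Q2.symm⟩
      · rw [Q1 k hk, hs] at hkM
        obtain ⟨s, hs1, hs2⟩ := visited haF (MM_sub (Finset.Subset.refl F) hFG hkM) hN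
        exact ⟨s, hs1.le, by rw [P1 s hs1, Q1 k hk, hs2]⟩)
    (by
      intro i j i' j' hi hj hi' hj' hiM hjM h1 h2
      rcases Nat.eq_or_lt_of_le hi with rfl | hi
      · rw [P2] at h1
        have := QN i' hi' h1.symm
        omega
      rcases Nat.eq_or_lt_of_le hj with rfl | hj
      · rw [P2] at h2
        have e1 := QN j' hj' h2.symm
        have e2 : i' ≠ N' := by
          rintro rfl
          rw [Q2, P1 i hi] at h1
          exact absurd h1 (by simp)
        omega
      have hi1 : i' ≠ N' := by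
        rintro rfl
        rw [Q2, P1 i hi] at h1
        exact absurd h1 (by simp)
      have hj1 : j' ≠ N' := by
        rintro rfl
        rw [Q2, P1 j hj] at h2
        exact absurd h2 (by simp)
      rw [P1 i hi] at hiM h1
      rw [P1 j hj] at hjM h2
      rw [Q1 i' (by omega)] at h1
      rw [Q1 j' (by omega)] at h2
      rw [hs] at hiM hjM
      exact ord_orb hFG ha hiM hjM hN hN' hi hj (by omega) (by omega) rfl
        (Option.some.inj h1).symm rfl (Option.some.inj h2).symm)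
  have pm : ∀ i ≤ m, p i ≤ N := by
    intro i hi
    have key : ∀ t, i + t ≤ m → p i ≤ p (i + t) := by
      intro t
      induction t with
      | zero => intro _; exact le_rfl
      | succ t ih => intro ht; exact (ih (by omega)).trans (h.ai (i + t) (by omega)).le
    have := key (m - i) (by omega)
    rw [show i + (m - i) = m by omega, h.am] at this
    exact this
  have pm' : ∀ i < m, p i < N := by
    intro i hi
    exact lt_of_lt_of_le (h.ai i hi) (pm (i + 1) (by omega))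
  have qm : ∀ i ≤ m, q i ≤ N' := by
    intro i hi
    have key : ∀ t, i + t ≤ m → q i ≤ q (i + t) := by
      intro t
      induction t with
      | zero => intro _; exact le_rfl
      | succ t ih => intro ht; exact (ih (by omega)).trans (h.bi (i + t) (by omega)).le
    have := key (m - i) (by omega)
    rw [show i + (m - i) = m by omega, h.bm] at this
    exact this
  have qm' : ∀ i < m, q i < N' := by
    intro i hi
    exact lt_of_lt_of_le (h.bi i hi) (qm (i + 1) (by omega))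
  refine ⟨m, p, q, h.a0, h.b0, h.am, h.bm, h.ai, h.bi, ?_, ?_, ?_, ?_⟩
  · intro i hi
    rcases Nat.eq_or_lt_of_le hi with rfl | hi
    · rw [h.am, h.bm]
      exact hN.2.1.trans hN'.2.1.symm
    · have := h.eq i hi.le
      rw [P1 _ (pm' i hi), Q1 _ (qm' i hi)] at this
      exact Option.some.inj this
  · intro i hi
    rcases Nat.eq_or_lt_of_le hi with rfl | hi
    · rw [h.am]
      have e : orb (↑F : Set Edg) a N = a := hN.2.1
      rw [e]; exact ha
    · have := h.mem i hi.le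
      rw [P1 _ (pm' i hi), hs] at this
      exact this
  · intro i hi k hk1 hk2
    have := h.ga i hi k hk1 hk2
    have hkN : k < N := lt_of_lt_of_le hk2 (pm (i + 1) (by omega))
    rw [P1 k hkN, hs] at this
    exact this
  · intro i hi k hk1 hk2
    have := h.gb i hi k hk1 hk2
    have hkN : k < N' := lt_of_lt_of_le hk2 (qm (i + 1) (by omega))
    rw [Q1 k hkN, hs] at this
    exact this

end Pool.Agent.H950.AD
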