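import Pool.Agent.H950.AD.Grid
import Pool.Graph.R_pool_sql_team_seeded_63374d34.N717.EW.SUP

/-!
Outside of the window, probability estimates.
-/

set_option autoImplicit false

namespace Pool.Agent.H950.AD

open H974 H12S H389NS H984N H984P H342P H443B Finset Q291.AD
open H342P.Plain (Largest sqDist cluster clusterEdges mem_cluster edges edges_eq)
open Pool.Agent.Results.MP_6bd702_pr.DiameterGaps (diam diam_greatest RunnerUp diam_eq)
open Pool.Agent.N717.EW (WinC union2 Pr_cond)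

/-- bounds outside of the window, for large `n` -/
theorem win_large {r : ℝ} (hr : 0 < r) : ∃ C c n0 : ℝ, 0 < C ∧ 0 < c ∧ 0 < n0 ∧ ∀ (n : ℕ) (p : ℝ),
    n0 ≤ n → 1/2 ≤ p → p ≤ 1 →
    Pr (fun _ => p) (RE 0 n 0 n) (fun F => ∃ v, Largest n F v ∧
      ¬ Near n r F v (RE 0 n 0 n) v) ≤ C * Real.exp (-(c * (n * (p - 1/2)^(4/3 : ℝ)))) ∧
    Pr (fun _ => 1 - p) (RE 0 n 0 n) (fun F => ∃ v ∈ Plain.box n, r * n < diam F v) ≤
      C * Real.exp (-(c * (n * (p - 1/2)^(4/3 : ℝ)))) := by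
  obtain ⟨r', hr'⟩ : ∃ r', r' = min r 1 := ⟨_, rfl⟩
  have hr'0 : 0 < r' := by rw [hr']; exact lt_min hr one_pos
  have hr'r : r' ≤ r := by rw [hr']; exact min_le_left _ _
  have hr'1 : r' ≤ 1 := by rw [hr']; exact min_le_right _ _
  obtain ⟨K, hK⟩ : ∃ K : ℕ, K = ⌈48 / r'⌉₊ + 1 := ⟨_, rfl⟩
  have hK1 : 1 ≤ K := by omega
  have hKr : 48 / r' ≤ K := by
    rw [hK]
    push_cast
    have := Nat.le_ceil (48 / r')
    linarith
  obtain ⟨c0, C0, hc0, hC0, hw⟩ := Pool.Agent.W424.NC.win_upper K hK1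
  refine ⟨2 * K * C0, c0 * r' / 48, 48 / r', by positivity, by positivity, by positivity, ?_⟩
  intro n p hn0 hp1 hp2
  have hn : 48 ≤ r' * n := by
    rw [div_le_iff₀ hr'0] at hn0
    linarith
  have hn' : (0:ℝ) < n := by
    by_contra h
    push Not at h
    nlinarith
  obtain ⟨s, hs⟩ : ∃ s : ℕ, s = ⌊r' * n / 24⌋₊ := ⟨_, rfl⟩
  have hs1 : (s : ℝ) ≤ r' * n / 24 := by rw [hs]; exact Nat.floor_le (by positivity)
  have hs2 : r' * n / 24 < s + 1 := by rw [hs]; exact Nat.lt_floor_add_one _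
  have hs3 : r' * n / 48 ≤ s := by linarith
  have hs4 : 1 ≤ s := by
    have h1 : (1:ℝ) < ((s + 1 : ℕ) : ℝ) := by push_cast; linarith
    have h2 : 1 < s + 1 := by exact_mod_cast h1
    omega
  have hr'n : r' * n ≤ n := by nlinarith
  have hrn : r' * n ≤ r * n := mul_le_mul_of_nonneg_right hr'r hn'.le
  have h6 : 6 * s ≤ n := by
    have : ((6 * s : ℕ) : ℝ) ≤ (n : ℝ) := by push_cast; linarith
    exact_mod_cast this
  have hnK : n ≤ K * s := by
    have h1 : 48 / r' * (r' * n / 48) = n := by field_simp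
    have h2 : 48 / r' * (r' * n / 48) ≤ K * s :=
      mul_le_mul hKr hs3 (by positivity) (by positivity)
    have h3 : (n:ℝ) ≤ ((K * s : ℕ) : ℝ) := by push_cast; linarith
    exact_mod_cast h3
  have hnK' : (n : ℤ) ≤ (K:ℤ) * s := by exact_mod_cast hnK
  -- bounds
  obtain ⟨x, hx⟩ : ∃ x : ℝ, x = (p - 1/2)^(4/3 : ℝ) := ⟨_, rfl⟩
  have hx0 : 0 ≤ x := by rw [hx]; exact Real.rpow_nonneg (by linarith) _
  rw [← hx]
  obtain ⟨t, ht⟩ : ∃ t : ℝ, t = C0 * Real.exp (-(c0 * r' / 48 * (n * x))) := ⟨_, rfl⟩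
  have ht0 : 0 ≤ t := by rw [ht]; positivity
  have e2 : 2 * (K:ℝ) * C0 * Real.exp (-(c0 * r' / 48 * (n * x))) = 2 * K * t := by
    rw [ht]; ring
  rw [e2]
  have hwb : ∀ w h : ℕ, s ≤ w → w ≤ K * h → h ≤ K * w → hh (1 - p) w h ≤ t := by
    intro w h h1 h2 h3
    refine (hw (1 - p) (by linarith) (by linarith) w h (by omega) h2 h3).trans ?_
    rw [ht, show (1:ℝ)/2 - (1 - p) = p - 1/2 by ring, ← hx]
    refine mul_le_mul_of_nonneg_left (Real.exp_le_exp.2 ?_) hC0.le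
    have h4 : (s:ℝ) ≤ w := by exact_mod_cast h1
    have h5 : c0 * (r' * n / 48 * x) ≤ c0 * (w * x) :=
      mul_le_mul_of_nonneg_left (mul_le_mul_of_nonneg_right (by linarith) hx0) hc0.le
    have h6 : c0 * r' / 48 * (n * x) = c0 * (r' * n / 48 * x) := by ring
    rw [h6]
    linarith
  have ok1 : Ok (fun _ : Edg => p) := okq (by linarith) hp2
  have ok2 : Ok (fun _ : Edg => 1 - p) := okq (by linarith) (by linarith)
  have hKs : ∀ m : ℕ, m ≤ K * m := fun m => Nat.le_mul_of_pos_left _ (by omega)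
  have hsK : s + 1 ≤ K * (n - 1) := le_trans (by omega) (hKs _)
  constructor
  · -- supercritical
    have hG : ∀ F, F ⊆ RE 0 (n:ℤ) 0 n → (∃ v, Largest n F v ∧ ¬ Near n r F v (RE 0 n 0 n) v) →
        ∃ i ∈ Finset.range K,
          (((i : ℤ) + 1) * s ≤ n ∧ ¬ TBc (i * s) (((i : ℤ) + 1) * s) 0 n F) ∨
          (((i : ℤ) + 1) * s ≤ n ∧ ¬ LRc 0 n (i * s) (((i : ℤ) + 1) * s) F) := by
      rintro F hFE ⟨v, hv, hnear⟩
      by_contra hcon
      have hgood : GU n s K F := by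
        intro i hi h1
        constructor
        · by_contra h2
          exact hcon ⟨i, Finset.mem_range.2 hi, Or.inl ⟨h1, h2⟩⟩
        · by_contra h2
          exact hcon ⟨i, Finset.mem_range.2 hi, Or.inr ⟨h1, h2⟩⟩
      apply hnear
      refine (grid_near hs4 h6 hK1 hnK' hFE hgood hv).mono ?_
      rw [div_le_iff₀ hn']
      linarith
    refine (Pr_mono ok1 hG).trans (union2 ok1 (RE 0 (n:ℤ) 0 n) K
      (fun i F => ((i : ℤ) + 1) * s ≤ n ∧ ¬ TBc (i * s) (((i : ℤ) + 1) * s) 0 n F)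
      (fun i F => ((i : ℤ) + 1) * s ≤ n ∧ ¬ LRc 0 n (i * s) (((i : ℤ) + 1) * s) F) ?_ ?_)
    · intro i _
      apply Pr_cond ok1 _ _ _ ht0
      intro hi
      have e : ((i : ℤ) + 1) * s = (i : ℤ) * s + s := by ring
      have his : (0 : ℤ) ≤ (i : ℤ) * s := by positivity
      rw [Pr_not, pr_TBc p (TBE_subset_RE.trans (RE_subset (by omega) hi le_rfl le_rfl)),
        show (n:ℤ) - 0 = (n:ℤ) by simp,
        show ((i : ℤ) + 1) * s - (i * s) = (s:ℤ) by rw [e]; ring,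
        hh_dual (by omega) (by omega), sub_sub_cancel]
      have := hwb (s + 1) (n - 1) (by omega) hsK
        (le_trans (by omega) (hnK.trans (Nat.mul_le_mul_left K (Nat.le_succ s))))
      have e3 : ((n - 1 : ℕ) : ℤ) = (n:ℤ) - 1 := by omega
      rw [e3] at this
      push_cast at this
      exact this
    · intro i _
      apply Pr_cond ok1 _ _ _ ht0
      intro hi
      have e : ((i : ℤ) + 1) * s = (i : ℤ) * s + s := by ring
      have his : (0 : ℤ) ≤ (i : ℤ) * s := by positivity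
      rw [Pr_not, pr_LRc p (LRE_subset_RE.trans (RE_subset le_rfl le_rfl his hi)),
        show (n:ℤ) - 0 = (n:ℤ) by simp,
        show ((i : ℤ) + 1) * s - (i * s) = (s:ℤ) by rw [e]; ring,
        hh_dual (by omega) (by omega), sub_sub_cancel]
      have := hwb (s + 1) (n - 1) (by omega) hsK
        (le_trans (by omega) (hnK.trans (Nat.mul_le_mul_left K (Nat.le_succ s))))
      have e3 : ((n - 1 : ℕ) : ℤ) = (n:ℤ) - 1 := by omega
      rw [e3] at this
      push_cast at this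
      exact this
  · -- subcritical
    have hG : ∀ F, F ⊆ RE 0 (n:ℤ) 0 n → (∃ v ∈ Plain.box n, r * n < diam F v) →
        ∃ i ∈ Finset.range K,
          (((i : ℤ) + 1) * s ≤ n ∧ LRc (i * s) (((i : ℤ) + 1) * s) 0 n F) ∨
          (((i : ℤ) + 1) * s ≤ n ∧ TBc 0 n (i * s) (((i : ℤ) + 1) * s) F) := by
      rintro F hFE ⟨v, hv, hd⟩
      by_contra hcon
      have hgood : GD n s K F := by
        intro i hi h1
        constructor
        · intro h2
          exact hcon ⟨i, Finset.mem_range.2 hi, Or.inl ⟨h1, h2⟩⟩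
        · intro h2
          exact hcon ⟨i, Finset.mem_range.2 hi, Or.inr ⟨h1, h2⟩⟩
      have := grid_small hs4 hnK' hFE hgood hv
      linarith
    refine (Pr_mono ok2 hG).trans (union2 ok2 (RE 0 (n:ℤ) 0 n) K
      (fun i F => ((i : ℤ) + 1) * s ≤ n ∧ LRc (i * s) (((i : ℤ) + 1) * s) 0 n F)
      (fun i F => ((i : ℤ) + 1) * s ≤ n ∧ TBc 0 n (i * s) (((i : ℤ) + 1) * s) F) ?_ ?_)
    · intro i _
      apply Pr_cond ok2 _ _ _ ht0
      intro hi
      have e : ((i : ℤ) + 1) * s = (i : ℤ) * s + s := by ring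
      have his : (0 : ℤ) ≤ (i : ℤ) * s := by positivity
      rw [pr_LRc (1 - p) (LRE_subset_RE.trans (RE_subset (by omega) hi le_rfl le_rfl)),
        show (n:ℤ) - 0 = (n:ℤ) by simp,
        show ((i : ℤ) + 1) * s - (i * s) = (s:ℤ) by rw [e]; ring]
      exact hwb s n le_rfl (le_trans (by omega) (hKs _)) hnK
    · intro i _
      apply Pr_cond ok2 _ _ _ ht0
      intro hi
      have e : ((i : ℤ) + 1) * s = (i : ℤ) * s + s := by ring
      have his : (0 : ℤ) ≤ (i : ℤ) * s := by positivity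
      rw [pr_TBc (1 - p) (TBE_subset_RE.trans (RE_subset le_rfl le_rfl his hi)),
        show (n:ℤ) - 0 = (n:ℤ) by simp,
        show ((i : ℤ) + 1) * s - (i * s) = (s:ℤ) by rw [e]; ring]
      exact hwb s n le_rfl (le_trans (by omega) (hKs _)) hnK

/-- **Outside of the window.** -/
theorem win_all {r : ℝ} (hr : 0 < r) : ∃ C c : ℝ, 0 < C ∧ 0 < c ∧ ∀ (n : ℕ) (p : ℝ),
    1/2 ≤ p → p ≤ 1 →
    Pr (fun _ => p) (RE 0 n 0 n) (fun F => ∃ v, Largest n F v ∧
      ¬ Near n r F v (RE 0 n 0 n) v) ≤ C * Real.exp (-(c * (n * (p - 1/2)^(4/3 : ℝ)))) ∧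
    Pr (fun _ => 1 - p) (RE 0 n 0 n) (fun F => ∃ v ∈ Plain.box n, r * n < diam F v) ≤
      C * Real.exp (-(c * (n * (p - 1/2)^(4/3 : ℝ)))) := by
  obtain ⟨C, c, n0, hC, hc, hn0, h⟩ := win_large hr
  refine ⟨C + Real.exp (c * n0), c, by positivity, hc, ?_⟩
  intro n p hp1 hp2
  by_cases hn : n0 ≤ n
  · obtain ⟨h1, h2⟩ := h n p hn hp1 hp2
    have h3 : C * Real.exp (-(c * (n * (p - 1/2)^(4/3 : ℝ)))) ≤
        (C + Real.exp (c * n0)) * Real.exp (-(c * (n * (p - 1/2)^(4/3 : ℝ)))) := by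
      apply mul_le_mul_of_nonneg_right _ (by positivity)
      have := Real.exp_pos (c * n0)
      linarith
    exact ⟨h1.trans h3, h2.trans h3⟩
  · push Not at hn
    have hx1 : (p - 1/2)^(4/3 : ℝ) ≤ 1 := Real.rpow_le_one (by linarith) (by linarith) (by norm_num)
    have hx0 : 0 ≤ (p - 1/2)^(4/3 : ℝ) := Real.rpow_nonneg (by linarith) _
    have hnn : (0:ℝ) ≤ n := Nat.cast_nonneg n
    have h4 : (n:ℝ) * (p - 1/2)^(4/3 : ℝ) ≤ n0 := by nlinarith
    have h5 : 1 ≤ Real.exp (c * n0) * Real.exp (-(c * (n * (p - 1/2)^(4/3 : ℝ)))) := by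
      rw [← Real.exp_add]
      apply Real.one_le_exp
      nlinarith
    have h6 : 1 ≤ (C + Real.exp (c * n0)) * Real.exp (-(c * (n * (p - 1/2)^(4/3 : ℝ)))) := by
      refine h5.trans (mul_le_mul_of_nonneg_right (by linarith) (by positivity))
    have ok1 : Ok (fun _ : Edg => p) := okq (by linarith) hp2
    have ok2 : Ok (fun _ : Edg => 1 - p) := okq (by linarith) (by linarith)
    exact ⟨(Pr_le_one ok1 _ _).trans h6, (Pr_le_one ok2 _ _).trans h6⟩

end Pool.Agent.H950.AD
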